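import Mathlib
import Pool.Agent.MP1bdb59C.Gen

/-!
# Descent of classes along a Galois extension
-/

open Polynomial

noncomputable section

open scoped Classical

namespace Pool.Agent.H28G

open Pool.Agent.MP1bdb59C

/-- PROOF. `y = mk P` with `P` of degree `< n` (`modByMonic`); `lamMap σ y = mk (P.map σ)`, again of
degree `< n`, so `P.map σ = P` for all `σ`, the coefficients are fixed by the Galois group, so in
`F₀` (`IsGalois.mem_bot_iff_fixed`/`mem_range_algebraMap_iff_fixed`). -/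
theorem exists_of_fixed {F₀ N : Type*} [Field F₀] [Field N] [Algebra F₀ N]
    [FiniteDimensional F₀ N] [IsGalois F₀ N] {f : F₀[X]} (hf : f.Monic)
    (y : AdjoinRoot (f.map (algebraMap F₀ N)))
    (hy : ∀ σ : N ≃ₐ[F₀] N, lamMap (σ : N →+* N) (by
      rw [Polynomial.map_map]
      congr 1
      ext x
      simp) y = y) :
    ∃ y₀ : AdjoinRoot f, y = lamMap (algebraMap F₀ N) rfl y₀ := by
  obtain ⟨p, rfl⟩ := AdjoinRoot.mk_surjective y
  have hg : (f.map (algebraMap F₀ N)).Monic := hf.map _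
  have hpP : AdjoinRoot.mk (f.map (algebraMap F₀ N)) p =
      AdjoinRoot.mk (f.map (algebraMap F₀ N)) (p %ₘ (f.map (algebraMap F₀ N))) := by
    rw [AdjoinRoot.mk_eq_mk]
    exact ⟨p /ₘ (f.map (algebraMap F₀ N)), by
      have := Polynomial.modByMonic_add_div p (f.map (algebraMap F₀ N))
      linear_combination -this⟩
  have hdeg : (p %ₘ (f.map (algebraMap F₀ N))).degree < (f.map (algebraMap F₀ N)).degree :=
    Polynomial.degree_modByMonic_lt p hg
  rw [hpP] at hy ⊢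
  generalize p %ₘ (f.map (algebraMap F₀ N)) = P at hy hdeg ⊢
  have hfix : ∀ σ : N ≃ₐ[F₀] N, P.map (σ : N →+* N) = P := by
    intro σ
    have h1 := hy σ
    rw [lamMap_mk, AdjoinRoot.mk_eq_mk] at h1
    have h2 : P.map (σ : N →+* N) - P = 0 := by
      refine Polynomial.eq_zero_of_dvd_of_degree_lt h1 ?_
      refine lt_of_le_of_lt (Polynomial.degree_sub_le _ _) (max_lt ?_ hdeg)
      exact lt_of_le_of_lt (Polynomial.degree_map_le) hdeg
    exact sub_eq_zero.mp h2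
  have hlift : P ∈ Polynomial.lifts (algebraMap F₀ N) := by
    rw [Polynomial.lifts_iff_coeff_lifts]
    intro i
    rw [IsGalois.mem_range_algebraMap_iff_fixed]
    intro σ
    have := congrArg (fun q : N[X] => q.coeff i) (hfix σ)
    simpa [Polynomial.coeff_map] using this
  obtain ⟨P₀, hP₀⟩ := (Polynomial.mem_lifts P).mp hlift
  exact ⟨AdjoinRoot.mk f P₀, by rw [lamMap_mk, hP₀]⟩

/-- PROOF. `x^ℓ = y` in `N`; norms: `y^n = (norm x)^ℓ` (`norm_of` as in `exists_pow_of_norm`,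
Gen.lean), so `y = z^ℓ` by `exists_pow_of_coprime` (Frac.lean), so `x/z` is an `ℓ`-th root of unity,
a power of `ζ`. -/
theorem exists_of_pow_const {N : Type*} [Field N] {ℓ : ℕ} [hp : Fact ℓ.Prime] {g : N[X]}
    (hg : g.Monic) (hirr : Irreducible g) (hcop : ¬ ℓ ∣ g.natDegree) {ζ : N}
    (hζ : IsPrimitiveRoot ζ ℓ) {x : AdjoinRoot g} {y : N} (hx : x ^ ℓ = AdjoinRoot.of g y) :
    ∃ z : N, x = AdjoinRoot.of g z := by
  have := Fact.mk hirr
  have hℓ : ℓ ≠ 0 := hp.out.ne_zero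
  rcases eq_or_ne x 0 with rfl | hx0
  · exact ⟨0, by rw [map_zero]⟩
  have hof : Function.Injective (AdjoinRoot.of g) := RingHom.injective _
  have hy0 : y ≠ 0 := by
    rintro rfl
    rw [map_zero] at hx
    exact hx0 (pow_eq_zero_iff hℓ |>.mp hx)
  have hN : y ^ g.natDegree = (Algebra.norm N x) ^ ℓ := by
    rw [← map_pow, hx, norm_of hg]
  obtain ⟨c, hc⟩ := exists_pow_of_coprime hy0
    ((Nat.Prime.coprime_iff_not_dvd hp.out).mpr hcop) hN
  have hc0 : c ≠ 0 := by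
    rintro rfl
    rw [zero_pow hℓ] at hc
    exact hy0 hc
  have hofc : AdjoinRoot.of g c ≠ 0 := fun h0 => hc0 ((map_eq_zero _).mp h0)
  have h1 : (x / AdjoinRoot.of g c) ^ ℓ = 1 := by
    rw [div_pow, hx, hc, map_pow, div_self (pow_ne_zero _ hofc)]
  have hζ' : IsPrimitiveRoot (AdjoinRoot.of g ζ) ℓ := hζ.map_of_injective hof
  have : NeZero ℓ := ⟨hℓ⟩
  obtain ⟨i, _, hi⟩ := hζ'.eq_pow_of_pow_eq_one h1
  refine ⟨ζ ^ i * c, ?_⟩
  rw [map_mul, map_pow, hi, div_mul_cancel₀ _ hofc]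

/-- PROOF. `G = Gal(N/F₀)` acts on `L_N = N[x]/(f)` through the coefficients (`lamMap σ`), fixing
`c₀`. So `e b^ℓ = σ(e) σ(b)^ℓ`, `(σ(b)/b)^ℓ` is in `N^*`, so `σ(b)/b = x_σ` in `N^*` by
`exists_of_pow_const`; `x` is a cocycle, so `x_σ = σ(a)/a` with `a` in `N^*` by Hilbert 90
(`groupCohomology.isMulCoboundary₁_of_isMulCocycle₁_of_aut_to_units`, or Pool.Agent.MP1bdb59C.H90);
`b/a` is fixed, so in `L` by `exists_of_fixed`: `b = a b₀`; `c₀ = (e a^ℓ) b₀^ℓ`, and `e a^ℓ` is in `N`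
and fixed, so in `F₀`. -/
theorem exists_of_galois {F₀ N : Type*} [Field F₀] [Field N] [Algebra F₀ N]
    [FiniteDimensional F₀ N] [IsGalois F₀ N] {ℓ : ℕ} [hp : Fact ℓ.Prime] {f : F₀[X]}
    (hf : f.Monic) (hirr : Irreducible f) (hirrN : Irreducible (f.map (algebraMap F₀ N)))
    (hcop : ¬ ℓ ∣ f.natDegree) {ζ : F₀} (hζ : IsPrimitiveRoot ζ ℓ)
    {c₀ : AdjoinRoot f} (hc₀ : c₀ ≠ 0) {e : N} {b : AdjoinRoot (f.map (algebraMap F₀ N))}
    (h : lamMap (algebraMap F₀ N) (rfl : f.map (algebraMap F₀ N) = _) c₀ =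
      AdjoinRoot.of _ e * b ^ ℓ) :
    ∃ (e₀ : F₀) (b₀ : AdjoinRoot f), c₀ = AdjoinRoot.of f e₀ * b₀ ^ ℓ := by
  have hℓ : ℓ ≠ 0 := hp.out.ne_zero
  have hgm : (f.map (algebraMap F₀ N)).Monic := hf.map _
  have hσ : ∀ σ : N ≃ₐ[F₀] N, (f.map (algebraMap F₀ N)).map (σ : N →+* N) =
      f.map (algebraMap F₀ N) := by
    intro σ
    rw [Polynomial.map_map]
    congr 1
    ext x
    simp
  have : Fact (Irreducible f) := ⟨hirr⟩
  have : Fact (Irreducible (f.map (algebraMap F₀ N))) := ⟨hirrN⟩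
  have hfixed := exists_of_fixed (F₀ := F₀) (N := N) hf
  have hinj := lamMap_injective (algebraMap F₀ N)
    (rfl : f.map (algebraMap F₀ N) = f.map (algebraMap F₀ N)) hf
  have hof : Function.Injective (AdjoinRoot.of (f.map (algebraMap F₀ N))) := RingHom.injective _
  have hζN : IsPrimitiveRoot (algebraMap F₀ N ζ) ℓ := hζ.map_of_injective (algebraMap F₀ N).injective
  have hcopN : ¬ ℓ ∣ (f.map (algebraMap F₀ N)).natDegree := by
    rwa [Polynomial.natDegree_map]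
  have hc : lamMap (algebraMap F₀ N) (rfl : f.map (algebraMap F₀ N) = _) c₀ ≠ 0 := fun h0 =>
    hc₀ (hinj (by rw [h0, map_zero]))
  have hb : b ≠ 0 := by
    rintro rfl
    exact hc (by rw [h, zero_pow hℓ, mul_zero])
  have he : e ≠ 0 := by
    rintro rfl
    exact hc (by rw [h, map_zero, zero_mul])
  -- the action
  have hSmul : ∀ (σ τ : N ≃ₐ[F₀] N) (y : AdjoinRoot (f.map (algebraMap F₀ N))),
      lamMap ((σ * τ : N ≃ₐ[F₀] N) : N →+* N) (hσ (σ * τ)) y =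
        lamMap (σ : N →+* N) (hσ σ) (lamMap (τ : N →+* N) (hσ τ) y) := by
    intro σ τ y
    obtain ⟨p, rfl⟩ := AdjoinRoot.mk_surjective y
    rw [lamMap_mk, lamMap_mk, lamMap_mk, Polynomial.map_map]
    rfl
  have hSfix : ∀ (σ : N ≃ₐ[F₀] N) (y : AdjoinRoot f),
      lamMap (σ : N →+* N) (hσ σ)
        (lamMap (algebraMap F₀ N) (rfl : f.map (algebraMap F₀ N) = _) y) =
        lamMap (algebraMap F₀ N) (rfl : f.map (algebraMap F₀ N) = _) y := by
    intro σ y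
    obtain ⟨p, rfl⟩ := AdjoinRoot.mk_surjective y
    rw [lamMap_mk, lamMap_mk, Polynomial.map_map]
    congr 2
    ext x
    simp
  have hSof : ∀ (σ : N ≃ₐ[F₀] N) (x : N), lamMap (σ : N →+* N) (hσ σ)
      (AdjoinRoot.of (f.map (algebraMap F₀ N)) x) =
        AdjoinRoot.of (f.map (algebraMap F₀ N)) (σ x) := fun σ x => lamMap_of' _ _ _
  have hSb : ∀ σ : N ≃ₐ[F₀] N, lamMap (σ : N →+* N) (hσ σ) b ≠ 0 := fun σ h0 =>
    hb ((map_eq_zero _).mp h0)
  have hz : ∀ σ : N ≃ₐ[F₀] N, ∃ z : N, lamMap (σ : N →+* N) (hσ σ) b / b =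
      AdjoinRoot.of (f.map (algebraMap F₀ N)) z := by
    intro σ
    refine exists_of_pow_const hgm hirrN hcopN hζN (y := e / σ e) ?_
    have h1 := congrArg (lamMap (σ : N →+* N) (hσ σ)) h
    rw [hSfix, map_mul, hSof, map_pow] at h1
    have h2 : AdjoinRoot.of (f.map (algebraMap F₀ N)) (σ e) ≠ 0 := by
      intro h0
      exact he ((map_eq_zero _).mp ((map_eq_zero _).mp h0))
    rw [div_pow, map_div₀, div_eq_div_iff (pow_ne_zero _ hb) h2]
    rw [← h, h1]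
    ring
  choose z hz using hz
  have hSbz : ∀ σ : N ≃ₐ[F₀] N, lamMap (σ : N →+* N) (hσ σ) b =
      AdjoinRoot.of (f.map (algebraMap F₀ N)) (z σ) * b := by
    intro σ
    rw [← hz σ, div_mul_cancel₀ _ hb]
  have hz0 : ∀ σ : N ≃ₐ[F₀] N, z σ ≠ 0 := by
    intro σ h0
    have := hSbz σ
    rw [h0, map_zero, zero_mul] at this
    exact hSb σ this
  have hcoc : ∀ σ τ : N ≃ₐ[F₀] N, z (σ * τ) = σ (z τ) * z σ := by
    intro σ τ
    apply hof
    have h1 := hSbz (σ * τ)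
    rw [hSmul, hSbz τ, map_mul, hSof, hSbz σ, ← mul_assoc] at h1
    rw [map_mul]
    exact (mul_right_cancel₀ hb h1).symm
  obtain ⟨β, hβ⟩ := groupCohomology.isMulCoboundary₁_of_isMulCocycle₁_of_aut_to_units
    (K := F₀) (L := N) (fun σ => Units.mk0 (z σ) (hz0 σ)) (by
      intro σ τ
      ext
      simpa using hcoc σ τ)
  have hβ' : ∀ σ : N ≃ₐ[F₀] N, σ (β : N) = z σ * β := by
    intro σ
    have h1 := hβ σ
    rw [div_eq_iff_eq_mul] at h1
    have h2 := congrArg Units.val h1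
    simpa using h2
  have hβ0 : (β : N) ≠ 0 := β.ne_zero
  have hofβ : AdjoinRoot.of (f.map (algebraMap F₀ N)) (β : N) ≠ 0 := fun h0 =>
    hβ0 ((map_eq_zero _).mp h0)
  have hofz : ∀ σ, AdjoinRoot.of (f.map (algebraMap F₀ N)) (z σ) ≠ 0 := fun σ h0 =>
    hz0 σ ((map_eq_zero _).mp h0)
  obtain ⟨b₀, hb₀⟩ := hfixed (b / AdjoinRoot.of _ (β : N)) (by
    intro σ
    rw [map_div₀, hSbz σ, hSof, hβ' σ, map_mul]
    exact mul_div_mul_left _ _ (hofz σ))
  have hb1 : b = AdjoinRoot.of _ (β : N) *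
      lamMap (algebraMap F₀ N) (rfl : f.map (algebraMap F₀ N) = _) b₀ := by
    rw [← hb₀, mul_div_cancel₀ _ hofβ]
  have hb₀0 : lamMap (algebraMap F₀ N) (rfl : f.map (algebraMap F₀ N) = _) b₀ ≠ 0 := by
    intro h0
    rw [h0, mul_zero] at hb1
    exact hb hb1
  have h3 : lamMap (algebraMap F₀ N) (rfl : f.map (algebraMap F₀ N) = _) c₀ =
      AdjoinRoot.of _ (e * (β : N) ^ ℓ) *
        lamMap (algebraMap F₀ N) (rfl : f.map (algebraMap F₀ N) = _) b₀ ^ ℓ := by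
    rw [h, hb1, map_mul, map_pow, mul_pow, mul_assoc]
  have h4 : ∀ σ : N ≃ₐ[F₀] N, σ (e * (β : N) ^ ℓ) = e * (β : N) ^ ℓ := by
    intro σ
    apply hof
    have h5 := congrArg (lamMap (σ : N →+* N) (hσ σ)) h3
    rw [hSfix, map_mul, map_pow, hSfix, hSof, h3] at h5
    exact (mul_right_cancel₀ (pow_ne_zero _ hb₀0) h5).symm
  obtain ⟨e₀, he₀⟩ := (IsGalois.mem_range_algebraMap_iff_fixed (F := F₀) (E := N) _).mpr h4
  refine ⟨e₀, b₀, hinj ?_⟩
  rw [h3, ← he₀, map_mul (lamMap _ _), map_pow (lamMap _ _), lamMap_of']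

end Pool.Agent.H28G
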