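import Mathlib
import Pool.Agent.MP1bdb59C.Scale

open Polynomial

noncomputable section

open scoped Classical

namespace Pool.Agent.H28G

open Pool.Agent.MP1bdb59C

open scoped TensorProduct in
private theorem nrm_norm_one_tmul {F₀ E L : Type*} [Field F₀] [Field E] [Field L] [Algebra F₀ E]
    [Algebra F₀ L] [FiniteDimensional F₀ E] (e : E) :
    Algebra.norm L ((1 : L) ⊗ₜ[F₀] e) = algebraMap F₀ L (Algebra.norm F₀ e) := by
  rw [Algebra.norm_apply, Algebra.norm_apply, ← LinearMap.det_baseChange]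
  congr 1
  apply TensorProduct.AlgebraTensorModule.ext
  intro a x
  simp

open scoped TensorProduct in
theorem exists_of_norm {F₀ E : Type*} [Field F₀] [Field E] [Algebra F₀ E]
    [FiniteDimensional F₀ E] {ℓ : ℕ} [hp : Fact ℓ.Prime] (hδ : ¬ ℓ ∣ Module.finrank F₀ E)
    {f : F₀[X]} (hf : f.Monic) (hirr : Irreducible f) (hirrE : Irreducible (f.map (algebraMap F₀ E)))
    {c₀ : AdjoinRoot f} (hc₀ : c₀ ≠ 0) {e : E} {b : AdjoinRoot (f.map (algebraMap F₀ E))}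
    (h : lamMap (algebraMap F₀ E) (rfl : f.map (algebraMap F₀ E) = _) c₀ =
      AdjoinRoot.of _ e * b ^ ℓ) :
    ∃ (e₀ : F₀) (b₀ : AdjoinRoot f), c₀ = AdjoinRoot.of f e₀ * b₀ ^ ℓ := by
  have hfact : Fact (Irreducible f) := ⟨hirr⟩
  -- the tensor product
  obtain ⟨ψ, hψe, hψc⟩ : ∃ ψ : AdjoinRoot (f.map (algebraMap F₀ E)) →+* (AdjoinRoot f ⊗[F₀] E),
      (∀ e : E, ψ (AdjoinRoot.of _ e) = (1 : AdjoinRoot f) ⊗ₜ[F₀] e) ∧
      ∀ c : AdjoinRoot f, ψ (lamMap (algebraMap F₀ E) rfl c) = c ⊗ₜ[F₀] (1 : E) := by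
    have hcomm : ((Algebra.TensorProduct.includeRight : E →ₐ[F₀] AdjoinRoot f ⊗[F₀] E) :
        E →+* AdjoinRoot f ⊗[F₀] E).comp (algebraMap F₀ E) =
        ((Algebra.TensorProduct.includeLeft : AdjoinRoot f →ₐ[F₀] AdjoinRoot f ⊗[F₀] E) :
        AdjoinRoot f →+* AdjoinRoot f ⊗[F₀] E).comp (AdjoinRoot.of f) := by
      rw [← AdjoinRoot.algebraMap_eq]
      ext a
      simp
    refine ⟨AdjoinRoot.lift ((Algebra.TensorProduct.includeRight : E →ₐ[F₀] AdjoinRoot f ⊗[F₀] E) :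
        E →+* AdjoinRoot f ⊗[F₀] E) (AdjoinRoot.root f ⊗ₜ[F₀] (1 : E)) ?_, ?_, ?_⟩
    · rw [eval₂_map, hcomm]
      have h1 : AdjoinRoot.root f ⊗ₜ[F₀] (1 : E) =
        ((Algebra.TensorProduct.includeLeft : AdjoinRoot f →ₐ[F₀] AdjoinRoot f ⊗[F₀] E) :
        AdjoinRoot f →+* AdjoinRoot f ⊗[F₀] E) (AdjoinRoot.root f) := rfl
      rw [h1, ← hom_eval₂, AdjoinRoot.eval₂_root, map_zero]
    · intro e
      rw [AdjoinRoot.lift_of]
      rfl
    · intro c
      obtain ⟨p, rfl⟩ := AdjoinRoot.mk_surjective c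
      rw [lamMap_mk, AdjoinRoot.lift_mk, eval₂_map, hcomm]
      have h1 : AdjoinRoot.root f ⊗ₜ[F₀] (1 : E) =
        ((Algebra.TensorProduct.includeLeft : AdjoinRoot f →ₐ[F₀] AdjoinRoot f ⊗[F₀] E) :
        AdjoinRoot f →+* AdjoinRoot f ⊗[F₀] E) (AdjoinRoot.root f) := rfl
      rw [h1, ← hom_eval₂]
      have h2 : eval₂ (AdjoinRoot.of f) (AdjoinRoot.root f) p = AdjoinRoot.mk f p :=
        AdjoinRoot.aeval_eq p
      rw [h2]
      rfl
  have h1 := congrArg ψ h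
  rw [map_mul, map_pow, hψe, hψc] at h1
  have h2 := congrArg (Algebra.norm (AdjoinRoot f)) h1
  rw [map_mul, map_pow, nrm_norm_one_tmul] at h2
  have h3 : c₀ ⊗ₜ[F₀] (1 : E) = algebraMap (AdjoinRoot f) (AdjoinRoot f ⊗[F₀] E) c₀ := rfl
  rw [h3, Algebra.norm_algebraMap, Module.finrank_baseChange] at h2
  obtain ⟨n, hn⟩ : ∃ n, n = Algebra.norm (AdjoinRoot f) (ψ b) := ⟨_, rfl⟩
  obtain ⟨z, hz⟩ : ∃ z, z = Algebra.norm F₀ e := ⟨_, rfl⟩
  rw [← hn, ← hz] at h2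
  have hcop : IsCoprime ((Module.finrank F₀ E : ℕ) : ℤ) (ℓ : ℤ) := by
    rw [Nat.isCoprime_iff_coprime]
    exact ((Nat.Prime.coprime_iff_not_dvd hp.out).2 hδ).symm
  obtain ⟨x, y, hxy⟩ := hcop
  refine ⟨z ^ x, n ^ x * c₀ ^ y, ?_⟩
  have h4 : c₀ = (c₀ ^ Module.finrank F₀ E) ^ x * (c₀ ^ y) ^ ℓ := by
    rw [← zpow_natCast, ← zpow_mul, ← zpow_natCast (c₀ ^ y), ← zpow_mul, ← zpow_add₀ hc₀]
    have h5 : ((Module.finrank F₀ E : ℕ) : ℤ) * x + y * (ℓ : ℤ) = 1 := by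
      rw [← hxy]
      ring
    rw [h5, zpow_one]
  conv_lhs => rw [h4, h2, mul_zpow]
  rw [map_zpow₀, mul_pow, ← mul_assoc]
  congr 1
  have h6 : (algebraMap F₀ (AdjoinRoot f)) z = AdjoinRoot.of f z := rfl
  rw [h6]
  congr 1
  rw [← zpow_natCast n, ← zpow_natCast (n ^ x), ← zpow_mul, ← zpow_mul, mul_comm]

theorem irreducible_swap {F₀ : Type*} [Field F₀] {f P : F₀[X]} (hf : f.Monic)
    (hirr : Irreducible f) (hP : Irreducible P)
    (h : Irreducible (P.map (AdjoinRoot.of f))) : Irreducible (f.map (AdjoinRoot.of P)) := by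
  have hfact : Fact (Irreducible f) := ⟨hirr⟩
  have hfactP : Fact (Irreducible P) := ⟨hP⟩
  have hfact2 : Fact (Irreducible (P.map (AdjoinRoot.of f))) := ⟨h⟩
  obtain ⟨g, hg⟩ : ∃ g : (AdjoinRoot P)[X], f.map (AdjoinRoot.of P) = g := ⟨_, rfl⟩
  have hgm : g.Monic := hg ▸ hf.map _
  have hgd : 0 < g.natDegree := by
    rw [← hg, natDegree_map]
    exact hirr.natDegree_pos
  rw [hg]
  -- the homomorphism
  have hcomm : ((lamMap (AdjoinRoot.of P) hg).comp (AdjoinRoot.of f) : F₀ →+* AdjoinRoot g) =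
      (AdjoinRoot.of g).comp (AdjoinRoot.of P) := by
    ext a
    rw [RingHom.comp_apply, lamMap_of']
    rfl
  obtain ⟨φ, hφ⟩ : ∃ φ : AdjoinRoot (P.map (AdjoinRoot.of f)) →+* AdjoinRoot g,
      φ = AdjoinRoot.lift (lamMap (AdjoinRoot.of P) hg) (AdjoinRoot.of g (AdjoinRoot.root P)) (by
        rw [eval₂_map, hcomm, ← hom_eval₂, AdjoinRoot.eval₂_root, map_zero]) := ⟨_, rfl⟩
  have hφ1 : ∀ c, φ (AdjoinRoot.of _ c) = lamMap (AdjoinRoot.of P) hg c := by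
    intro c
    rw [hφ, AdjoinRoot.lift_of]
  have hφ2 : φ (AdjoinRoot.root _) = AdjoinRoot.of g (AdjoinRoot.root P) := by
    rw [hφ, AdjoinRoot.lift_root]
  have hsurj : Function.Surjective φ := by
    have h1 : ∀ c : AdjoinRoot P, AdjoinRoot.of g c ∈ φ.range := by
      intro c
      obtain ⟨q, rfl⟩ := AdjoinRoot.mk_surjective c
      refine ⟨AdjoinRoot.mk _ (q.map (AdjoinRoot.of f)), ?_⟩
      rw [hφ, AdjoinRoot.lift_mk, eval₂_map, hcomm, ← hom_eval₂]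
      congr 1
      exact AdjoinRoot.aeval_eq q
    intro z
    obtain ⟨p, rfl⟩ := AdjoinRoot.mk_surjective z
    have h2 : AdjoinRoot.mk g p ∈ φ.range := by
      induction p using Polynomial.induction_on' with
      | add p q hp hq =>
        rw [map_add]
        exact Subring.add_mem _ hp hq
      | monomial n a =>
        rw [← C_mul_X_pow_eq_monomial, map_mul, map_pow, AdjoinRoot.mk_C, AdjoinRoot.mk_X]
        refine Subring.mul_mem _ (h1 a) (Subring.pow_mem _ ?_ _)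
        refine ⟨AdjoinRoot.of _ (AdjoinRoot.root f), ?_⟩
        rw [hφ1, lamMap_root']
    exact h2
  have hnt : Nontrivial (AdjoinRoot g) := AdjoinRoot.nontrivial g (by
    rw [degree_eq_natDegree hgm.ne_zero]
    exact_mod_cast hgd.ne')
  have hinj : Function.Injective φ := φ.injective
  have hdom : IsDomain (AdjoinRoot g) :=
    (RingEquiv.ofBijective φ ⟨hinj, hsurj⟩).symm.toMulEquiv.isDomain _
  have h3 : (Ideal.span {g}).IsPrime := (Ideal.Quotient.isDomain_iff_prime _).1 hdom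
  exact ((Ideal.span_singleton_prime hgm.ne_zero).1 h3).irreducible

end Pool.Agent.H28G
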