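import Mathlib
import Pool.Agent.H28G.Nrm
import Pool.Agent.H28G.Gal

/-!
# Descent of classes from `F₀[s]/(P)`
-/

open Polynomial

noncomputable section

open scoped Classical

namespace Pool.Agent.H28G

open Pool.Agent.MP1bdb59C

/-- `L^*/F₀^* L^{*ℓ} → L_P^*/F_P^* L_P^{*ℓ}` is injective, `F_P = F₀[s]/(P)`. -/
def InjP (ℓ : ℕ) {F₀ : Type*} [Field F₀] (f P : F₀[X]) : Prop :=
  ∀ (c₀ : AdjoinRoot f) (e : AdjoinRoot P) (b : AdjoinRoot (f.map (AdjoinRoot.of P))), c₀ ≠ 0 →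
    lamMap (AdjoinRoot.of P) (rfl : f.map (AdjoinRoot.of P) = _) c₀ = AdjoinRoot.of _ e * b ^ ℓ →
    ∃ (e₀ : F₀) (b₀ : AdjoinRoot f), c₀ = AdjoinRoot.of f e₀ * b₀ ^ ℓ

/-- The case of a prime `P` of degree prime to `ℓ`. -/
theorem injP_of_norm {F₀ : Type*} [Field F₀] {ℓ : ℕ} [hp : Fact ℓ.Prime] {f P : F₀[X]}
    (hf : f.Monic) (hirr : Irreducible f) (hP : Irreducible P)
    (hPL : Irreducible (P.map (AdjoinRoot.of f))) (hPℓ : ¬ ℓ ∣ P.natDegree) : InjP ℓ f P := by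
  intro c₀ e b hc₀ h
  have f3 := Fact.mk hP
  have f4 : FiniteDimensional F₀ (AdjoinRoot P) := (AdjoinRoot.powerBasis hP.ne_zero).finite
  exact exists_of_norm (E := AdjoinRoot P) (by
    rw [(AdjoinRoot.powerBasis hP.ne_zero).finrank, AdjoinRoot.powerBasis_dim]
    exact hPℓ) hf hirr (irreducible_swap hf hirr hP hPL) hc₀ h

/-- The case of a prime `P` with a root in a Galois extension over which `f` is irreducible.
PROOF. `AdjoinRoot.lift` gives `AdjoinRoot P → N`; push the equation to `N` by `lamMap` (see the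
end of `const_at_P`: `lamMap_comp`), and `exists_of_galois`. -/
theorem injP_of_galois {F₀ N : Type*} [Field F₀] [Field N] [Algebra F₀ N]
    [FiniteDimensional F₀ N] [IsGalois F₀ N] {ℓ : ℕ} [hp : Fact ℓ.Prime] {f P : F₀[X]}
    (hf : f.Monic) (hirr : Irreducible f) (hirrN : Irreducible (f.map (algebraMap F₀ N)))
    (hcop : ¬ ℓ ∣ f.natDegree) {ζ : F₀} (hζ : IsPrimitiveRoot ζ ℓ) {y : N}
    (hy : aeval y P = 0) : InjP ℓ f P := by
  intro c₀ e b hc₀ h
  obtain ⟨τ, hτ⟩ : ∃ τ : AdjoinRoot P →+* N, τ.comp (AdjoinRoot.of P) = algebraMap F₀ N := by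
    refine ⟨AdjoinRoot.lift (algebraMap F₀ N) y (by rwa [← aeval_def]), ?_⟩
    ext x
    rw [RingHom.comp_apply, AdjoinRoot.lift_of]
  have hmap : (f.map (AdjoinRoot.of P)).map τ = f.map (algebraMap F₀ N) := by
    rw [Polynomial.map_map, hτ]
  have h1 := congrArg (lamMap τ hmap) h
  rw [map_mul, map_pow, lamMap_of'] at h1
  have h2 : lamMap τ hmap (lamMap (AdjoinRoot.of P) rfl c₀) = lamMap (algebraMap F₀ N) rfl c₀ := by
    obtain ⟨p, rfl⟩ := AdjoinRoot.mk_surjective c₀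
    rw [lamMap_mk, lamMap_mk, lamMap_mk, Polynomial.map_map, hτ]
  rw [h2] at h1
  exact exists_of_galois hf hirr hirrN hcop hζ hc₀ h1

private theorem inj_embedding {F₀ N : Type*} [Field F₀] [Field N] [Algebra F₀ N] {ℓ : ℕ}
    (hℓ0 : 0 < ℓ) {ζ : N} (hζ : IsPrimitiveRoot ζ ℓ) :
    Nonempty (CyclotomicField ℓ F₀ →ₐ[F₀] N) := by
  have h1 : Splits ((cyclotomic ℓ F₀).map (algebraMap F₀ N)) := by
    rw [map_cyclotomic]
    exact (X_pow_sub_one_splits hζ).of_dvd (X_pow_sub_C_ne_zero hℓ0 1)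
      (cyclotomic.dvd_X_pow_sub_one ℓ N)
  have h2 : IsSplittingField F₀ (CyclotomicField ℓ F₀) (cyclotomic ℓ F₀) :=
    inferInstanceAs (IsSplittingField F₀ (cyclotomic ℓ F₀).SplittingField (cyclotomic ℓ F₀))
  exact ⟨IsSplittingField.lift (CyclotomicField ℓ F₀) (cyclotomic ℓ F₀) h1⟩

/-- Over `CyclotomicField ℓ F₀`.
PROOF. `F₁ = CyclotomicField ℓ F₀` embeds into `N` over `F₀` (`N` contains a primitive `ℓ`-th root
of unity, so the cyclotomic polynomial splits in `N`: `IsSplittingField.lift`), so `N` is an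
extension of `F₁`, finite and Galois (`IsGalois.tower_top_of_isScalarTower` or similar), and
`injP_of_galois` over `F₁`. -/
theorem injP_cyclotomic {F₀ N : Type*} [Field F₀] [Field N] [Algebra F₀ N]
    [FiniteDimensional F₀ N] [IsGalois F₀ N] {ℓ : ℕ} [hp : Fact ℓ.Prime]
    (hℓ : (ℓ : F₀) ≠ 0) {f P : F₀[X]}
    (hf : f.Monic) (hirr : Irreducible (f.map (algebraMap F₀ (CyclotomicField ℓ F₀))))
    (hirrN : Irreducible (f.map (algebraMap F₀ N)))
    (hcop : ¬ ℓ ∣ f.natDegree) {ζ : N} (hζ : IsPrimitiveRoot ζ ℓ) {y : N}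
    (hy : aeval y P = 0) :
    InjP ℓ (f.map (algebraMap F₀ (CyclotomicField ℓ F₀)))
      (P.map (algebraMap F₀ (CyclotomicField ℓ F₀))) := by
  obtain ⟨j⟩ := inj_embedding (F₀ := F₀) hp.out.pos hζ
  let algN : Algebra (CyclotomicField ℓ F₀) N := j.toRingHom.toAlgebra
  have hst : IsScalarTower F₀ (CyclotomicField ℓ F₀) N :=
    IsScalarTower.of_algebraMap_eq fun x => (j.commutes x).symm
  have hfd : FiniteDimensional (CyclotomicField ℓ F₀) N := Module.Finite.right F₀ _ N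
  have hgal : IsGalois (CyclotomicField ℓ F₀) N :=
    IsGalois.tower_top_of_isGalois F₀ (CyclotomicField ℓ F₀) N
  have hne : NeZero ((ℓ : ℕ) : F₀) := ⟨hℓ⟩
  have hζ1 : IsPrimitiveRoot (IsCyclotomicExtension.zeta ℓ F₀ (CyclotomicField ℓ F₀)) ℓ :=
    IsCyclotomicExtension.zeta_spec ℓ F₀ (CyclotomicField ℓ F₀)
  refine injP_of_galois (N := N) (hf.map _) hirr ?_ ?_ hζ1 (y := y) ?_
  · rw [Polynomial.map_map, ← IsScalarTower.algebraMap_eq]
    exact hirrN
  · rw [natDegree_map]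
    exact hcop
  · rw [aeval_map_algebraMap]
    exact hy

end Pool.Agent.H28G
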