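import Mathlib
import Pool.Agent.MP1bdb59C.GenRing
import Pool.Agent.MP1bdb59C.GenPlace
import Pool.Agent.MP1bdb59C.GenLoc
import Pool.Agent.MP1bdb59C.Gen

/-!
# Twists by rational functions: definitions
-/

open Polynomial

noncomputable section

open scoped Classical WithZero

namespace Pool.Agent.H28G

section

variable (k₀ : Type*) {F₀ : Type*} [Field k₀] [Field F₀] [Algebra k₀ F₀]

/-- The multiplicative set of the products of a nonzero polynomial in `k₀[s]` and a power of
`D`. -/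
def tD (D : F₀[X]) : Submonoid F₀[X] where
  carrier := {t | ∃ (q : k₀[X]) (i : ℕ), q ≠ 0 ∧ t = q.map (algebraMap k₀ F₀) * D ^ i}
  one_mem' := ⟨1, 0, one_ne_zero, by simp⟩
  mul_mem' := by
    rintro _ _ ⟨q, i, hq, rfl⟩ ⟨q', i', hq', rfl⟩
    refine ⟨q * q', i + i', mul_ne_zero hq hq', ?_⟩
    rw [Polynomial.map_mul, pow_add]
    ring

lemma mem_tD {D t : F₀[X]} : t ∈ tD k₀ D ↔
    ∃ (q : k₀[X]) (i : ℕ), q ≠ 0 ∧ t = q.map (algebraMap k₀ F₀) * D ^ i := Iff.rfl

lemma tD_le {D : F₀[X]} (hD : D ≠ 0) : tD k₀ D ≤ nonZeroDivisors F₀[X] := by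
  rintro _ ⟨q, i, hq, rfl⟩
  apply mem_nonZeroDivisors_of_ne_zero
  exact mul_ne_zero ((Polynomial.map_ne_zero_iff (algebraMap k₀ F₀).injective).mpr hq)
    (pow_ne_zero _ hD)

end

section

variable {F₀ F : Type*} [Field F₀] [Field F] {v : Valuation F ℤᵐ⁰}

/-- The map from a field of constants to the residue field. -/
def resHom (ι : F₀ →+* F) (hι : ∀ x, v (ι x) ≤ 1) :
    F₀ →+* IsLocalRing.ResidueField v.valuationSubring :=
  (IsLocalRing.residue v.valuationSubring).comp
    (ι.codRestrict v.valuationSubring.toSubring hι)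

end

end Pool.Agent.H28G
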