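import Mathlib
import Pool.Agent.H28G.Defs

/-!
# Constant classes at a place where the twist ramifies
-/

open Polynomial

noncomputable section

open scoped Classical WithZero

namespace Pool.Agent.H28G

open Pool.Agent.MP1bdb59C

/-- PROOF. This is `const_of_locCond` (GenLoc.lean) over the valuation ring: copy its proof from
`twisted_norm` on, without the final pull back along `σ` (there `c₁` is the constant class,
`hc₁` says that its reduction is not zero; the conclusion is the equation `key` in the residue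
field extension). -/
theorem const_of_locCond' {F : Type*} [Field F] {v : Valuation F ℤᵐ⁰}
    [IsDiscreteValuationRing v.valuationSubring] {π : v.valuationSubring} (hπ : Irreducible π)
    {ℓ : ℕ} [hp : Fact ℓ.Prime] {fR : (v.valuationSubring)[X]} (hf : fR.Monic)
    (hgood : Good ℓ (fR.map (IsLocalRing.residue v.valuationSubring)))
    (hirr : Irreducible (fR.map (IsLocalRing.residue v.valuationSubring)))
    {ζ : v.valuationSubring} {ζF : F} (hζF : IsPrimitiveRoot ζF ℓ)
    (hζζ : ζF = algebraMap v.valuationSubring F ζ)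
    (hζ' : IsPrimitiveRoot (IsLocalRing.residue v.valuationSubring ζ) ℓ)
    {j : ℕ} (hj : ¬ ℓ ∣ j) {f' : F[X]} (hf' : fR.map (algebraMap v.valuationSubring F) = f')
    {g : F[X]} [hg : Good ℓ g] {c : F} (hc : algebraMap v.valuationSubring F (π ^ j) = c)
    (hgf : g = f'.scaleRoots c)
    (𝔞 : Ideal (CoordRing ℓ g)) (a : F[X]) (hs : ∃ s ∈ 𝔞, red g s = 1)
    (hN : nrm (tauI hζF) ℓ 𝔞 = Ideal.span {of g a})
    (m : AdjoinRoot g) (hm : AdjoinRoot.mk g a * m = 1)
    (c₁ : AdjoinRoot fR)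
    (hc₁ : lamMap (IsLocalRing.residue v.valuationSubring)
      (rfl : fR.map (IsLocalRing.residue v.valuationSubring) = _) c₁ ≠ 0)
    (κ : F) (Z : AdjoinRoot f')
    (hmc : scMap hgf m =
      AdjoinRoot.of _ κ * lamMap (algebraMap v.valuationSubring F) hf' c₁ * Z ^ ℓ) :
    ∃ (e : IsLocalRing.ResidueField v.valuationSubring)
      (b : AdjoinRoot (fR.map (IsLocalRing.residue v.valuationSubring))),
      lamMap (IsLocalRing.residue v.valuationSubring)
        (rfl : fR.map (IsLocalRing.residue v.valuationSubring) = _) c₁ =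
        AdjoinRoot.of _ e * b ^ ℓ := by
  have hℓ := hp.out
  subst hζζ
  let res := IsLocalRing.residue v.valuationSubring
  have hgf' : g = (fR.scaleRoots (π ^ j)).map (algebraMap v.valuationSubring F) := by
    rw [map_scaleRoots _ _ _ (by rw [hf.leadingCoeff, map_one]; exact one_ne_zero), hf', hc, hgf]
  obtain ⟨c', q, e, b, hc', he, hb, hdvd, hq⟩ := twisted_norm hπ hf hirr hζF hζ' hj
    hgf' 𝔞 a hs hN
  -- transport to `F[x]/(f)`
  have hfield := Fact.mk hirr
  have h1 : scMap hgf (AdjoinRoot.mk g a) =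
      AdjoinRoot.of _ c' * AdjoinRoot.mk f' (q.map (algebraMap v.valuationSubring F)) := by
    rw [scMap_mk, ← AdjoinRoot.mk_C, ← map_mul, AdjoinRoot.mk_eq_mk]
    rw [hf', hc] at hdvd
    exact hdvd
  have h2 : AdjoinRoot.of f' c' *
      AdjoinRoot.mk f' (q.map (algebraMap v.valuationSubring F)) *
      (AdjoinRoot.of _ κ * lamMap (algebraMap v.valuationSubring F) hf' c₁ * Z ^ ℓ) = 1 := by
    rw [← h1, ← hmc, ← map_mul, hm, map_one]
  have hfm' : f'.Monic := by
    rw [← hf']
    exact hf.map _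
  have hnt : (1 : AdjoinRoot f') ≠ 0 := by
    intro h0
    have h3 := of_inj' (f := f') hfm' (by
      rw [← hf', hf.natDegree_map, ← hf.natDegree_map (IsLocalRing.residue v.valuationSubring)]
      intro h4
      exact hgood.cop (by rw [h4]; exact dvd_zero ℓ))
    have h4 : AdjoinRoot.of f' (1 : F) = AdjoinRoot.of f' 0 := by
      rw [map_one, map_zero, h0]
    exact one_ne_zero (h3 h4)
  have hZ : Z ≠ 0 := by
    rintro rfl
    rw [zero_pow hℓ.ne_zero, mul_zero, mul_zero] at h2
    exact hnt h2.symm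
  obtain ⟨γ, Z₀, hγ, hZγ, hZ₀⟩ := exists_unit_part hf hf' rfl Z hZ
  have hlinj : Function.Injective (lamMap (algebraMap v.valuationSubring F) hf') :=
    lamMap_inj hf' hf
  -- the unit `Y`
  set Y : AdjoinRoot fR := AdjoinRoot.mk fR q * c₁ * Z₀ ^ ℓ with hY
  set δ : F := c' * κ * γ ^ ℓ with hδ
  have hYF : lamMap (algebraMap v.valuationSubring F) hf' Y =
      AdjoinRoot.mk f' (q.map (algebraMap v.valuationSubring F)) *
        lamMap (algebraMap v.valuationSubring F) hf' c₁ *
        (lamMap (algebraMap v.valuationSubring F) hf' Z₀) ^ ℓ := by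
    rw [hY, map_mul (lamMap (algebraMap v.valuationSubring F) hf'),
      map_mul (lamMap (algebraMap v.valuationSubring F) hf'),
      map_pow (lamMap (algebraMap v.valuationSubring F) hf'), lamMap_mk]
  have hδF : AdjoinRoot.of f' δ = AdjoinRoot.of f' c' * AdjoinRoot.of f' κ *
      (AdjoinRoot.of f' γ) ^ ℓ := by
    rw [hδ, map_mul (AdjoinRoot.of f'), map_mul (AdjoinRoot.of f'),
      map_pow (AdjoinRoot.of f')]
  have hδY : AdjoinRoot.of f' δ * lamMap (algebraMap v.valuationSubring F) hf' Y = 1 := by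
    rw [hYF, hδF, ← h2, hZγ]
    ring
  have hYR : lamMap res rfl Y = AdjoinRoot.of _ e * b ^ ℓ * lamMap res rfl c₁ *
      (lamMap res rfl Z₀) ^ ℓ := by
    rw [hY, map_mul, map_mul, map_pow, lamMap_mk, hq]
  have hYR0 : lamMap res rfl Y ≠ 0 := by
    rw [hYR]
    refine mul_ne_zero (mul_ne_zero (mul_ne_zero ?_ (pow_ne_zero _ hb)) hc₁) (pow_ne_zero _ hZ₀)
    rwa [Ne, map_eq_zero]
  have hδ0 : δ ≠ 0 := by
    rintro h0
    rw [h0, map_zero, zero_mul] at hδY
    exact hnt hδY.symm
  have hd : ∃ d : IsLocalRing.ResidueField v.valuationSubring, lamMap res rfl Y =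
      AdjoinRoot.of (fR.map res) d := by
    by_cases hv : v δ ≤ 1
    · have h3 : AdjoinRoot.of fR (⟨δ, hv⟩ : v.valuationSubring) * Y = 1 := by
        apply hlinj
        rw [map_mul, lamMap_of', map_one]
        exact hδY
      have h4 := congrArg (lamMap res (rfl : fR.map res = _)) h3
      rw [map_mul, lamMap_of', map_one] at h4
      refine ⟨(res ⟨δ, hv⟩)⁻¹, ?_⟩
      rw [map_inv₀]
      exact eq_inv_of_mul_eq_one_right h4
    · have hv' : v δ⁻¹ ≤ 1 := by
        rw [map_inv₀]
        exact inv_le_one_of_one_le₀ (not_le.mp hv).le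
      have h3 : Y = AdjoinRoot.of fR (⟨δ⁻¹, hv'⟩ : v.valuationSubring) := by
        apply hlinj
        rw [lamMap_of']
        have h4 : AdjoinRoot.of f' δ * AdjoinRoot.of f' δ⁻¹ = 1 := by
          rw [← map_mul, mul_inv_cancel₀ hδ0, map_one]
        calc lamMap (algebraMap v.valuationSubring F) hf' Y =
            (AdjoinRoot.of f' δ * AdjoinRoot.of f' δ⁻¹) *
              lamMap (algebraMap v.valuationSubring F) hf' Y := by rw [h4, one_mul]
          _ = (AdjoinRoot.of f' δ * lamMap (algebraMap v.valuationSubring F) hf' Y) *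
              AdjoinRoot.of f' δ⁻¹ := by ring
          _ = _ := by rw [hδY, one_mul]; rfl
      exact ⟨res ⟨δ⁻¹, hv'⟩, by rw [h3, lamMap_of']⟩
  obtain ⟨d, hd⟩ := hd
  refine ⟨d / e, (b * lamMap res rfl Z₀)⁻¹, ?_⟩
  have hoe : AdjoinRoot.of (fR.map res) e ≠ 0 := by rwa [Ne, map_eq_zero]
  rw [hd] at hYR
  have key : ∀ (E B W U D : AdjoinRoot (fR.map res)), E ≠ 0 → B ≠ 0 → W ≠ 0 →
      D = E * B ^ ℓ * U * W ^ ℓ → U = D / E * ((B * W)⁻¹) ^ ℓ := by
    intro E B W U D hE hB hW hD
    have hB' : B ^ ℓ ≠ 0 := pow_ne_zero _ hB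
    have hW' : W ^ ℓ ≠ 0 := pow_ne_zero _ hW
    rw [hD, inv_pow, mul_pow, mul_inv, div_eq_mul_inv]
    calc U = U * (E * E⁻¹) * (B ^ ℓ * (B ^ ℓ)⁻¹) * (W ^ ℓ * (W ^ ℓ)⁻¹) := by
          rw [mul_inv_cancel₀ hE, mul_inv_cancel₀ hB', mul_inv_cancel₀ hW', mul_one, mul_one,
            mul_one]
      _ = _ := by ring
  rw [map_div₀]
  exact key _ _ _ _ _ hoe hb hZ₀ hYR

end Pool.Agent.H28G
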