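import Mathlib
import Pool.Agent.H28G.Loc

/-!
# Constant classes at a place where the twist ramifies, II
-/

open Polynomial

noncomputable section

open scoped Classical WithZero

namespace Pool.Agent.H28G

open Pool.Agent.MP1bdb59C

/-- PROOF. Apply `const_of_locCond'` with `fR = (f.map ιR).scaleRoots ε`, `π = ϖ`: as
`(f.map ι).scaleRoots (ϖ^j ε) = ((f.map ι).scaleRoots ε).scaleRoots (ϖ^j)` (`scaleRoots_mul`), and
the isomorphisms `scEquiv` for the unit `ε` over `F`, over the valuation ring and over the residue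
field are compatible (`lamMap_scMap`). `c₁` = the image of `c₀` in `AdjoinRoot fR` under
`lamMap ιR` and the inverse of `scEquiv`. Good and irreducible for `fR.map residue`: it is
`(f.map (resHom ι hι)).scaleRoots ε̄`; the rings `AdjoinRoot` are isomorphic (`scEquiv`), so it is a
field and the polynomial is irreducible; separable by `separable_scaleRoots` (Gen.lean). -/
theorem const_of_locCond_twist {F₀ F : Type*} [Field F₀] [Field F] {v : Valuation F ℤᵐ⁰}
    [IsDiscreteValuationRing v.valuationSubring] (ι : F₀ →+* F) (hι : ∀ x, v (ι x) ≤ 1) {ϖ : F}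
    (hϖ : v ϖ = WithZero.exp (-1 : ℤ)) {ε : F} (hε : v ε = 1) {ℓ : ℕ} [hp : Fact ℓ.Prime]
    {f : F₀[X]} (hf : f.Monic) (hsep : f.Separable) (hcop : ¬ ℓ ∣ f.natDegree)
    (hirr : Irreducible (f.map (resHom ι hι))) {ζ : F₀} (hζ : IsPrimitiveRoot ζ ℓ)
    {j : ℕ} (hj : ¬ ℓ ∣ j) {g : F[X]} [hg : Good ℓ g] {d : F} (hd : d = ϖ ^ j * ε)
    (hgf : g = (f.map ι).scaleRoots d)
    (𝔞 : Ideal (CoordRing ℓ g)) (a : F[X]) (hs : ∃ s ∈ 𝔞, red g s = 1)
    {ζF : F} (hζF : IsPrimitiveRoot ζF ℓ) (hζζ : ζF = ι ζ)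
    (hN : nrm (tauI hζF) ℓ 𝔞 = Ideal.span {of g a})
    (m : AdjoinRoot g) (hm : AdjoinRoot.mk g a * m = 1)
    (c₀ : AdjoinRoot f) (hc₀ : lamMap (resHom ι hι) (rfl : f.map (resHom ι hι) = _) c₀ ≠ 0)
    (κ : F) (Z : AdjoinRoot (f.map ι))
    (hmc : scMap hgf m = AdjoinRoot.of _ κ * lamMap ι rfl c₀ * Z ^ ℓ) :
    ∃ (e : IsLocalRing.ResidueField v.valuationSubring) (b : AdjoinRoot (f.map (resHom ι hι))),
      lamMap (resHom ι hι) (rfl : f.map (resHom ι hι) = _) c₀ = AdjoinRoot.of _ e * b ^ ℓ := by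
  have hℓ := hp.out
  let ιR : F₀ →+* v.valuationSubring := ι.codRestrict v.valuationSubring.toSubring hι
  have hιR : (algebraMap v.valuationSubring F).comp ιR = ι := rfl
  have hϖ1 : v ϖ ≤ 1 := by
    rw [hϖ]
    change WithZero.exp (-1 : ℤ) ≤ WithZero.exp (0 : ℤ)
    rw [WithZero.exp_le_exp]
    norm_num
  set π : v.valuationSubring := ⟨ϖ, hϖ1⟩ with hπ
  have hπirr : Irreducible π := irreducible_of_exp_neg_one hϖ
  let res := IsLocalRing.residue v.valuationSubring
  let σ : F₀ →+* IsLocalRing.ResidueField v.valuationSubring := resHom ι hι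
  have hσ : res.comp ιR = σ := rfl
  have hε0 : ε ≠ 0 := by
    rintro rfl
    rw [map_zero] at hε
    exact zero_ne_one hε
  have hεi : v ε⁻¹ ≤ 1 := by rw [map_inv₀, hε, inv_one]
  let εR : v.valuationSubring := ⟨ε, hε.le⟩
  let ηR : v.valuationSubring := ⟨ε⁻¹, hεi⟩
  have hεη : εR * ηR = 1 := Subtype.ext (mul_inv_cancel₀ hε0)
  have hεηF : ε * ε⁻¹ = 1 := mul_inv_cancel₀ hε0
  have hεηk : res εR * res ηR = 1 := by rw [← map_mul, hεη, map_one]
  have hεk0 : res εR ≠ 0 := left_ne_zero_of_mul_eq_one hεηk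
  -- polynomials
  set fι : (v.valuationSubring)[X] := f.map ιR with hfι
  have hfιm : fι.Monic := hf.map _
  set fR : (v.valuationSubring)[X] := fι.scaleRoots εR with hfR
  have hfRm : fR.Monic := (monic_scaleRoots_iff εR).mpr hfιm
  have hfιF : fι.map (algebraMap v.valuationSubring F) = f.map ι := by
    rw [hfι, Polynomial.map_map, hιR]
  have hfιk : fι.map res = f.map σ := by
    rw [hfι, Polynomial.map_map, hσ]
  have hfRF : fR.map (algebraMap v.valuationSubring F) = (f.map ι).scaleRoots ε := by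
    rw [hfR, map_scaleRoots _ _ _ (by rw [hfιm.leadingCoeff, map_one]; exact one_ne_zero), hfιF]
    rfl
  have hfRk : fR.map res = (f.map σ).scaleRoots (res εR) := by
    rw [hfR, map_scaleRoots _ _ _ (by rw [hfιm.leadingCoeff, map_one]; exact one_ne_zero), hfιk]
  -- the isomorphisms
  let eR : AdjoinRoot fR ≃+* AdjoinRoot fι := scEquiv hfR hεη
  let eF : AdjoinRoot ((f.map ι).scaleRoots ε) ≃+* AdjoinRoot (f.map ι) := scEquiv rfl hεηF
  let ek : AdjoinRoot (fR.map res) ≃+* AdjoinRoot (f.map σ) := scEquiv hfRk hεηk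
  have hfield := Fact.mk hirr
  have hirr' : Irreducible (fR.map res) := by
    have h1 : IsDomain (AdjoinRoot (fR.map res)) := ek.toMulEquiv.isDomain _
    have h2 := (Ideal.Quotient.isDomain_iff_prime (Ideal.span {fR.map res})).mp h1
    have h0 : fR.map res ≠ 0 := (hfRm.map res).ne_zero
    exact ((Ideal.span_singleton_prime h0).mp h2).irreducible
  have hgood : Good ℓ (fR.map res) := by
    refine ⟨hfRm.map _, ?_, ?_⟩
    · rw [hfRk]
      rw [hfRk] at hirr'
      exact separable_scaleRoots hsep.map hεk0 hirr hirr'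
    · rw [hfRk, natDegree_scaleRoots, natDegree_map]
      exact hcop
  have hζbar : IsPrimitiveRoot (res (ιR ζ)) ℓ := hζ.map_of_injective (f := σ) σ.injective
  have hgf' : g = ((f.map ι).scaleRoots ε).scaleRoots (ϖ ^ j) := by
    rw [← scaleRoots_mul, mul_comm ε, ← hd]
    exact hgf
  have hπj : algebraMap v.valuationSubring F (π ^ j) = ϖ ^ j := by
    rw [map_pow]
    rfl
  -- compatibility of `scMap`
  have hsc : ∀ x : AdjoinRoot g, eF (scMap hgf' x) = scMap hgf x := by
    intro x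
    obtain ⟨p, rfl⟩ := AdjoinRoot.mk_surjective x
    change scMap (rfl : (f.map ι).scaleRoots ε = _) (scMap hgf' (AdjoinRoot.mk g p)) = _
    rw [scMap_mk, scMap_mk, scMap_mk, Polynomial.comp_assoc, hd]
    congr 2
    rw [mul_comp, C_comp, X_comp, C_mul, mul_assoc]
  set c₁ : AdjoinRoot fR := eR.symm (lamMap ιR rfl c₀) with hc₁
  have hec₁ : scMap hfR c₁ = lamMap ιR (rfl : f.map ιR = fι) c₀ := eR.apply_symm_apply _
  have hc₁F : eF (lamMap (algebraMap v.valuationSubring F) hfRF c₁) = lamMap ι rfl c₀ := by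
    change scMap (rfl : (f.map ι).scaleRoots ε = _) _ = _
    rw [← lamMap_scMap (hg := hfR) (algebraMap v.valuationSubring F) hfιF hfRF rfl rfl, hec₁]
    exact lamMap_comp ιR (algebraMap v.valuationSubring F) rfl hfιF rfl c₀
  have hc₁k : ek (lamMap res rfl c₁) = lamMap σ rfl c₀ := by
    change scMap hfRk _ = _
    rw [← lamMap_scMap (hg := hfR) res hfιk rfl hfRk rfl, hec₁]
    exact lamMap_comp ιR res rfl hfιk rfl c₀
  have hmc' : scMap hgf' m = AdjoinRoot.of _ κ *
      lamMap (algebraMap v.valuationSubring F) hfRF c₁ * (eF.symm Z) ^ ℓ := by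
    apply eF.injective
    rw [hsc, hmc, map_mul eF, map_mul eF, map_pow eF, hc₁F, eF.apply_symm_apply]
    congr 2
    exact (scMap_of (rfl : (f.map ι).scaleRoots ε = _) κ).symm
  have hc₁0 : lamMap res (rfl : fR.map res = _) c₁ ≠ 0 := by
    intro h0
    apply hc₀
    rw [h0, map_zero] at hc₁k
    exact hc₁k.symm
  obtain ⟨e, b, heb⟩ := const_of_locCond' hπirr hfRm hgood hirr' hζF (ζ := ιR ζ) hζζ hζbar hj
    hfRF hπj hgf' 𝔞 a hs hN m hm c₁ hc₁0 κ (eF.symm Z) hmc'
  refine ⟨e, ek b, ?_⟩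
  rw [← hc₁k, heb, map_mul ek, map_pow ek]
  congr 1
  exact scMap_of hfRk e

end Pool.Agent.H28G
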