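import Mathlib
import Pool.Agent.H28G.Defs

/-!
# The place of a prime polynomial
-/

open Polynomial IsDedekindDomain

noncomputable section

open scoped Classical WithZero

namespace Pool.Agent.H28G

open Pool.Agent.MP1bdb59 (Place Completion)
open Pool.Agent.MP1bdb59C

variable {k₀ F₀ k K : Type*} [Field k₀] [Field F₀] [Algebra k₀ F₀] [Field k] [Field K]
  [Algebra k₀[X] k] [IsFractionRing k₀[X] k] [Algebra F₀[X] K] [IsFractionRing F₀[X] K]
  [Algebra k K]

/-- The height one prime of `F₀[s]` generated by `P`. -/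
private def pPrime {P : F₀[X]} (hP : Irreducible P) : HeightOneSpectrum F₀[X] where
  asIdeal := Ideal.span {P}
  isPrime := (Ideal.span_singleton_prime hP.ne_zero).mpr hP.prime
  ne_bot := by
    rw [Ne, Ideal.span_singleton_eq_bot]
    exact hP.ne_zero

omit [Algebra k₀ F₀] in
private lemma pPrime_eq_one {P : F₀[X]} (hP : Irreducible P) (q : F₀[X]) (hq : ¬ P ∣ q) :
    (pPrime hP).valuation K (algebraMap F₀[X] K q) = 1 := by
  apply le_antisymm ((pPrime hP).valuation_le_one q)
  by_contra hcon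
  have h1 := not_le.mp hcon
  rw [HeightOneSpectrum.valuation_lt_one_iff_mem] at h1
  change q ∈ Ideal.span {P} at h1
  rw [Ideal.mem_span_singleton] at h1
  exact hq h1

private lemma pPrime_uniformizer {P : F₀[X]} (hP : Irreducible P) :
    (pPrime hP).valuation K (algebraMap F₀[X] K P) = WithZero.exp (-1 : ℤ) := by
  rw [HeightOneSpectrum.valuation_of_algebraMap]
  exact HeightOneSpectrum.intValuation_singleton _ hP.ne_zero rfl

private lemma pPrime_le_one
    (hcomp : ∀ q : k₀[X], algebraMap k K (algebraMap k₀[X] k q) =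
      algebraMap F₀[X] K (q.map (algebraMap k₀ F₀))) {P : F₀[X]} (hP : Irreducible P)
    (hPk : ∀ q : k₀[X], q ≠ 0 → ¬ P ∣ q.map (algebraMap k₀ F₀)) (c : k) :
    (pPrime hP).valuation K (algebraMap k K c) ≤ 1 := by
  obtain ⟨q₁, q₂, hq₂, rfl⟩ := IsFractionRing.div_surjective k₀[X] c
  have h0 : q₂ ≠ 0 := nonZeroDivisors.ne_zero hq₂
  rw [map_div₀, hcomp, hcomp, map_div₀]
  have h1 : (pPrime hP).valuation K (algebraMap F₀[X] K (q₂.map (algebraMap k₀ F₀))) = 1 :=
    pPrime_eq_one hP _ (hPk q₂ h0)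
  rw [h1, div_one]
  exact (pPrime hP).valuation_le_one _

/-- PROOF. As `exists_completion_h` (GenPlace.lean), with the prime `(P)` in place of `(s - h)`:
`intValuation_singleton`, `exists_dvr`, `exists_valuation_sub_lt_of_integer`. -/
theorem exists_completion_P
    (hcomp : ∀ q : k₀[X], algebraMap k K (algebraMap k₀[X] k q) =
      algebraMap F₀[X] K (q.map (algebraMap k₀ F₀))) {P : F₀[X]} (hP : Irreducible P)
    (hPk : ∀ q : k₀[X], q ≠ 0 → ¬ P ∣ q.map (algebraMap k₀ F₀)) :
    ∃ (v : Place k K) (vF : Valuation (Completion v) ℤᵐ⁰),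
      IsDiscreteValuationRing vF.valuationSubring ∧
      vF (algebraMap K (Completion v) (algebraMap F₀[X] K P)) = WithZero.exp (-1 : ℤ) ∧
      (∀ q : F₀[X], vF (algebraMap K (Completion v) (algebraMap F₀[X] K q)) ≤ 1) ∧
      (∀ q : F₀[X], ¬ P ∣ q → vF (algebraMap K (Completion v) (algebraMap F₀[X] K q)) = 1) ∧
      (∀ r : Completion v, vF r ≤ 1 → ∃ q : F₀[X],
        vF (r - algebraMap K (Completion v) (algebraMap F₀[X] K q)) < 1) := by
  refine ⟨placeOfLe (pPrime hP) (pPrime_le_one hcomp hP hPk), ?_⟩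
  obtain ⟨vF, h1, h2, h3⟩ := exists_dvr (k := k) (K := K) (pPrime hP)
    (placeOfLe (pPrime hP) (pPrime_le_one hcomp hP hPk)) rfl
  refine ⟨vF, h3, ?_, fun q => ?_, fun q hq => ?_, fun r hr => ?_⟩
  · rw [h1, pPrime_uniformizer]
  · rw [h1]
    exact (pPrime hP).valuation_le_one _
  · rw [h1]
    exact pPrime_eq_one hP q hq
  · obtain ⟨x, hx⟩ := h2 r 1 one_ne_zero
    rw [map_one] at hx
    have h4 : (pPrime hP).valuation K x ≤ 1 := by
      rw [← h1]
      have h5 : algebraMap K (Completion (placeOfLe (pPrime hP)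
          (pPrime_le_one hcomp hP hPk))) x =
          (algebraMap K (Completion (placeOfLe (pPrime hP)
            (pPrime_le_one hcomp hP hPk))) x - r) + r := by ring
      rw [h5]
      exact Valuation.map_add_le _ hx.le hr
    obtain ⟨c, hc⟩ := (pPrime hP).exists_valuation_sub_lt_of_integer h4 1
    refine ⟨c, ?_⟩
    rw [← h1, map_sub] at hc
    have h6 : r - algebraMap K (Completion (placeOfLe (pPrime hP)
          (pPrime_le_one hcomp hP hPk))) (algebraMap F₀[X] K c) =
        -((algebraMap K _ x - r) + (algebraMap K _ (algebraMap F₀[X] K c) -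
          algebraMap K _ x)) := by ring
    rw [h6, Valuation.map_neg]
    exact Valuation.map_add_lt _ hx hc

/-- PROOF. `F₀[s] → ` residue field is surjective by `hres`, with kernel `(P)` (maximal ideal, the
kernel contains `P`). `AdjoinRoot.lift` and `RingEquiv.ofBijective`. -/
theorem exists_residue_equiv {F : Type*} [Field F] {v : Valuation F ℤᵐ⁰} (θ : F₀[X] →+* F)
    (hθ : ∀ q, v (θ q) ≤ 1) {P : F₀[X]} (hP : Irreducible P) (hP1 : v (θ P) < 1)
    (hres : ∀ r : F, v r ≤ 1 → ∃ q : F₀[X], v (r - θ q) < 1) :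
    ∃ φ : AdjoinRoot P ≃+* IsLocalRing.ResidueField v.valuationSubring,
      ∀ x : F₀, φ (AdjoinRoot.of P x) = resHom (θ.comp C) (fun x => hθ (C x)) x := by
  have : Fact (Irreducible P) := ⟨hP⟩
  let θR : F₀[X] →+* v.valuationSubring := θ.codRestrict v.valuationSubring.toSubring hθ
  let ψ : F₀[X] →+* IsLocalRing.ResidueField v.valuationSubring :=
    (IsLocalRing.residue v.valuationSubring).comp θR
  have hPz : ψ P = 0 := by
    change IsLocalRing.residue v.valuationSubring (θR P) = 0
    rw [IsLocalRing.residue_eq_zero_iff, IsLocalRing.mem_maximalIdeal, mem_nonunits_iff,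
      isUnit_iff_val_eq_one]
    intro h3
    exact hP1.ne h3
  have hsurj : Function.Surjective ψ := by
    intro y
    obtain ⟨r, rfl⟩ := IsLocalRing.residue_surjective y
    obtain ⟨x, hx⟩ := hres r r.2
    refine ⟨x, ?_⟩
    change IsLocalRing.residue v.valuationSubring (θR x) =
      IsLocalRing.residue v.valuationSubring r
    rw [← sub_eq_zero, ← map_sub]
    rw [IsLocalRing.residue_eq_zero_iff, IsLocalRing.mem_maximalIdeal, mem_nonunits_iff,
      isUnit_iff_val_eq_one]
    intro h1
    have h2 : v ((θR x - r : v.valuationSubring) : F) = v (r - θ x) := by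
      rw [← Valuation.map_neg]
      congr 1
      change -(θ x - (r : F)) = _
      ring
    rw [h2] at h1
    rw [h1] at hx
    exact lt_irrefl _ hx
  have heval : ∀ q : F₀[X], q.eval₂ (ψ.comp C) (ψ X) = ψ q := by
    intro q
    rw [← Polynomial.hom_eval₂, Polynomial.eval₂_C_X]
  have hP2 : P.eval₂ (ψ.comp C) (ψ X) = 0 := by rw [heval, hPz]
  let L : AdjoinRoot P →+* IsLocalRing.ResidueField v.valuationSubring :=
    AdjoinRoot.lift (ψ.comp C) (ψ X) hP2
  have hL : Function.Bijective L := by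
    refine ⟨L.injective, fun y => ?_⟩
    obtain ⟨q, hq⟩ := hsurj y
    refine ⟨AdjoinRoot.mk P q, ?_⟩
    change AdjoinRoot.lift (ψ.comp C) (ψ X) hP2 (AdjoinRoot.mk P q) = y
    rw [AdjoinRoot.lift_mk, heval, hq]
  refine ⟨RingEquiv.ofBijective L hL, fun x => ?_⟩
  change AdjoinRoot.lift (ψ.comp C) (ψ X) hP2 (AdjoinRoot.of P x) = _
  rw [AdjoinRoot.lift_of]
  rfl

end Pool.Agent.H28G
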