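import Mathlib
import Pool.Agent.H28G.LocT
import Pool.Agent.H28G.Plc
import Pool.Agent.H28G.Inj

/-!
# The constant class at the prime `P`
-/

open Polynomial IsDedekindDomain

noncomputable section

open scoped Classical WithZero

namespace Pool.Agent.H28G

open Pool.Agent.MP1bdb59 (Place Completion)
open Pool.Agent.MP1bdb59C

universe u v

variable {k₀ F₀ : Type*} {k : Type u} {K : Type v} [Field k₀] [Field F₀] [Algebra k₀ F₀]
  [Field k] [Field K] [Algebra k₀[X] k] [IsFractionRing k₀[X] k] [Algebra F₀[X] K]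
  [IsFractionRing F₀[X] K] [Algebra k K] {ℓ : ℕ} [hp : Fact ℓ.Prime]

/-- PROOF. See the end of `selmer_generic` (Gen.lean) for the transport of `hm2` to the completion
(`hmF` there). `v, vF` by `exists_completion_P`; with `θ = (algebraMap K (Completion v)).comp
(algebraMap F₀[X] K)` the residue field is `F₀[s]/(P)` by `exists_residue_equiv`; `f` is irreducible
over it by `irreducible_swap` and `hPL`; `d = P^j (u D')`, with `vF (u D') = 1` as `P ∤ D'` and `u` is
a quotient of two polynomials in `k₀[s]` not divisible by `P` (`hcomp`).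
`const_of_locCond_twist` gives `c₀ = e b^ℓ` over the residue field, so (transport along the
isomorphism) over `AdjoinRoot P`, and `InjP` ends the proof. -/
theorem const_at_P
    (hcomp : ∀ q : k₀[X], algebraMap k K (algebraMap k₀[X] k q) =
      algebraMap F₀[X] K (q.map (algebraMap k₀ F₀)))
    {f : F₀[X]} (hf : f.Monic) (hirr : Irreducible f) (hsep : f.Separable)
    (hcop : ¬ ℓ ∣ f.natDegree) {P : F₀[X]} (hP : Irreducible P)
    (hPL : Irreducible (P.map (AdjoinRoot.of f)))
    (hPk : ∀ q : k₀[X], q ≠ 0 → ¬ P ∣ q.map (algebraMap k₀ F₀)) (hI : InjP ℓ f P)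
    {j : ℕ} (hj : ¬ ℓ ∣ j) {D' : F₀[X]} (hD' : ¬ P ∣ D') {w : k} (hw : w ≠ 0) {d : K}
    (hd : d = algebraMap k K w * algebraMap F₀[X] K (P ^ j * D'))
    {ζ : F₀} (hζ : IsPrimitiveRoot ζ ℓ) {ζK : K} (hζK : IsPrimitiveRoot ζK ℓ)
    (hζζ : ζK = algebraMap F₀[X] K (C ζ))
    {g : K[X]} [hgood : Good ℓ g]
    (hg : g = (f.map ((algebraMap F₀[X] K).comp C)).scaleRoots d)
    (m : AdjoinRoot g) (hloc : ∀ v : Place k K, LocCond hζK (Completion v) m)
    {c₀ : AdjoinRoot f} (hc₀ : c₀ ≠ 0) {κ : K}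
    {Z : AdjoinRoot (f.map ((algebraMap F₀[X] K).comp C))}
    (hm : scMap hg m = AdjoinRoot.of _ κ * lamMap ((algebraMap F₀[X] K).comp C) rfl c₀ * Z ^ ℓ) :
    ∃ (e₀ : F₀) (b₀ : AdjoinRoot f), c₀ = AdjoinRoot.of f e₀ * b₀ ^ ℓ := by
  have hℓ' := hp.out
  obtain ⟨v, vF, h1, h2, h3, h4, h5⟩ := exists_completion_P (k := k) (K := K) hcomp hP hPk
  obtain ⟨𝔞, a', hs, hN, hm'⟩ := hloc v
  set θ : F₀[X] →+* Completion v :=
    (algebraMap K (Completion v)).comp (algebraMap F₀[X] K) with hθ
  obtain ⟨ιF, hιF⟩ : ∃ ιF : F₀ →+* Completion v,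
      (algebraMap K (Completion v)).comp ((algebraMap F₀[X] K).comp C) = ιF := ⟨_, rfl⟩
  have hι' : ∀ x, vF (ιF x) ≤ 1 := fun x => by
    rw [← hιF]
    exact h3 (C x)
  have hgF : g.map (algebraMap K (Completion v)) =
      (f.map ιF).scaleRoots (algebraMap K (Completion v) d) := by
    rw [hg, map_scaleRoots _ _ _ (by
      rw [(hf.map _).leadingCoeff, map_one]; exact one_ne_zero), Polynomial.map_map, hιF]
  have hgoodF : Good ℓ (g.map (algebraMap K (Completion v))) :=
    ⟨hgood.monic.map _, hgood.sep.map, by rw [natDegree_map]; exact hgood.cop⟩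
  have hmF : scMap hgF (lamMap (algebraMap K (Completion v)) rfl m) =
      AdjoinRoot.of _ (algebraMap K (Completion v) κ) * lamMap ιF rfl c₀ *
        (lamMap (algebraMap K (Completion v)) (by rw [Polynomial.map_map, hιF]) Z) ^ ℓ := by
    subst hιF
    rw [← lamMap_scMap hg (algebraMap K (Completion v)) (by rw [Polynomial.map_map]) rfl hgF rfl,
      hm, map_mul (lamMap (algebraMap K (Completion v)) _),
      map_mul (lamMap (algebraMap K (Completion v)) _),
      map_pow (lamMap (algebraMap K (Completion v)) _), lamMap_of',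
      lamMap_comp ((algebraMap F₀[X] K).comp C) (algebraMap K (Completion v)) rfl _ rfl]
  -- the residue field
  obtain ⟨φ, hφ⟩ := exists_residue_equiv θ h3 hP (by
    change vF (algebraMap K (Completion v) (algebraMap F₀[X] K P)) < 1
    rw [h2]
    change WithZero.exp (-1 : ℤ) < WithZero.exp (0 : ℤ)
    rw [WithZero.exp_lt_exp]
    norm_num) h5
  have hφ' : ((φ : AdjoinRoot P →+* IsLocalRing.ResidueField vF.valuationSubring).comp
      (AdjoinRoot.of P)) = resHom ιF hι' := by
    subst hιF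
    ext x
    exact hφ x
  have hφ'' : ((φ.symm : IsLocalRing.ResidueField vF.valuationSubring →+* AdjoinRoot P).comp
      (resHom ιF hι')) = AdjoinRoot.of P := by
    rw [← hφ']
    ext x
    simp
  have hirrP := irreducible_swap hf hirr hP hPL
  have hirrR : Irreducible (f.map (resHom ιF hι')) := by
    rw [← hφ', ← Polynomial.map_map]
    exact (MulEquiv.irreducible_iff (Polynomial.mapEquiv φ)).mpr hirrP
  have f1 := Fact.mk hirr
  have f2 := Fact.mk hirrR
  have f3 := Fact.mk hP
  have hc₀' : lamMap (resHom ιF hι') (rfl : f.map (resHom ιF hι') = _) c₀ ≠ 0 := by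
    rw [Ne, map_eq_zero]
    exact hc₀
  -- the unit
  have hvw : vF (algebraMap K (Completion v) (algebraMap k K w)) = 1 := by
    obtain ⟨q₁, q₂, hq₂, hw'⟩ := IsFractionRing.div_surjective k₀[X] w
    have h0 : q₂ ≠ 0 := nonZeroDivisors.ne_zero hq₂
    have h0' : q₁ ≠ 0 := by
      rintro rfl
      rw [map_zero, zero_div] at hw'
      exact hw hw'.symm
    rw [← hw', map_div₀, hcomp, hcomp, map_div₀, map_div₀, h4 _ (hPk _ h0), h4 _ (hPk _ h0'),
      div_one]
  have hε : vF (algebraMap K (Completion v) (algebraMap k K w * algebraMap F₀[X] K D')) = 1 := by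
    rw [map_mul, map_mul, hvw, h4 _ hD', one_mul]
  obtain ⟨e, b, heb⟩ := const_of_locCond_twist ιF hι' h2 hε hf hsep hcop hirrR hζ hj
    (d := algebraMap K (Completion v) d) (by
      rw [hd, ← map_pow, ← map_pow, ← map_mul, map_mul (algebraMap F₀[X] K)]
      congr 1
      ring) hgF 𝔞 a' hs (hζK.map_of_injective (algebraMap K (Completion v)).injective)
    (by rw [hζζ, ← hιF]; rfl) hN _ hm' c₀ hc₀' _ _ hmF
  -- transport to `F₀[s]/(P)`
  have hfP : (f.map (resHom ιF hι')).map
      (φ.symm : IsLocalRing.ResidueField vF.valuationSubring →+* AdjoinRoot P) =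
      f.map (AdjoinRoot.of P) := by
    rw [Polynomial.map_map, hφ'']
  have h6 := congrArg (lamMap (φ.symm : IsLocalRing.ResidueField vF.valuationSubring →+*
    AdjoinRoot P) hfP) heb
  rw [map_mul, map_pow, lamMap_of', lamMap_comp (resHom ιF hι') _ rfl hfP (by
    rw [hφ''])] at h6
  have h7 : lamMap (AdjoinRoot.of P) (rfl : f.map (AdjoinRoot.of P) = _)
      c₀ = lamMap ((φ.symm : IsLocalRing.ResidueField vF.valuationSubring →+*
      AdjoinRoot P).comp (resHom ιF hι')) (by rw [hφ'']) c₀ := by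
    obtain ⟨p, rfl⟩ := AdjoinRoot.mk_surjective c₀
    rw [lamMap_mk, lamMap_mk, hφ'']
  rw [← h7] at h6
  exact hI c₀ _ _ hc₀ h6

end Pool.Agent.H28G
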