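import Mathlib
import Pool.Agent.MP1bdb59C.GenRing

/-!
# Decomposition of a polynomial
-/

open Polynomial

noncomputable section

open scoped Classical

namespace Pool.Agent.H28G

open Pool.Agent.MP1bdb59C

/-- PROOF. `UniqueFactorizationMonoid.induction_on_coprime` on `D` (with the zero case excluded by
an implication): unit: `D = C c`; coprime product: multiply the data (for `Q ∣ D₁`, `Q ∣ x` does not
divide `y`, so its multiplicity in `x y` is that in `x`); prime power `Q^i`: if `Q` divides some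
`q.map` then `Q = C c * q'.map` by `exists_of_dvd_map` (GenRing.lean, with `L = F₀`), so
`w = q'^i`; else if `ℓ ∣ i`, `E = Q^(i/ℓ)`; else `D₁ = Q^i` (an irreducible divisor of `Q^i` is
associated to `Q`, `multiplicity Q (Q^i) = i`). -/
theorem exists_decomp {k₀ F₀ : Type*} [Field k₀] [Field F₀] [Algebra k₀ F₀]
    (hreg : ∀ x : F₀, IsAlgebraic k₀ x → x ∈ Set.range (algebraMap k₀ F₀)) (ℓ : ℕ)
    {D : F₀[X]} (hD : D ≠ 0) :
    ∃ (c : F₀) (w : k₀[X]) (D₁ E : F₀[X]), c ≠ 0 ∧ w ≠ 0 ∧ D₁ ≠ 0 ∧ E ≠ 0 ∧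
      D = C c * w.map (algebraMap k₀ F₀) * D₁ * E ^ ℓ ∧
      ∀ Q : F₀[X], Irreducible Q → Q ∣ D₁ →
        (∀ q : k₀[X], q ≠ 0 → ¬ Q ∣ q.map (algebraMap k₀ F₀)) ∧ ¬ ℓ ∣ multiplicity Q D := by
  induction D using UniqueFactorizationMonoid.induction_on_coprime with
  | h0 => exact absurd rfl hD
  | h1 hx =>
    obtain ⟨r, hr, rfl⟩ := Polynomial.isUnit_iff.1 hx
    refine ⟨r, 1, 1, 1, hr.ne_zero, one_ne_zero, one_ne_zero, one_ne_zero, by simp, ?_⟩
    intro Q hQ hQ1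
    exact absurd (isUnit_of_dvd_one hQ1) hQ.not_isUnit
  | @hpr p i hp =>
    by_cases h1 : ∃ q : k₀[X], q ≠ 0 ∧ p ∣ q.map (algebraMap k₀ F₀)
    · obtain ⟨q, hq, hpq⟩ := h1
      obtain ⟨c, q', hc, hq', hpe⟩ := exists_of_dvd_map hreg hq hpq
      refine ⟨c ^ i, q' ^ i, 1, 1, pow_ne_zero _ hc, pow_ne_zero _ hq', one_ne_zero, one_ne_zero,
        ?_, ?_⟩
      · rw [hpe, mul_pow, one_pow, mul_one, mul_one, C_pow, Polynomial.map_pow]
      · intro Q hQ hQ1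
        exact absurd (isUnit_of_dvd_one hQ1) hQ.not_isUnit
    · by_cases h2 : ℓ ∣ i
      · obtain ⟨j, rfl⟩ := h2
        refine ⟨1, 1, 1, p ^ j, one_ne_zero, one_ne_zero, one_ne_zero,
          pow_ne_zero _ hp.ne_zero, ?_, ?_⟩
        · rw [C_1, Polynomial.map_one, one_mul, one_mul, one_mul, ← pow_mul, mul_comm ℓ j]
        · intro Q hQ hQ1
          exact absurd (isUnit_of_dvd_one hQ1) hQ.not_isUnit
      · refine ⟨1, 1, p ^ i, 1, one_ne_zero, one_ne_zero, hD, one_ne_zero, by simp, ?_⟩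
        intro Q hQ hQ1
        have h3 : Q ∣ p := hQ.prime.dvd_of_dvd_pow hQ1
        have h4 : Associated Q p := hQ.associated_of_dvd hp.irreducible h3
        refine ⟨fun q hq hdvd => h1 ⟨q, hq, h4.symm.dvd.trans hdvd⟩, ?_⟩
        rw [multiplicity_eq_of_associated_left h4.symm, multiplicity_pow_self hp.ne_zero hp.not_isUnit]
        exact h2
  | @hcp x y hxy hx hy =>
    have hx0 : x ≠ 0 := left_ne_zero_of_mul hD
    have hy0 : y ≠ 0 := right_ne_zero_of_mul hD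
    obtain ⟨c1, w1, D1, E1, a1, a2, a3, a4, a5, a6⟩ := hx hx0
    obtain ⟨c2, w2, D2, E2, b1, b2, b3, b4, b5, b6⟩ := hy hy0
    refine ⟨c1 * c2, w1 * w2, D1 * D2, E1 * E2, mul_ne_zero a1 b1, mul_ne_zero a2 b2,
      mul_ne_zero a3 b3, mul_ne_zero a4 b4, ?_, ?_⟩
    · rw [C_mul, Polynomial.map_mul, mul_pow]
      conv_lhs => rw [a5, b5]
      ring
    · intro Q hQ hQd
      have hD1x : D1 ∣ x := ⟨C c1 * w1.map (algebraMap k₀ F₀) * E1 ^ ℓ, by rw [a5]; ring⟩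
      have hD2y : D2 ∣ y := ⟨C c2 * w2.map (algebraMap k₀ F₀) * E2 ^ ℓ, by rw [b5]; ring⟩
      have hfin : FiniteMultiplicity Q (x * y) := FiniteMultiplicity.of_not_isUnit hQ.not_isUnit hD
      rcases hQ.prime.dvd_or_dvd hQd with h | h
      · obtain ⟨h1, h2⟩ := a6 Q hQ h
        refine ⟨h1, ?_⟩
        have h3 : ¬ Q ∣ y := fun h4 => hQ.not_isUnit (hxy (h.trans hD1x) h4)
        rw [multiplicity_mul hQ.prime hfin, multiplicity_eq_zero.2 h3, add_zero]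
        exact h2
      · obtain ⟨h1, h2⟩ := b6 Q hQ h
        refine ⟨h1, ?_⟩
        have h3 : ¬ Q ∣ x := fun h4 => hQ.not_isUnit (hxy h4 (h.trans hD2y))
        rw [multiplicity_mul hQ.prime hfin, multiplicity_eq_zero.2 h3, zero_add]
        exact h2

/-- PROOF. `P` does not divide `C c` nor `w.map`, so `v_P(D) = v_P(D₁) + ℓ v_P(E)` (`emultiplicity_mul`
or `multiplicity_mul` for the prime `P`, all finite: `FiniteMultiplicity.of_not_isUnit`). So `ℓ` does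
not divide `v_P(D₁)`, and `FiniteMultiplicity.exists_eq_pow_mul_and_not_dvd`. -/
theorem exists_pow_mul {k₀ F₀ : Type*} [Field k₀] [Field F₀] [Algebra k₀ F₀] {ℓ : ℕ}
    {c : F₀} {w : k₀[X]} {D D₁ E P : F₀[X]} (hc : c ≠ 0) (hw : w ≠ 0) (hD₁ : D₁ ≠ 0) (hE : E ≠ 0)
    (hD : D = C c * w.map (algebraMap k₀ F₀) * D₁ * E ^ ℓ) (hP : Irreducible P)
    (hPk : ∀ q : k₀[X], q ≠ 0 → ¬ P ∣ q.map (algebraMap k₀ F₀)) (hPD : ¬ ℓ ∣ multiplicity P D) :
    ∃ (j : ℕ) (D' : F₀[X]), ¬ ℓ ∣ j ∧ ¬ P ∣ D' ∧ D₁ = P ^ j * D' := by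
  have hPp : Prime P := hP.prime
  have hfin : ∀ {Q : F₀[X]}, Q ≠ 0 → FiniteMultiplicity P Q := fun hQ =>
    FiniteMultiplicity.of_not_isUnit hP.not_isUnit hQ
  have hcw : ¬ P ∣ C c * w.map (algebraMap k₀ F₀) := by
    rw [(isUnit_C.mpr hc.isUnit).dvd_mul_left]
    exact hPk w hw
  have hwm : w.map (algebraMap k₀ F₀) ≠ 0 :=
    (Polynomial.map_ne_zero_iff (algebraMap k₀ F₀).injective).mpr hw
  have h1 : C c * w.map (algebraMap k₀ F₀) ≠ 0 := mul_ne_zero (C_ne_zero.mpr hc) hwm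
  have h2 : C c * w.map (algebraMap k₀ F₀) * D₁ ≠ 0 := mul_ne_zero h1 hD₁
  have h3 : C c * w.map (algebraMap k₀ F₀) * D₁ * E ^ ℓ ≠ 0 := mul_ne_zero h2 (pow_ne_zero _ hE)
  have h4 : multiplicity P D = multiplicity P D₁ + ℓ * multiplicity P E := by
    rw [hD, multiplicity_mul hPp (hfin h3), multiplicity_mul hPp (hfin h2),
      multiplicity_eq_zero.mpr hcw, zero_add, (hfin hE).multiplicity_pow hPp]
  have h5 : ¬ ℓ ∣ multiplicity P D₁ := by
    intro h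
    apply hPD
    rw [h4]
    exact dvd_add h (dvd_mul_right _ _)
  obtain ⟨D', hD', hD''⟩ := (hfin hD₁).exists_eq_pow_mul_and_not_dvd
  exact ⟨_, D', h5, hD'', hD'⟩

end Pool.Agent.H28G
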