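import Mathlib
import Pool.Agent.H28G.Defs

/-!
# Divisors over `L`
-/

open Polynomial

noncomputable section

open scoped Classical

namespace Pool.Agent.H28G

open Pool.Agent.MP1bdb59C

private theorem div14_aux {F₀ L : Type*} [Field F₀] [Field L] [Algebra F₀ L] (E : F₀[X]) :
    E ≠ 0 → (∀ Q : F₀[X], Irreducible Q → Q ∣ E → Irreducible (Q.map (algebraMap F₀ L))) →
    ∀ a : L[X], a ∣ E.map (algebraMap F₀ L) →
      ∃ (c : L) (Q : F₀[X]), c ≠ 0 ∧ Q ∣ E ∧ a = C c * Q.map (algebraMap F₀ L) := by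
  induction E using UniqueFactorizationMonoid.induction_on_prime with
  | h₁ => exact fun h => absurd rfl h
  | h₂ x hx =>
    intro _ _ a ha
    have h1 : IsUnit (x.map (algebraMap F₀ L)) :=
      (Polynomial.mapRingHom (algebraMap F₀ L)).isUnit_map hx
    obtain ⟨c, hc, rfl⟩ := Polynomial.isUnit_iff.1 (isUnit_of_dvd_unit ha h1)
    exact ⟨c, 1, hc.ne_zero, one_dvd _, by simp⟩
  | h₃ b p hb hp ih =>
    intro _ hD a ha
    have hirr : Irreducible (p.map (algebraMap F₀ L)) := hD p hp.irreducible (dvd_mul_right _ _)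
    have ihb := ih hb (fun Q hQ hQb => hD Q hQ (hQb.mul_left _))
    rw [Polynomial.map_mul] at ha
    by_cases hpa : p.map (algebraMap F₀ L) ∣ a
    · obtain ⟨a', rfl⟩ := hpa
      have h1 : a' ∣ b.map (algebraMap F₀ L) := (mul_dvd_mul_iff_left hirr.ne_zero).1 ha
      obtain ⟨c, Q, hc, hQ, rfl⟩ := ihb a' h1
      refine ⟨c, p * Q, hc, mul_dvd_mul_left p hQ, ?_⟩
      rw [Polynomial.map_mul]
      ring
    · have h1 : IsCoprime (p.map (algebraMap F₀ L)) a := hirr.coprime_iff_not_dvd.2 hpa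
      obtain ⟨c, Q, hc, hQ, h2⟩ := ihb a (h1.symm.dvd_of_dvd_mul_left ha)
      exact ⟨c, Q, hc, hQ.mul_left _, h2⟩

/-- PROOF. `a = a₁ a₂` with `a₁ ∣ q`, `a₂ ∣ D^i` (`exists_dvd_and_dvd_of_dvd_mul`, `L[X]` is a
`DecompositionMonoid`); `a₁` by `exists_of_dvd_map` (GenRing.lean). For `a₂`: `D^i` is `C d` times a
product of irreducibles `Q_j` of `F₀[X]` dividing `D` (`UniqueFactorizationMonoid`, or induction
`WfDvdMonoid.induction_on_irreducible`/`UniqueFactorizationMonoid.induction_on_prime` on `E ∣ D^i`: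
claim for all `E ∣ D^i`, all `a₂ ∣ E.map`: `a₂ = C c * Q.map`, `Q ∣ E`), the `Q_j.map` are
irreducible, so a divisor of `Q.map * E.map` is a product of a divisor of `Q.map` (unit or unit
times `Q.map`) and a divisor of `E.map`. -/
theorem exists_of_dvd_map_mul' {k₀ F₀ L : Type*} [Field k₀] [Field F₀] [Field L] [Algebra k₀ F₀]
    [Algebra F₀ L] [Algebra k₀ L]
    (hreg : ∀ x : L, IsAlgebraic k₀ x → x ∈ Set.range (algebraMap k₀ L))
    {D : F₀[X]} (hD0 : D ≠ 0)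
    (hD : ∀ Q : F₀[X], Irreducible Q → Q ∣ D → Irreducible (Q.map (algebraMap F₀ L)))
    {q : k₀[X]} (hq : q ≠ 0) (i : ℕ) {a : L[X]}
    (ha : a ∣ q.map (algebraMap k₀ L) * (D.map (algebraMap F₀ L)) ^ i) :
    ∃ (c : L) (q' : k₀[X]) (Q : F₀[X]), c ≠ 0 ∧ q' ≠ 0 ∧ Q ∣ D ^ i ∧
      a = C c * (q'.map (algebraMap k₀ L) * Q.map (algebraMap F₀ L)) := by
  obtain ⟨a₁, a₂, h1, h2, rfl⟩ := exists_dvd_and_dvd_of_dvd_mul ha
  obtain ⟨c, q', hc, hq', rfl⟩ := exists_of_dvd_map hreg hq h1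
  rw [← Polynomial.map_pow] at h2
  obtain ⟨c', Q, hc', hQ, rfl⟩ := div14_aux (D ^ i) (pow_ne_zero i hD0)
    (fun Q hQ hQD => hD Q hQ (hQ.prime.dvd_of_dvd_pow hQD)) a₂ h2
  refine ⟨c * c', q', Q, mul_ne_zero hc hc', hq', hQ, ?_⟩
  rw [C_mul]
  ring

end Pool.Agent.H28G
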