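import Mathlib


/-!
# Extension of the constants of a field of rational functions
-/

open Polynomial

noncomputable section

open scoped Classical

namespace Pool.Agent.H28G

section

variable {F₀ F₁ K K' : Type*} [Field F₀] [Field F₁] [Algebra F₀ F₁] [Field K] [Field K']
  [Algebra F₀[X] K] [IsFractionRing F₀[X] K] [Algebra F₁[X] K'] [IsFractionRing F₁[X] K']

/-- PROOF. `IsFractionRing.lift` of `(algebraMap F₁[X] K').comp (mapRingHom (algebraMap F₀ F₁))`,
which is injective. -/
theorem exists_frac_hom : ∃ φ : K →+* K', ∀ q : F₀[X], φ (algebraMap F₀[X] K q) =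
    algebraMap F₁[X] K' (q.map (algebraMap F₀ F₁)) := by
  have hinj : Function.Injective ((algebraMap F₁[X] K').comp (mapRingHom (algebraMap F₀ F₁))) := by
    rw [RingHom.coe_comp]
    exact (IsFractionRing.injective F₁[X] K').comp
      (Polynomial.map_injective _ (algebraMap F₀ F₁).injective)
  exact ⟨IsFractionRing.lift hinj, fun q => by rw [IsFractionRing.lift_algebraMap]; rfl⟩

/-- PROOF. `K' = K(ζ')`, `ζ'` the image of `ζ`: an element of `K'` is a quotient of two elements of
`F₁[X]`, and `F₁ = F₀(ζ)` is algebraic over `F₀`, its elements are polynomials in `ζ` over `F₀`. `ζ'`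
is a root of the cyclotomic polynomial of degree `ℓ - 1` over `K`, a divisor of the separable
polynomial `X^ℓ - 1`. (The degree: see the proof of `hd` in `hilbert_twist_all`, HilbAll.lean; the
separability: `IntermediateField.isSeparable_adjoin_simple_iff_isSeparable` or similar,
transported along `adjoin = ⊤`.) -/
theorem frac_ext [Algebra K K'] (hc : ∀ q : F₀[X], algebraMap K K' (algebraMap F₀[X] K q) =
      algebraMap F₁[X] K' (q.map (algebraMap F₀ F₁))) {ℓ : ℕ} [hp : Fact ℓ.Prime]
    (hℓ : (ℓ : F₀) ≠ 0) {ζ : F₁} (hζ : IsPrimitiveRoot ζ ℓ)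
    (htop : IntermediateField.adjoin F₀ {ζ} = ⊤) :
    FiniteDimensional K K' ∧ Algebra.IsSeparable K K' ∧ ¬ ℓ ∣ Module.finrank K K' := by
  set σ : F₁ →+* K' := (algebraMap F₁[X] K').comp (C : F₁ →+* F₁[X]) with hσ
  set ζ' : K' := σ ζ with hζd
  have hζ' : IsPrimitiveRoot ζ' ℓ := hζ.map_of_injective σ.injective
  have hℓK : (ℓ : K) ≠ 0 := by
    intro h0
    have h1 : ((algebraMap F₀[X] K).comp (C : F₀ →+* F₀[X])) (ℓ : F₀) = 0 := by
      rw [map_natCast, h0]
    exact hℓ ((map_eq_zero _).mp h1)
  have hcyc : aeval ζ' (cyclotomic ℓ K) = 0 := by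
    rw [aeval_def, eval₂_eq_eval_map, map_cyclotomic]
    exact hζ'.isRoot_cyclotomic hp.out.pos
  have hint : IsIntegral K ζ' := ⟨cyclotomic ℓ K, cyclotomic.monic ℓ K, hcyc⟩
  have hsep : IsSeparable K ζ' := by
    have h1 : (X ^ ℓ - 1 : K[X]).Separable := by
      exact X_pow_sub_one_separable_iff.mpr hℓK
    refine h1.of_dvd (minpoly.dvd K ζ' ?_)
    rw [map_sub, map_pow, aeval_X, map_one, hζ'.pow_eq_one, sub_self]
  have htop' : IntermediateField.adjoin K {ζ'} = ⊤ := by
    set L := IntermediateField.adjoin K {ζ'} with hL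
    have hζL : ζ' ∈ L := IntermediateField.mem_adjoin_simple_self K ζ'
    let M : IntermediateField F₀ F₁ :=
      { L.toSubfield.comap σ with
        algebraMap_mem' := fun a => by
          show σ (algebraMap F₀ F₁ a) ∈ L
          have h1 := hc (C a)
          rw [Polynomial.map_C] at h1
          have h2 : σ (algebraMap F₀ F₁ a) = algebraMap K K' (algebraMap F₀[X] K (C a)) := h1.symm
          rw [h2]
          exact L.algebraMap_mem _ }
    have hM : IntermediateField.adjoin F₀ {ζ} ≤ M := by
      rw [IntermediateField.adjoin_le_iff, Set.singleton_subset_iff]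
      exact hζL
    have hσL : ∀ a : F₁, σ a ∈ L := by
      intro a
      have h1 : a ∈ (⊤ : IntermediateField F₀ F₁) := IntermediateField.mem_top
      rw [← htop] at h1
      exact hM h1
    have hXL : algebraMap F₁[X] K' X ∈ L := by
      have h1 := hc X
      rw [Polynomial.map_X] at h1
      rw [← h1]
      exact L.algebraMap_mem _
    have hf : ∀ f : F₁[X], algebraMap F₁[X] K' f ∈ L := by
      intro f
      induction f using Polynomial.induction_on' with
      | add f g hf hg => rw [map_add]; exact add_mem hf hg
      | monomial m a =>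
        rw [← C_mul_X_pow_eq_monomial, map_mul, map_pow]
        exact mul_mem (hσL a) (pow_mem hXL m)
    rw [eq_top_iff]
    intro x _
    obtain ⟨f, g, _, rfl⟩ := IsFractionRing.div_surjective (A := F₁[X]) x
    exact div_mem (hf f) (hf g)
  have hfd : FiniteDimensional K K' := by
    have h1 := IntermediateField.adjoin.finiteDimensional hint
    rw [htop'] at h1
    exact LinearEquiv.finiteDimensional (IntermediateField.topEquiv (F := K) (E := K')).toLinearEquiv
  refine ⟨hfd, ?_, ?_⟩
  · have h1 : Algebra.IsSeparable K (IntermediateField.adjoin K {ζ'}) :=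
      (IntermediateField.isSeparable_adjoin_simple_iff_isSeparable K K').mpr hsep
    rw [htop'] at h1
    exact AlgEquiv.Algebra.isSeparable (IntermediateField.topEquiv (F := K) (E := K'))
  · have h1 : Module.finrank K K' = (minpoly K ζ').natDegree := by
      rw [← IntermediateField.adjoin.finrank hint, htop', IntermediateField.finrank_top']
    have h2 : (minpoly K ζ').natDegree ≤ ℓ - 1 := by
      have h3 := natDegree_le_of_dvd (minpoly.dvd K ζ' hcyc) (cyclotomic_ne_zero ℓ K)
      rwa [natDegree_cyclotomic, Nat.totient_prime hp.out] at h3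
    have h4 : 0 < Module.finrank K K' := Module.finrank_pos
    intro h5
    have h6 := Nat.le_of_dvd h4 h5
    have h7 := hp.out.two_le
    omega

end

end Pool.Agent.H28G
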