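import Mathlib
import Pool.Agent.MP1bdb59C.GeomExt

/-!
# Extensions of the field of constants, in every characteristic
-/

open Polynomial IntermediateField

noncomputable section

open scoped Classical

namespace Pool.Agent.H28G

open Pool.Agent.MP1bdb59C

variable {k K K' : Type*} [Field k] [Field K] [Algebra k K] [Field K'] [Algebra K K']
  [Algebra k K'] [IsScalarTower k K K'] [FiniteDimensional K K'] {ζ : K'} (hζ : IsIntegral k ζ)
  (htop : adjoin K {ζ} = ⊤) {f : K[X]} (hf : f.Monic) (hirr : Irreducible f)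
  (hreg : ∀ x : AdjoinRoot f, IsAlgebraic k x → x ∈ Set.range (algebraMap k (AdjoinRoot f)))

include hirr hreg in
/-- PROOF. Copy `closed_base` (GeomExt.lean), which has the unneeded hypothesis `CharZero k`. -/
lemma closed_base' : ∀ x : K, IsAlgebraic k x → x ∈ Set.range (algebraMap k K) := by
  have := Fact.mk hirr
  intro x hx
  obtain ⟨c, hc⟩ := hreg (algebraMap K (AdjoinRoot f) x) ((isAlgebraic_algebraMap_iff
    (algebraMap K (AdjoinRoot f)).injective).mpr hx)
  refine ⟨c, ?_⟩
  apply (algebraMap K (AdjoinRoot f)).injective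
  rw [← hc, ← IsScalarTower.algebraMap_apply]

include hζ htop hf hirr hreg in
/-- PROOF. Copy `irreducible_ext` (GeomExt.lean), which has the unneeded hypothesis
`CharZero k`. -/
theorem irreducible_ext' : Irreducible (f.map (algebraMap K K')) := by
  have i0 := Fact.mk hirr
  have hregK := closed_base' hirr hreg
  have hd := finrank_eq hζ htop hregK
  have hfm : (f.map (algebraMap K K')).Monic := hf.map _
  have hn : (f.map (algebraMap K K')).natDegree = f.natDegree := hf.natDegree_map _
  have hnu : ¬ IsUnit (f.map (algebraMap K K')) := by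
    rw [hfm.isUnit_iff]
    intro h1
    have h2 := congrArg natDegree h1
    rw [hn, natDegree_one] at h2
    exact hirr.natDegree_pos.ne' h2
  obtain ⟨g, hg, hgf⟩ := WfDvdMonoid.exists_irreducible_factor hnu hfm.ne_zero
  have i1 := Fact.mk hg
  have hg0 : g ≠ 0 := hg.ne_zero
  -- `L = K[x]/(f)` embeds into `K'[x]/(g)`
  have hroot : aeval (AdjoinRoot.root g) f = 0 := by
    obtain ⟨q, hq⟩ := hgf
    rw [← aeval_map_algebraMap K', hq, map_mul, AdjoinRoot.aeval_eq, AdjoinRoot.mk_self, zero_mul]
  let φ : AdjoinRoot f →ₐ[K] AdjoinRoot g := AdjoinRoot.liftAlgHom f (Algebra.ofId _ _) _ hroot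
  let i2 : Algebra (AdjoinRoot f) (AdjoinRoot g) := φ.toRingHom.toAlgebra
  have i3 : IsScalarTower K (AdjoinRoot f) (AdjoinRoot g) :=
    IsScalarTower.of_algebraMap_eq (fun x => (φ.commutes x).symm)
  have i4 : IsScalarTower k (AdjoinRoot f) (AdjoinRoot g) := by
    apply IsScalarTower.of_algebraMap_eq
    intro x
    rw [IsScalarTower.algebraMap_apply k K (AdjoinRoot f), ← IsScalarTower.algebraMap_apply K,
      ← IsScalarTower.algebraMap_apply]
  have i5 : FiniteDimensional K' (AdjoinRoot g) := (AdjoinRoot.powerBasis hg0).finite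
  have i6 : FiniteDimensional K (AdjoinRoot f) := (AdjoinRoot.powerBasis hirr.ne_zero).finite
  have i7 : FiniteDimensional K (AdjoinRoot g) := Module.Finite.trans K' _
  have i8 : FiniteDimensional (AdjoinRoot f) (AdjoinRoot g) :=
    Module.Finite.of_restrictScalars_finite K _ _
  have hrk1 : Module.finrank K (AdjoinRoot f) = f.natDegree := by
    rw [(AdjoinRoot.powerBasis hirr.ne_zero).finrank, AdjoinRoot.powerBasis_dim]
  have hrk2 : Module.finrank K' (AdjoinRoot g) = g.natDegree := by
    rw [(AdjoinRoot.powerBasis hg0).finrank, AdjoinRoot.powerBasis_dim]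
  have h1 := Module.finrank_mul_finrank K K' (AdjoinRoot g)
  have h2 := Module.finrank_mul_finrank K (AdjoinRoot f) (AdjoinRoot g)
  -- the degree of `ζ` over `L`
  have h3 : (minpoly k ζ).natDegree ≤ Module.finrank (AdjoinRoot f) (AdjoinRoot g) := by
    have hζ' : IsIntegral k (algebraMap K' (AdjoinRoot g) ζ) := hζ.algebraMap
    have h4 : minpoly k (algebraMap K' (AdjoinRoot g) ζ) = minpoly k ζ :=
      minpoly.algebraMap_eq (algebraMap K' (AdjoinRoot g)).injective ζ
    have h5 := minpoly_of_closed hreg hζ'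
    rw [h4] at h5
    have h6 := minpoly.natDegree_le (A := AdjoinRoot f) (algebraMap K' (AdjoinRoot g) ζ)
    rwa [h5, natDegree_map] at h6
  rw [← h2, hrk1, hrk2, hd] at h1
  have hpos : 0 < (minpoly k ζ).natDegree := minpoly.natDegree_pos hζ
  have hfpos : 0 < f.natDegree := hirr.natDegree_pos
  have h7 : f.natDegree ≤ g.natDegree := by
    by_contra hcon
    push Not at hcon
    have h8 : (minpoly k ζ).natDegree * g.natDegree < (minpoly k ζ).natDegree * f.natDegree :=
      Nat.mul_lt_mul_of_pos_left hcon hpos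
    have h9 : f.natDegree * (minpoly k ζ).natDegree ≤
        f.natDegree * Module.finrank (AdjoinRoot f) (AdjoinRoot g) := Nat.mul_le_mul_left _ h3
    nlinarith
  obtain ⟨q, hq⟩ := hgf
  have hq0 : q ≠ 0 := by
    rintro rfl
    rw [mul_zero] at hq
    exact hfm.ne_zero hq
  have h8 := congrArg natDegree hq
  rw [natDegree_mul hg0 hq0, hn] at h8
  have hqu : IsUnit q := by
    rw [isUnit_iff_degree_eq_zero, degree_eq_natDegree hq0]
    have : q.natDegree = 0 := by omega
    rw [this]
    rfl
  rw [hq]
  exact (irreducible_mul_isUnit hqu).mpr hg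

include hζ htop hf hirr hreg in
/-- The field of constants of `K'[x]/(f)` is `k(ζ)`.
PROOF. `L = K[x]/(f)`, `L' = K'[x]/(f) = L(ζ)`, of degree `N = [k(ζ):k]` over `L` (as in `closed_ext`,
GeomExt.lean: `minpoly L ζ = (minpoly k ζ).map`, by `minpoly_of_closed`). Write `x = ∑ a_i ζ^i`, with
`a_i` in `L`, `i < N`. Let `b_i` in `k(ζ)` be the dual basis of the `ζ^i` for the trace of `k(ζ)/k`
(separable: `Module.Basis.traceDual` / `BilinForm.dualBasis`, `traceForm_nondegenerate`). The trace
from `L'` to `L` of an element of `k(ζ)` is the trace from `k(ζ)` to `k` (same minimal polynomial /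
same multiplication matrix in the basis `ζ^i`), so `a_i = Tr (x b_i)`, which is integral over `k`
(`Algebra.isIntegral_trace`), so in `k` by `hreg`. -/
theorem closed_ext' [hirr' : Fact (Irreducible (f.map (algebraMap K K')))]
    (hsepζ : IsSeparable k ζ)
    (x : AdjoinRoot (f.map (algebraMap K K'))) (hx : IsAlgebraic (adjoin k {ζ}) x) :
    x ∈ Set.range (algebraMap (adjoin k {ζ}) (AdjoinRoot (f.map (algebraMap K K')))) := by
  have i0 := Fact.mk hirr
  have hregK := closed_base' hirr hreg
  have hd := finrank_eq hζ htop hregK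
  have hfm : (f.map (algebraMap K K')).Monic := hf.map _
  have hn : (f.map (algebraMap K K')).natDegree = f.natDegree := hf.natDegree_map _
  have hroot : aeval (AdjoinRoot.root (f.map (algebraMap K K'))) f = 0 := by
    rw [← aeval_map_algebraMap K', AdjoinRoot.aeval_eq, AdjoinRoot.mk_self]
  let φ : AdjoinRoot f →ₐ[K] AdjoinRoot (f.map (algebraMap K K')) :=
    AdjoinRoot.liftAlgHom f (Algebra.ofId _ _) _ hroot
  let i2 : Algebra (AdjoinRoot f) (AdjoinRoot (f.map (algebraMap K K'))) := φ.toRingHom.toAlgebra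
  have i3 : IsScalarTower K (AdjoinRoot f) (AdjoinRoot (f.map (algebraMap K K'))) :=
    IsScalarTower.of_algebraMap_eq (fun x => (φ.commutes x).symm)
  have i4 : IsScalarTower k (AdjoinRoot f) (AdjoinRoot (f.map (algebraMap K K'))) := by
    apply IsScalarTower.of_algebraMap_eq
    intro x
    rw [IsScalarTower.algebraMap_apply k K (AdjoinRoot f), ← IsScalarTower.algebraMap_apply K,
      ← IsScalarTower.algebraMap_apply]
  have i5 : FiniteDimensional K' (AdjoinRoot (f.map (algebraMap K K'))) :=
    (AdjoinRoot.powerBasis hirr'.out.ne_zero).finite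
  have i6 : FiniteDimensional K (AdjoinRoot f) := (AdjoinRoot.powerBasis hirr.ne_zero).finite
  have i7 : FiniteDimensional K (AdjoinRoot (f.map (algebraMap K K'))) := Module.Finite.trans K' _
  have i8 : FiniteDimensional (AdjoinRoot f) (AdjoinRoot (f.map (algebraMap K K'))) :=
    Module.Finite.of_restrictScalars_finite K _ _
  have hrk1 : Module.finrank K (AdjoinRoot f) = f.natDegree := by
    rw [(AdjoinRoot.powerBasis hirr.ne_zero).finrank, AdjoinRoot.powerBasis_dim]
  have hrk2 : Module.finrank K' (AdjoinRoot (f.map (algebraMap K K'))) = f.natDegree := by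
    rw [(AdjoinRoot.powerBasis hirr'.out.ne_zero).finrank, AdjoinRoot.powerBasis_dim, hn]
  have h1 := Module.finrank_mul_finrank K K' (AdjoinRoot (f.map (algebraMap K K')))
  have h2 := Module.finrank_mul_finrank K (AdjoinRoot f) (AdjoinRoot (f.map (algebraMap K K')))
  have hfpos : 0 < f.natDegree := hirr.natDegree_pos
  have hLL : Module.finrank (AdjoinRoot f) (AdjoinRoot (f.map (algebraMap K K'))) =
      (minpoly k ζ).natDegree := by
    rw [← h2, hrk1, hrk2, hd, mul_comm] at h1
    exact (Nat.eq_of_mul_eq_mul_left hfpos h1).symm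
  -- the elements
  obtain ⟨ζL, hζL⟩ : ∃ z : AdjoinRoot (f.map (algebraMap K K')), z = algebraMap K' _ ζ := ⟨_, rfl⟩
  have hζLint : IsIntegral k ζL := by rw [hζL]; exact hζ.algebraMap
  have hminζ : minpoly k ζL = minpoly k ζ := by
    rw [hζL]
    exact minpoly.algebraMap_eq (algebraMap K' (AdjoinRoot (f.map (algebraMap K K')))).injective ζ
  have hminL := minpoly_of_closed hreg hζLint
  have hζLL : IsIntegral (AdjoinRoot f) ζL := hζLint.tower_top
  have hfin1 : FiniteDimensional k (adjoin k {ζ}) := adjoin.finiteDimensional hζ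
  have hxint : IsIntegral k x := by
    have h3 : IsIntegral (adjoin k {ζ}) x := hx.isIntegral
    exact isIntegral_trans (R := k) x h3
  have htopL : adjoin (AdjoinRoot f) {ζL} = ⊤ := by
    refine IntermediateField.eq_of_le_of_finrank_le le_top ?_
    rw [IntermediateField.finrank_top', hLL, adjoin.finrank hζLL, hminL, natDegree_map, hminζ]
  have htopA : Algebra.adjoin (AdjoinRoot f) {ζL} = ⊤ := by
    rw [← IntermediateField.adjoin_simple_toSubalgebra_of_isAlgebraic hζLL.isAlgebraic, htopL,
      IntermediateField.top_toSubalgebra]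
  have hsepL : IsSeparable (AdjoinRoot f) ζL := by
    have h3 : (minpoly (AdjoinRoot f) ζL).Separable := by
      rw [hminL, hminζ]
      exact Separable.map hsepζ
    exact h3
  have i9 : Algebra.IsSeparable (AdjoinRoot f) (AdjoinRoot (f.map (algebraMap K K'))) := by
    have h3 := (isSeparable_adjoin_simple_iff_isSeparable (AdjoinRoot f)
      (AdjoinRoot (f.map (algebraMap K K')))).2 hsepL
    rw [htopL] at h3
    exact AlgEquiv.Algebra.isSeparable IntermediateField.topEquiv
  obtain ⟨pb, hpb⟩ : ∃ pb : PowerBasis (AdjoinRoot f) (AdjoinRoot (f.map (algebraMap K K'))),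
      pb.gen = ζL := ⟨PowerBasis.ofAdjoinEqTop hζLL htopA, PowerBasis.ofAdjoinEqTop_gen hζLL htopA⟩
  have hbint : ∀ i, IsIntegral k (pb.basis i) := by
    intro i
    rw [pb.basis_eq_pow, hpb]
    exact hζLint.pow _
  have hT : ∀ i j, ∃ t : k, algebraMap k (AdjoinRoot f) t =
      Algebra.traceMatrix (AdjoinRoot f) pb.basis i j := by
    intro i j
    rw [Algebra.traceMatrix_apply, Algebra.traceForm_apply]
    exact hreg _ (Algebra.isIntegral_trace ((hbint i).mul (hbint j))).isAlgebraic
  choose T hT using hT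
  have hc : ∀ i, ∃ t : k, algebraMap k (AdjoinRoot f) t =
      Algebra.trace (AdjoinRoot f) (AdjoinRoot (f.map (algebraMap K K'))) (x * pb.basis i) :=
    fun i => hreg _ (Algebra.isIntegral_trace (hxint.mul (hbint i))).isAlgebraic
  choose c hc using hc
  have hTm : (Matrix.of T).map (algebraMap k (AdjoinRoot f)) =
      Algebra.traceMatrix (AdjoinRoot f) pb.basis := by
    refine Matrix.ext fun i j => ?_
    rw [Matrix.map_apply, Matrix.of_apply, hT]
  have hdetL := det_traceMatrix_ne_zero' pb
  have hdet : (Matrix.of T).det ≠ 0 := by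
    intro h3
    apply hdetL
    rw [← hTm]
    have h4 := RingHom.map_det (algebraMap k (AdjoinRoot f)) (Matrix.of T)
    rw [h3, map_zero] at h4
    exact h4.symm
  have hinj : Function.Injective (Algebra.traceMatrix (AdjoinRoot f) pb.basis).mulVec :=
    Matrix.mulVec_injective_iff_isUnit.2 ((Matrix.isUnit_iff_isUnit_det _).2 hdetL.isUnit)
  obtain ⟨a, ha⟩ : ∃ a, a = (Matrix.of T)⁻¹.mulVec c := ⟨_, rfl⟩
  have ha2 : (Matrix.of T).mulVec a = c := by
    rw [ha, Matrix.mulVec_mulVec, Matrix.mul_nonsing_inv _ hdet.isUnit, Matrix.one_mulVec]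
  have hrepr : pb.basis.equivFun x = fun i => algebraMap k (AdjoinRoot f) (a i) := by
    apply hinj
    rw [Algebra.traceMatrix_of_basis_mulVec]
    funext i
    rw [← hc i, ← hTm]
    have h3 := congrFun ha2 i
    rw [← h3]
    simp only [Matrix.mulVec, dotProduct, map_sum, map_mul, Matrix.map_apply]
  have hxsum : x = ∑ i, algebraMap k (AdjoinRoot (f.map (algebraMap K K'))) (a i) * ζL ^ (i : ℕ) := by
    conv_lhs => rw [← pb.basis.sum_equivFun x]
    refine Finset.sum_congr rfl fun i _ => ?_
    rw [hrepr, pb.basis_eq_pow, hpb, Algebra.smul_def, ← IsScalarTower.algebraMap_apply]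
  have hxmem : x ∈ adjoin k {ζL} := by
    rw [hxsum]
    refine sum_mem fun i _ => mul_mem ((adjoin k {ζL}).algebraMap_mem _) (pow_mem ?_ _)
    exact subset_adjoin _ _ rfl
  have h8 : adjoin k {ζL} = (adjoin k {ζ}).map
      (IsScalarTower.toAlgHom k K' (AdjoinRoot (f.map (algebraMap K K')))) := by
    rw [adjoin_map, Set.image_singleton, hζL]
    rfl
  rw [h8] at hxmem
  obtain ⟨z, hz, hzx⟩ := hxmem
  exact ⟨⟨z, hz⟩, hzx⟩

end Pool.Agent.H28G
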