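import Mathlib
import Pool.Agent.H28G.Div

/-!
# The localisation of `F₀[s]` at `k₀[s]` and `D`
-/

open Polynomial

noncomputable section

open scoped Classical

namespace Pool.Agent.H28G

open Pool.Agent.MP1bdb59C

variable {k₀ F₀ : Type*} [Field k₀] [Field F₀] [Algebra k₀ F₀] {D : F₀[X]} {A : Type*}
  [CommRing A] [IsDomain A] [Algebra F₀[X] A] [hA : IsLocalization (tD k₀ D) A] {f : F₀[X]}
  (hf : f.Monic) (hirr : Irreducible f)

variable (k₀ D A f) in
omit [IsDomain A] in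
private lemma exists_unit_mulD
    (x : AdjoinRoot ((f.map (C : F₀ →+* F₀[X])).map (algebraMap F₀[X] A))) :
    ∃ t ∈ tD k₀ D, ∃ b : AdjoinRoot (f.map (C : F₀ →+* F₀[X])),
      lamMap (algebraMap F₀[X] A) rfl b = AdjoinRoot.of _ (algebraMap F₀[X] A t) * x := by
  obtain ⟨p, rfl⟩ := AdjoinRoot.mk_surjective x
  obtain ⟨t, ht, h1⟩ := IsLocalization.integerNormalization_spec (tD k₀ D) p
  refine ⟨t, ht, AdjoinRoot.mk _ (IsLocalization.integerNormalization (tD k₀ D) p), ?_⟩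
  rw [lamMap_mk, h1, Algebra.smul_def, map_mul]
  rfl

include hirr hA in
variable (k₀ D A) in
omit [IsDomain A] in
/-- PROOF. Copy `isPrincipalIdealRing_loc` (and `exists_unit_mul`) of GenRing.lean. -/
lemma isPrincipalIdealRing_locD :
    IsPrincipalIdealRing (AdjoinRoot ((f.map (C : F₀ →+* F₀[X])).map (algebraMap F₀[X] A))) := by
  have := isPrincipalIdealRing_const hirr
  refine isPrincipalIdealRing_of_unit_mul (lamMap (algebraMap F₀[X] A) rfl) fun x => ?_
  obtain ⟨t, ht, b, hb⟩ := exists_unit_mulD k₀ D A f x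
  exact ⟨_, (IsLocalization.map_units A (⟨t, ht⟩ : tD k₀ D)).map (AdjoinRoot.of _), b, hb⟩

include hirr hf hA in
variable (k₀ D A) in
omit [IsDomain A] in
/-- The units are products of constants and of units of `A`.
PROOF. Copy `exists_of_unit` of GenRing.lean, with `exists_of_dvd_map_mul'` in place of
`exists_of_dvd_map_mul`: `b = c * of (q'.map * Q)` and `q'.map * Q` divides
`q'.map * D ^ i`, an element of `tD k₀ D`, hence is a unit of `A` (`isUnit_of_dvd_unit`). -/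
lemma exists_of_unitD (hD0 : D ≠ 0)
    (hD : ∀ Q : F₀[X], Irreducible Q → Q ∣ D → Irreducible (Q.map (AdjoinRoot.of f)))
    (hreg : ∀ x : AdjoinRoot f, IsAlgebraic k₀ x → x ∈ Set.range (algebraMap k₀ (AdjoinRoot f)))
    (u : (AdjoinRoot ((f.map (C : F₀ →+* F₀[X])).map (algebraMap F₀[X] A)))ˣ) :
    ∃ (c : AdjoinRoot f) (a : Aˣ), c ≠ 0 ∧
      (u : AdjoinRoot ((f.map (C : F₀ →+* F₀[X])).map (algebraMap F₀[X] A))) =
        lamMap (algebraMap F₀[X] A) rfl (lamMap (C : F₀ →+* F₀[X]) rfl c) *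
          AdjoinRoot.of _ (a : A) := by
  have := Fact.mk hirr
  have hinj : Function.Injective (lamMap (algebraMap F₀[X] A)
      (rfl : (f.map (C : F₀ →+* F₀[X])).map (algebraMap F₀[X] A) = _)) := by
    rw [injective_iff_map_eq_zero]
    intro x hx
    obtain ⟨p, rfl⟩ := AdjoinRoot.mk_surjective x
    rw [lamMap_mk, AdjoinRoot.mk_eq_zero] at hx
    rw [AdjoinRoot.mk_eq_zero]
    exact (Polynomial.map_dvd_map _ (IsLocalization.injective A (tD_le k₀ hD0)) (hf.map _)).mp hx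
  obtain ⟨t, ht, b, hb⟩ := exists_unit_mulD k₀ D A f (u : AdjoinRoot _)
  obtain ⟨t', ht', b', hb'⟩ := exists_unit_mulD k₀ D A f ((u⁻¹ : (AdjoinRoot _)ˣ) : AdjoinRoot _)
  have h1 : b * b' = AdjoinRoot.of _ (t * t') := by
    apply hinj
    rw [map_mul, hb, hb', lamMap_of', map_mul, map_mul]
    have h2 := u.mul_inv
    linear_combination (AdjoinRoot.of _ (algebraMap F₀[X] A t) *
      AdjoinRoot.of _ (algebraMap F₀[X] A t')) * h2
  obtain ⟨q, i, hq, hqt⟩ := (tD k₀ D).mul_mem ht ht'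
  have h3 : equivL f b ∣ q.map (algebraMap k₀ (AdjoinRoot f)) *
      (D.map (algebraMap F₀ (AdjoinRoot f))) ^ i := by
    have h4 : equivL f b * equivL f b' = q.map (algebraMap k₀ (AdjoinRoot f)) *
      (D.map (algebraMap F₀ (AdjoinRoot f))) ^ i := by
      rw [← map_mul, h1, equivL_of]
      have h5 : t * t' = q.map (algebraMap k₀ F₀) * D ^ i := hqt
      rw [h5, Polynomial.map_mul, Polynomial.map_pow, Polynomial.map_map]
      rfl
    exact Dvd.intro _ h4
  obtain ⟨c, q', Q, hc, hq', hQ, hbq⟩ := exists_of_dvd_map_mul' hreg hD0 hD hq i h3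
  have hb2 : b = lamMap (C : F₀ →+* F₀[X]) rfl c *
      AdjoinRoot.of _ (q'.map (algebraMap k₀ F₀) * Q) := by
    apply (equivL f).injective
    rw [hbq, map_mul, equivL_lamMap, equivL_of, Polynomial.map_mul, Polynomial.map_map]
    rfl
  have ht2 : q'.map (algebraMap k₀ F₀) * D ^ i ∈ tD k₀ D := ⟨q', i, hq', rfl⟩
  have hu1 : IsUnit (algebraMap F₀[X] A t) := IsLocalization.map_units A (⟨t, ht⟩ : tD k₀ D)
  have hu2 : IsUnit (algebraMap F₀[X] A (q'.map (algebraMap k₀ F₀) * Q)) :=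
    isUnit_of_dvd_unit (map_dvd (algebraMap F₀[X] A) (mul_dvd_mul_left _ hQ))
      (IsLocalization.map_units A (⟨_, ht2⟩ : tD k₀ D))
  refine ⟨c, hu2.unit * hu1.unit⁻¹, hc, ?_⟩
  rw [hb2, map_mul, lamMap_of'] at hb
  have h6 : AdjoinRoot.of ((f.map (C : F₀ →+* F₀[X])).map (algebraMap F₀[X] A))
      (algebraMap F₀[X] A t) * AdjoinRoot.of _ ((hu1.unit⁻¹ : Aˣ) : A) = 1 := by
    rw [← map_mul, hu1.mul_val_inv, map_one]
  rw [Units.val_mul, map_mul, IsUnit.unit_spec]
  have h7 : ((u : AdjoinRoot ((f.map (C : F₀ →+* F₀[X])).map (algebraMap F₀[X] A)))) =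
      (AdjoinRoot.of ((f.map (C : F₀ →+* F₀[X])).map (algebraMap F₀[X] A))
        (algebraMap F₀[X] A t) * u.val) * AdjoinRoot.of _ ((hu1.unit⁻¹ : Aˣ) : A) := by
    rw [mul_right_comm, h6, one_mul]
  rw [h7, ← hb, mul_assoc]

end Pool.Agent.H28G
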