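import Mathlib
import Pool.Agent.H28G.Ring
import Pool.Agent.H28G.AtP

/-!
# The twist by a rational function, with a root of unity
-/

open Polynomial IsDedekindDomain

noncomputable section

open scoped Classical WithZero

namespace Pool.Agent.H28G

open Pool.Agent.MP1bdb59 (Sep AbsGal emb resGal Place Completion placeOf TateModule)
open Pool.Agent.MP1bdb59C

universe u v

variable {k₀ F₀ : Type*} {k : Type u} {K : Type v} [Field k₀] [Field F₀] [Algebra k₀ F₀]
  [Field k] [Field K] [Algebra k₀[X] k] [IsFractionRing k₀[X] k] [Algebra F₀[X] K]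
  [IsFractionRing F₀[X] K] [Algebra k K] {ℓ : ℕ} [hp : Fact ℓ.Prime]

/-- PROOF. Copy `selmer_generic` (Gen.lean) with `dA` in place of `wA ^ j` (`dA` is a unit of `A`),
`isPrincipalIdealRing_locD`, `exists_of_unitD`, and `const_at_P` in place of everything at the
place `s = h`. -/
theorem selmer_D
    (hcomp : ∀ q : k₀[X], algebraMap k K (algebraMap k₀[X] k q) =
      algebraMap F₀[X] K (q.map (algebraMap k₀ F₀)))
    {ζ : k₀} (hζ : IsPrimitiveRoot ζ ℓ) {f : F₀[X]} (hf : f.Monic) (hirr : Irreducible f)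
    (hsep : f.Separable) (hcop : ¬ ℓ ∣ f.natDegree)
    (hreg : ∀ x : AdjoinRoot f, IsAlgebraic k₀ x → x ∈ Set.range (algebraMap k₀ (AdjoinRoot f)))
    {D : F₀[X]} (hD0 : D ≠ 0)
    (hD : ∀ Q : F₀[X], Irreducible Q → Q ∣ D → Irreducible (Q.map (AdjoinRoot.of f)))
    {P D' : F₀[X]} {j : ℕ} (hP : Irreducible P)
    (hPk : ∀ q : k₀[X], q ≠ 0 → ¬ P ∣ q.map (algebraMap k₀ F₀)) (hI : InjP ℓ f P)
    (hj : ¬ ℓ ∣ j) (hD' : ¬ P ∣ D') (hPD : D = P ^ j * D')
    (A : Type*) [CommRing A] [IsDomain A] [Algebra F₀[X] A]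
    [IsLocalization (tD k₀ D) A] [Algebra A K] [IsFractionRing A K] [IsScalarTower F₀[X] A K]
    {w : k} (hw : w ≠ 0) {d : K} (hd : d = algebraMap k K w * algebraMap F₀[X] K D)
    {dA di : A} (hdi : dA * di = 1) (hdA : algebraMap A K dA = d) {gA : A[X]}
    (hgA : gA = ((f.map (C : F₀ →+* F₀[X])).map (algebraMap F₀[X] A)).scaleRoots dA)
    {ζA : A} (hζζ : ζA = algebraMap F₀[X] A (C (algebraMap k₀ F₀ ζ)))
    (hζK : IsPrimitiveRoot (algebraMap A K ζA) ℓ)
    (hirrg : Irreducible (gA.map (algebraMap A K))) [hgood : Good ℓ (gA.map (algebraMap A K))]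
    (m : AdjoinRoot (gA.map (algebraMap A K))) (hm : IsUnit m)
    (hnorm : ∃ r : K, Algebra.norm K m = r ^ ℓ)
    (hloc : ∀ v : Place k K, LocCond hζK (Completion v) m) : ∃ l, m = l ^ ℓ := by
  have hcd := hdi
  have : IsPrincipalIdealRing A := isPrincipalIdealRing_localization (tD k₀ D)
  -- the ring `A[x]/(gA)` is a principal ideal domain
  have hfm : (f.map (C : F₀ →+* F₀[X])).Monic := hf.map _
  have hfAm : ((f.map (C : F₀ →+* F₀[X])).map (algebraMap F₀[X] A)).Monic := hfm.map _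
  have hgAm : gA.Monic := by
    rw [hgA, monic_scaleRoots_iff]
    exact hfAm
  have hdom₀ := isDomain_loc hf hirr A K
  have hpir₀ := isPrincipalIdealRing_locD k₀ D A hirr
  have hdom : IsDomain (AdjoinRoot gA) := (scEquiv hgA hcd).toMulEquiv.isDomain _
  have hpir : IsPrincipalIdealRing (AdjoinRoot gA) :=
    IsPrincipalIdealRing.of_surjective (scEquiv hgA hcd).symm.toRingHom
      (scEquiv hgA hcd).symm.surjective
  have hded : IsDedekindDomain (AdjoinRoot gA) := inferInstance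
  -- the descent over `A`
  have hkA : ∀ c : k, ∃ a : A, algebraMap k K c = algebraMap A K a := by
    intro c
    obtain ⟨q₁, q₂, hq₂, rfl⟩ := IsFractionRing.div_surjective k₀[X] c
    have h0 : q₂ ≠ 0 := nonZeroDivisors.ne_zero hq₂
    have h1 : IsUnit (algebraMap F₀[X] A (q₂.map (algebraMap k₀ F₀))) :=
      IsLocalization.map_units A (⟨q₂.map (algebraMap k₀ F₀), q₂, 0, h0, by simp⟩ : tD k₀ D)
    obtain ⟨b, hb⟩ := h1.exists_right_inv
    refine ⟨algebraMap F₀[X] A (q₁.map (algebraMap k₀ F₀)) * b, ?_⟩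
    have h2 : algebraMap F₀[X] K (q₂.map (algebraMap k₀ F₀)) * algebraMap A K b = 1 := by
      rw [IsScalarTower.algebraMap_apply F₀[X] A K, ← map_mul, hb, map_one]
    rw [map_div₀, hcomp, hcomp, map_mul, ← IsScalarTower.algebraMap_apply,
      div_eq_iff (left_ne_zero_of_mul_eq_one h2), mul_assoc, mul_comm (algebraMap A K b), h2,
      mul_one]
  have hplace : ∀ p : HeightOneSpectrum A, ∃ v : Place k K,
      v.ring = (p.valuation K).valuationSubring := by
    intro p
    refine ⟨placeOfLe p fun c => ?_, rfl⟩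
    obtain ⟨a, ha⟩ := hkA c
    rw [ha]
    exact p.valuation_le_one a
  obtain ⟨κ, u, z, hκ, hmu⟩ := exists_unit_of_locCond (k := k) (ζ := ζA) hζK gA hgAm
    (fun I _ => IsPrincipalIdealRing.principal I) hplace m hm hloc
  -- pass to `K[x]/(f)`
  set ι : F₀ →+* K := (algebraMap F₀[X] K).comp C with hι
  have hfAK : ((f.map (C : F₀ →+* F₀[X])).map (algebraMap F₀[X] A)).map (algebraMap A K) =
      f.map ι := by
    rw [Polynomial.map_map, ← IsScalarTower.algebraMap_eq, Polynomial.map_map]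
  have hgK : gA.map (algebraMap A K) = (f.map ι).scaleRoots (algebraMap A K dA) := by
    rw [hgA, map_scaleRoots _ _ _ (by rw [hfAm.leadingCoeff, map_one]; exact one_ne_zero), hfAK]
  have hm1 : scMap hgK m = AdjoinRoot.of _ κ *
      lamMap (algebraMap A K) hfAK (scMap hgA (u : AdjoinRoot gA)) * (scMap hgK z) ^ ℓ := by
    rw [hmu, map_mul (scMap hgK), map_mul (scMap hgK), map_pow (scMap hgK), scMap_of,
      lamMap_scMap hgA (algebraMap A K) hfAK rfl hgK rfl]
  obtain ⟨c₀, a, hc₀, hca⟩ := exists_of_unitD k₀ D A hf hirr hD0 hD hreg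
    (Units.map (scMap hgA : AdjoinRoot gA →* _) u)
  have hca' : scMap hgA (u : AdjoinRoot gA) =
      lamMap (algebraMap F₀[X] A) rfl (lamMap (C : F₀ →+* F₀[X]) rfl c₀) *
        AdjoinRoot.of _ (a : A) := hca
  have hm2 : scMap hgK m = AdjoinRoot.of _ (κ * algebraMap A K a) *
      lamMap ι rfl c₀ * (scMap hgK z) ^ ℓ := by
    have h1 : lamMap (algebraMap A K) hfAK (lamMap (algebraMap F₀[X] A) rfl
        (lamMap (C : F₀ →+* F₀[X]) (rfl : f.map C = _) c₀)) = lamMap ι rfl c₀ := by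
      obtain ⟨p, rfl⟩ := AdjoinRoot.mk_surjective c₀
      rw [lamMap_mk, lamMap_mk, lamMap_mk, lamMap_mk, Polynomial.map_map, Polynomial.map_map,
        ← IsScalarTower.algebraMap_eq]
    rw [hm1, hca', map_mul (lamMap (algebraMap A K) hfAK), h1, lamMap_of',
      map_mul (AdjoinRoot.of (f.map ι))]
    ring
  -- the constant class at the prime `P`
  have hgd : gA.map (algebraMap A K) = (f.map ι).scaleRoots d := by rw [hgK, hdA]
  have hP0 : j ≠ 0 := by
    rintro rfl
    exact hj (dvd_zero ℓ)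
  have hPD1 : P ∣ D := by
    rw [hPD]
    exact Dvd.dvd.mul_right (dvd_pow_self P hP0) D'
  have hζF : IsPrimitiveRoot (algebraMap k₀ F₀ ζ) ℓ :=
    hζ.map_of_injective (algebraMap k₀ F₀).injective
  have hm2' : scMap hgd m = AdjoinRoot.of _ (κ * algebraMap A K a) *
      lamMap ι rfl c₀ * (scMap hgK z) ^ ℓ := by
    subst hdA
    exact hm2
  obtain ⟨e, b, heb⟩ := const_at_P (k := k) (K := K) hcomp hf hirr hsep hcop hP (hD P hP hPD1)
    hPk hI hj hD' hw (d := d) (by rw [hd, hPD]) hζF hζK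
    (by rw [hζζ, ← IsScalarTower.algebraMap_apply F₀[X] A K]) hgd m hloc hc₀ hm2'
  -- conclusion
  have hcdK : algebraMap A K dA * algebraMap A K di = 1 := by
    rw [← map_mul, hcd, map_one]
  obtain ⟨Y, hY⟩ := (scEquiv hgK hcdK).surjective (lamMap ι rfl b * scMap hgK z)
  have hm3 : m = AdjoinRoot.of _ (κ * algebraMap A K a * ι e) * Y ^ ℓ := by
    apply (scEquiv hgK hcdK).injective
    rw [scEquiv_apply] at hY
    rw [scEquiv_apply, scEquiv_apply, hm2, heb, map_mul (scMap hgK), map_pow (scMap hgK), hY,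
      scMap_of, map_mul (lamMap ι rfl), map_pow (lamMap ι rfl), lamMap_of',
      map_mul (AdjoinRoot.of (f.map ι)) _ (ι e)]
    ring
  obtain ⟨r, hr⟩ := hnorm
  exact exists_pow_of_norm hgood.monic hirrg hgood.cop m hm hr hm3

/-- PROOF. Copy `generic_twist` (Gen.lean), `A = Localization.subalgebra.ofField K (tD k₀ D)
(tD_le k₀ hD0)`; `dA` is the element of `A` with image `d`: `w = q₁/q₂` in `k₀(s)`, so
`d = q₁ D / q₂`, and `q₁, q₂, D` are in `tD k₀ D`. -/
theorem twist_D
    (hcomp : ∀ q : k₀[X], algebraMap k K (algebraMap k₀[X] k q) =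
      algebraMap F₀[X] K (q.map (algebraMap k₀ F₀)))
    {ζ : k₀} (hζ : IsPrimitiveRoot ζ ℓ) {f : F₀[X]} (hf : f.Monic) (hirr : Irreducible f)
    (hsep : f.Separable) (hcop : ¬ ℓ ∣ f.natDegree)
    (hreg : ∀ x : AdjoinRoot f, IsAlgebraic k₀ x → x ∈ Set.range (algebraMap k₀ (AdjoinRoot f)))
    {D : F₀[X]} (hD0 : D ≠ 0)
    (hD : ∀ Q : F₀[X], Irreducible Q → Q ∣ D → Irreducible (Q.map (AdjoinRoot.of f)))
    {P D' : F₀[X]} {j : ℕ} (hP : Irreducible P)
    (hPk : ∀ q : k₀[X], q ≠ 0 → ¬ P ∣ q.map (algebraMap k₀ F₀)) (hI : InjP ℓ f P)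
    (hj : ¬ ℓ ∣ j) (hD' : ¬ P ∣ D') (hPD : D = P ^ j * D')
    {w : k} (hw : w ≠ 0) (g : K[X])
    (hg : g = (f.map ((algebraMap F₀[X] K).comp C)).scaleRoots
      (algebraMap k K w * algebraMap F₀[X] K D)) :
    (∀ ξ ∈ Sha k ℓ g, ℓ • ξ = 0 → ξ = 0) ∧
      (∀ t : Jac ℓ g K, (∀ σ, act ℓ g K σ t = t) →
        ∃ s : Jac ℓ g K, (∀ σ, act ℓ g K σ s = s) ∧ ℓ • s = t) := by
  have i1 : IsLocalization (tD k₀ D)
      (Localization.subalgebra.ofField K (tD k₀ D) (tD_le k₀ hD0)) := inferInstance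
  set A := Localization.subalgebra.ofField K (tD k₀ D) (tD_le k₀ hD0) with hA
  have i2 : IsFractionRing A K := inferInstance
  have i3 : IsScalarTower F₀[X] A K := inferInstance
  -- the element `d` of `A`
  obtain ⟨dA, di, hcd, hdA⟩ : ∃ dA di : A, dA * di = 1 ∧
      algebraMap A K dA = algebraMap k K w * algebraMap F₀[X] K D := by
    obtain ⟨q₁, q₂, hq₂, hwq⟩ := IsFractionRing.div_surjective k₀[X] w
    have h0 : q₂ ≠ 0 := nonZeroDivisors.ne_zero hq₂
    have h0' : q₁ ≠ 0 := by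
      rintro rfl
      rw [map_zero, zero_div] at hwq
      exact hw hwq.symm
    have h1 : IsUnit (algebraMap F₀[X] A (q₂.map (algebraMap k₀ F₀))) :=
      IsLocalization.map_units A (⟨q₂.map (algebraMap k₀ F₀), q₂, 0, h0, by simp⟩ : tD k₀ D)
    have h1' : IsUnit (algebraMap F₀[X] A (q₁.map (algebraMap k₀ F₀) * D)) :=
      IsLocalization.map_units A
        (⟨q₁.map (algebraMap k₀ F₀) * D, q₁, 1, h0', by simp⟩ : tD k₀ D)
    obtain ⟨b₂, hb₂⟩ := h1.exists_right_inv
    obtain ⟨b₁, hb₁⟩ := h1'.exists_right_inv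
    refine ⟨algebraMap F₀[X] A (q₁.map (algebraMap k₀ F₀) * D) * b₂,
      algebraMap F₀[X] A (q₂.map (algebraMap k₀ F₀)) * b₁, ?_, ?_⟩
    · calc _ = (algebraMap F₀[X] A (q₁.map (algebraMap k₀ F₀) * D) * b₁) *
            (algebraMap F₀[X] A (q₂.map (algebraMap k₀ F₀)) * b₂) := by ring
        _ = 1 := by rw [hb₁, hb₂, one_mul]
    · have h2 : algebraMap F₀[X] K (q₂.map (algebraMap k₀ F₀)) * algebraMap A K b₂ = 1 := by
        rw [IsScalarTower.algebraMap_apply F₀[X] A K, ← map_mul, hb₂, map_one]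
      rw [← hwq, map_div₀, hcomp, hcomp, map_mul, ← IsScalarTower.algebraMap_apply, map_mul,
        div_mul_eq_mul_div, eq_div_iff (left_ne_zero_of_mul_eq_one h2), mul_assoc,
        mul_comm (algebraMap A K b₂), h2, mul_one]
  obtain ⟨gA, hgA⟩ : ∃ gA, gA = ((f.map (C : F₀ →+* F₀[X])).map
    (algebraMap F₀[X] A)).scaleRoots dA := ⟨_, rfl⟩
  have hfAm : ((f.map (C : F₀ →+* F₀[X])).map (algebraMap F₀[X] A)).Monic := (hf.map _).map _
  have hgAm : gA.Monic := by
    rw [hgA, monic_scaleRoots_iff]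
    exact hfAm
  have hfAK : ((f.map (C : F₀ →+* F₀[X])).map (algebraMap F₀[X] A)).map (algebraMap A K) =
      f.map ((algebraMap F₀[X] K).comp C) := by
    rw [Polynomial.map_map, ← IsScalarTower.algebraMap_eq, Polynomial.map_map]
  have hgK : gA.map (algebraMap A K) = g := by
    rw [hgA, map_scaleRoots _ _ _ (by rw [hfAm.leadingCoeff, map_one]; exact one_ne_zero), hfAK,
      hdA, hg]
  have : IsPrincipalIdealRing A := isPrincipalIdealRing_localization (tD k₀ D)
  have hdom₀ := isDomain_loc hf hirr A K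
  have hdom : IsDomain (AdjoinRoot gA) := (scEquiv hgA hcd).toMulEquiv.isDomain _
  have hirrg : Irreducible (gA.map (algebraMap A K)) := irreducible_of_isDomain hgAm
  have hirrf : Irreducible (f.map ((algebraMap F₀[X] K).comp C)) := by
    rw [← Polynomial.map_map]
    exact irreducible_const hf hirr
  have hwK0 : algebraMap k K w * algebraMap F₀[X] K D ≠ 0 := by
    rw [← hdA]
    exact ((IsUnit.of_mul_eq_one _ hcd).map (algebraMap A K)).ne_zero
  have hgood : Good ℓ (gA.map (algebraMap A K)) := by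
    refine ⟨hgAm.map _, ?_, ?_⟩
    · rw [hgK, hg]
      refine separable_scaleRoots hsep.map hwK0 hirrf ?_
      rw [← hg, ← hgK]
      exact hirrg
    · rw [hgK, hg, natDegree_scaleRoots, natDegree_map]
      exact hcop
  set ζA : A := algebraMap F₀[X] A (C (algebraMap k₀ F₀ ζ)) with hζA
  have hζK : IsPrimitiveRoot (algebraMap A K ζA) ℓ := by
    have h1 : Function.Injective (((algebraMap F₀[X] K).comp C).comp (algebraMap k₀ F₀)) :=
      RingHom.injective _
    have h2 := hζ.map_of_injective h1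
    have h3 : algebraMap A K ζA = (((algebraMap F₀[X] K).comp C).comp (algebraMap k₀ F₀)) ζ := by
      rw [hζA, ← IsScalarTower.algebraMap_apply]
      rfl
    rw [h3]
    exact h2
  rw [← hgK]
  exact sha_ell_torsion k hζK (gA.map (algebraMap A K)) hirrg fun m hm hnorm hloc =>
    selmer_D hcomp hζ hf hirr hsep hcop hreg hD0 hD hP hPk hI hj hD' hPD A hw
      (d := algebraMap k K w * algebraMap F₀[X] K D) rfl hcd hdA hgA hζA hζK hirrg m hm hnorm hloc

end Pool.Agent.H28G
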