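import Mathlib
import Pool.Agent.MP1bdb59P.Core
import Pool.Agent.MP1bdb59C.BC
import Pool.Agent.MP1bdb59C.Gen

/-!
# No points of order `ℓ`
-/

open Polynomial

noncomputable section

open scoped Classical

namespace Pool.Agent.H28G

open Pool.Agent.MP1bdb59 (Sep AbsGal emb resGal)
open Pool.Agent.MP1bdb59C

/-- If `AdjoinRoot f` is a field then so is `AdjoinRoot (f.scaleRoots d)`. -/
lemma irreducible_scaleRoots {K : Type*} [Field K] {f : K[X]} (hf : f.Monic)
    (hirr : Irreducible f) {d : K} (hd : d ≠ 0) : Irreducible (f.scaleRoots d) := by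
  have h1 : f = (f.scaleRoots d).scaleRoots d⁻¹ := by
    rw [← scaleRoots_mul, mul_inv_cancel₀ hd, scaleRoots_one]
  have hm : (f.scaleRoots d).Monic := by
    rw [monic_scaleRoots_iff]
    exact hf
  rw [hm.irreducible_iff_natDegree']
  rw [hf.irreducible_iff_natDegree'] at hirr
  refine ⟨?_, ?_⟩
  · intro h0
    apply hirr.1
    rw [h1, h0]
    exact one_scaleRoots _
  · intro p q hp hq hpq
    have h2 : (p.scaleRoots d⁻¹) * (q.scaleRoots d⁻¹) = f := by
      rw [h1, ← hpq]
      rw [mul_scaleRoots_of_noZeroDivisors]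
    have h3 := hirr.2 (p.scaleRoots d⁻¹) (q.scaleRoots d⁻¹) (by rwa [monic_scaleRoots_iff])
      (by rwa [monic_scaleRoots_iff]) h2
    rw [natDegree_scaleRoots] at h3 ⊢
    exact h3

/-- There is no rational point of order `ℓ`. -/
theorem no_torsion {K K' : Type*} [Field K] [Field K'] [Algebra K K'] [FiniteDimensional K K']
    [Algebra.IsSeparable K K'] {ℓ : ℕ} [hp : Fact ℓ.Prime] {ζ : K'} (hζ : IsPrimitiveRoot ζ ℓ)
    (g : K[X]) [hg : Good ℓ (g.map (algebraMap K K'))]
    (hirr : Irreducible (g.map (algebraMap K K'))) (t : Jac ℓ g K)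
    (ht : ∀ σ, act ℓ g K σ t = t) (hℓ : ℓ • t = 0) : t = 0 := by
  have hbij := BC.Phi_bijective (K' := K') ℓ g
  apply hbij.1
  rw [map_zero]
  refine eq_zero_of_ell hζ hirr (fun σ => ?_) ?_
  · rw [BC.act_Phi, ht]
  · rw [← map_nsmul, hℓ, map_zero]

end Pool.Agent.H28G
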