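import Mathlib

/-!
# The hypotheses after the extension of the constants
-/

open Polynomial

noncomputable section

open scoped Classical

namespace Pool.Agent.H28G


theorem exists_embedding {F₀ : Type*} [Field F₀] {ℓ : ℕ} [NeZero ℓ] [NeZero (ℓ : F₀)] (f : F₀[X])
    [hf : Fact (Irreducible f)] :
    ∃ ψ : AdjoinRoot (f.map (algebraMap F₀ (CyclotomicField ℓ F₀))) →+*
        CyclotomicField ℓ (AdjoinRoot f),
      ∀ x : F₀, ψ (AdjoinRoot.of _ (algebraMap F₀ (CyclotomicField ℓ F₀) x)) =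
        algebraMap F₀ (CyclotomicField ℓ (AdjoinRoot f)) x := by
  have hne : NeZero (ℓ : AdjoinRoot f) := by
    refine ⟨fun h => NeZero.ne (ℓ : F₀) ?_⟩
    apply (AdjoinRoot.of f).injective
    rw [map_natCast, map_zero]
    exact h
  have i1 : IsSplittingField (AdjoinRoot f) (CyclotomicField ℓ (AdjoinRoot f))
      (cyclotomic ℓ (AdjoinRoot f)) := IsCyclotomicExtension.splitting_field_cyclotomic ℓ _ _
  have i2 : IsSplittingField F₀ (CyclotomicField ℓ F₀) (cyclotomic ℓ F₀) :=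
    IsCyclotomicExtension.splitting_field_cyclotomic ℓ _ _
  have hs0 : Splits ((cyclotomic ℓ (AdjoinRoot f)).map
      (algebraMap (AdjoinRoot f) (CyclotomicField ℓ (AdjoinRoot f)))) :=
    IsSplittingField.splits _ _
  have hs : Splits ((cyclotomic ℓ F₀).map (algebraMap F₀ (CyclotomicField ℓ (AdjoinRoot f)))) := by
    rw [map_cyclotomic] at hs0 ⊢
    exact hs0
  let σ : CyclotomicField ℓ F₀ →ₐ[F₀] CyclotomicField ℓ (AdjoinRoot f) :=
    IsSplittingField.lift (CyclotomicField ℓ F₀) (cyclotomic ℓ F₀) hs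
  have h0 : eval₂ (σ : CyclotomicField ℓ F₀ →+* CyclotomicField ℓ (AdjoinRoot f))
      (algebraMap (AdjoinRoot f) (CyclotomicField ℓ (AdjoinRoot f)) (AdjoinRoot.root f))
      (f.map (algebraMap F₀ (CyclotomicField ℓ F₀))) = 0 := by
    have h1 : (σ : CyclotomicField ℓ F₀ →+* CyclotomicField ℓ (AdjoinRoot f)).comp
        (algebraMap F₀ (CyclotomicField ℓ F₀)) =
        (algebraMap (AdjoinRoot f) (CyclotomicField ℓ (AdjoinRoot f))).comp (AdjoinRoot.of f) := by
      ext x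
      change σ (algebraMap F₀ (CyclotomicField ℓ F₀) x) = _
      rw [σ.commutes, IsScalarTower.algebraMap_apply F₀ (AdjoinRoot f)
        (CyclotomicField ℓ (AdjoinRoot f))]
      rfl
    rw [eval₂_map, h1, ← hom_eval₂, AdjoinRoot.eval₂_root, map_zero]
  refine ⟨AdjoinRoot.lift (σ : CyclotomicField ℓ F₀ →+* CyclotomicField ℓ (AdjoinRoot f))
    (algebraMap (AdjoinRoot f) (CyclotomicField ℓ (AdjoinRoot f)) (AdjoinRoot.root f)) h0,
    fun x => ?_⟩
  rw [AdjoinRoot.lift_of]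
  exact σ.commutes x


theorem not_dvd_ext {k₀ F₀ k₁ F₁ : Type*} [Field k₀] [Field F₀] [Field k₁] [Field F₁]
    [Algebra k₀ F₀] [Algebra k₀ k₁] [Algebra k₁ F₁] [Algebra F₀ F₁] [Algebra k₀ F₁]
    [IsScalarTower k₀ k₁ F₁] [IsScalarTower k₀ F₀ F₁] [Algebra.IsAlgebraic k₀ k₁] {P : F₀[X]}
    (hP : Irreducible (P.map (algebraMap F₀ F₁)))
    (hPk : ∀ q : k₀[X], q ≠ 0 → ¬ P ∣ q.map (algebraMap k₀ F₀)) (q : k₁[X]) (hq : q ≠ 0) :
    ¬ P.map (algebraMap F₀ F₁) ∣ q.map (algebraMap k₁ F₁) := by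
  intro hdv
  have : Fact (Irreducible (P.map (algebraMap F₀ F₁))) := ⟨hP⟩
  set Q := P.map (algebraMap F₀ F₁) with hQ
  have h1 : aeval (AdjoinRoot.root Q) q = 0 := by
    rw [← aeval_map_algebraMap F₁, AdjoinRoot.aeval_eq, AdjoinRoot.mk_eq_zero]
    exact hdv
  have h2 : IsAlgebraic k₁ (AdjoinRoot.root Q) := ⟨q, hq, h1⟩
  have h3 : IsAlgebraic k₀ (AdjoinRoot.root Q) := h2.restrictScalars k₀
  obtain ⟨q₀, hq₀, h4⟩ := h3
  rw [← aeval_map_algebraMap F₁, AdjoinRoot.aeval_eq, AdjoinRoot.mk_eq_zero,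
    IsScalarTower.algebraMap_eq k₀ F₀ F₁, ← Polynomial.map_map, hQ, Polynomial.map_dvd_map'] at h4
  exact hPk q₀ hq₀ h4

/-- a polynomial over a field which becomes irreducible over an extension is irreducible -/
private theorem irr_of_map {K L : Type*} [Field K] [Field L] (φ : K →+* L) {p : K[X]}
    (h : Irreducible (p.map φ)) : Irreducible p := by
  have hp0 : p ≠ 0 := by
    rintro rfl
    rw [Polynomial.map_zero] at h
    exact not_irreducible_zero h
  refine ⟨fun hu => h.not_isUnit (hu.map (mapRingHom φ)), fun a b hab => ?_⟩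
  have h2 : p.map φ = a.map φ * b.map φ := by rw [hab, Polynomial.map_mul]
  have ha0 : a ≠ 0 := by rintro rfl; rw [zero_mul] at hab; exact hp0 hab
  have hb0 : b ≠ 0 := by rintro rfl; rw [mul_zero] at hab; exact hp0 hab
  rcases h.isUnit_or_isUnit h2 with hu | hu
  · left
    rw [isUnit_iff_degree_eq_zero, Polynomial.degree_map] at hu
    exact isUnit_iff_degree_eq_zero.mpr hu
  · right
    rw [isUnit_iff_degree_eq_zero, Polynomial.degree_map] at hu
    exact isUnit_iff_degree_eq_zero.mpr hu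

theorem irreducible_of_dvd {F₀ F₁ L' Ω : Type*} [Field F₀] [Field F₁] [Field L'] [Field Ω]
    (α : F₀ →+* F₁) (β : F₁ →+* L') (γ : L' →+* Ω) {D : F₀[X]} (hD0 : D ≠ 0)
    (hD : ∀ Q : F₀[X], Irreducible Q → Q ∣ D → Irreducible (Q.map (γ.comp (β.comp α))))
    (Q' : F₁[X]) (hQ' : Irreducible Q') (hQD : Q' ∣ D.map α) : Irreducible (Q'.map β) := by
  have key : ∀ E : F₀[X], E ≠ 0 → E ∣ D → Q' ∣ E.map α → ∃ Q : F₀[X], Irreducible Q ∧ Q ∣ D ∧
      Q' ∣ Q.map α := by
    intro E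
    refine WfDvdMonoid.induction_on_irreducible E ?_ ?_ ?_
    · intro h; exact absurd rfl h
    · intro u hu _ _ h
      exact absurd (isUnit_of_dvd_unit h (hu.map (mapRingHom α))) hQ'.not_isUnit
    · intro a i ha hi ih _ hd hdv
      rw [Polynomial.map_mul] at hdv
      rcases hQ'.prime.dvd_or_dvd hdv with h | h
      · exact ⟨i, hi, (dvd_mul_right i a).trans hd, h⟩
      · exact ih ha ((dvd_mul_left a i).trans hd) h
  obtain ⟨Q, hQ, hQD', hdv⟩ := key D hD0 dvd_rfl hQD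
  have h1 := hD Q hQ hQD'
  rw [← Polynomial.map_map, ← Polynomial.map_map] at h1
  have h2 : Irreducible ((Q.map α).map β) := irr_of_map γ h1
  have h3 : Irreducible (Q.map α) := irr_of_map β h2
  have h4 : Associated Q' (Q.map α) := hQ'.associated_of_dvd h3 hdv
  have h5 : Associated (Q'.map β) ((Q.map α).map β) := h4.map (mapRingHom β)
  exact h5.symm.irreducible h2

end Pool.Agent.H28G
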