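import Mathlib
import Pool.Agent.H28G.Inj

/-!
# Descent of classes in a tower
-/

open Polynomial

noncomputable section

open scoped Classical

namespace Pool.Agent.H28G

open Pool.Agent.MP1bdb59C

/-- A polynomial which is irreducible over an extension is irreducible. -/
lemma irreducible_of_map_field {F E : Type*} [Field F] [Field E] (σ : F →+* E) {p : F[X]}
    (h : Irreducible (p.map σ)) : Irreducible p := by
  have h0 : p ≠ 0 := by
    rintro rfl
    rw [Polynomial.map_zero] at h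
    exact h.ne_zero rfl
  refine IsPrimitive.irreducible_of_irreducible_map_of_injective σ.injective ?_ h
  rw [isPrimitive_iff_isUnit_of_C_dvd]
  intro r hr
  refine (?_ : r ≠ 0).isUnit
  rintro rfl
  rw [C_0, zero_dvd_iff] at hr
  exact h0 hr

/-- PROOF. `c₁` = the image of `c₀` over `E`; `exists_of_galois` for `N/E` and `c₁`, then
`exists_of_norm` for `E/F` (transport between `f.map (F → N)` and `(f.map (F → E)).map (E → N)` by
`lamMap (RingHom.id N)`). -/
theorem exists_of_tower {F E N : Type*} [Field F] [Field E] [Field N] [Algebra F E] [Algebra E N]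
    [Algebra F N] [IsScalarTower F E N] [FiniteDimensional F E] [FiniteDimensional E N]
    [IsGalois E N] {ℓ : ℕ} [hp : Fact ℓ.Prime] (hd : ¬ ℓ ∣ Module.finrank F E) {f : F[X]}
    (hf : f.Monic) (hirr : Irreducible f) (hirrN : Irreducible (f.map (algebraMap F N)))
    (hcop : ¬ ℓ ∣ f.natDegree) {ζ : E} (hζ : IsPrimitiveRoot ζ ℓ) {c₀ : AdjoinRoot f}
    (hc₀ : c₀ ≠ 0) {e : N} {b : AdjoinRoot (f.map (algebraMap F N))}
    (h : lamMap (algebraMap F N) (rfl : f.map (algebraMap F N) = _) c₀ =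
      AdjoinRoot.of _ e * b ^ ℓ) :
    ∃ (e₀ : F) (b₀ : AdjoinRoot f), c₀ = AdjoinRoot.of f e₀ * b₀ ^ ℓ := by
  have hmap : (f.map (algebraMap F E)).map (algebraMap E N) = f.map (algebraMap F N) := by
    rw [Polynomial.map_map, ← IsScalarTower.algebraMap_eq]
  have hirrN' : Irreducible ((f.map (algebraMap F E)).map (algebraMap E N)) := by
    rw [hmap]
    exact hirrN
  have hirrE : Irreducible (f.map (algebraMap F E)) := irreducible_of_map_field _ hirrN'
  have hfE : (f.map (algebraMap F E)).Monic := hf.map _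
  have i1 : Fact (Irreducible f) := ⟨hirr⟩
  have i2 : Fact (Irreducible (f.map (algebraMap F E))) := ⟨hirrE⟩
  have hc₁ : lamMap (algebraMap F E) (rfl : f.map (algebraMap F E) = _) c₀ ≠ 0 := by
    rw [Ne, map_eq_zero]
    exact hc₀
  have hid : (f.map (algebraMap F N)).map (RingHom.id N) =
      (f.map (algebraMap F E)).map (algebraMap E N) := by
    rw [Polynomial.map_id, hmap]
  have h1 := congrArg (lamMap (RingHom.id N) hid) h
  rw [map_mul, map_pow, lamMap_of'] at h1
  have h2 : lamMap (RingHom.id N) hid (lamMap (algebraMap F N) rfl c₀) =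
      lamMap (algebraMap E N) rfl (lamMap (algebraMap F E) (rfl : f.map (algebraMap F E) = _) c₀) := by
    obtain ⟨p, rfl⟩ := AdjoinRoot.mk_surjective c₀
    have h3 : (p.map (algebraMap F N)).map (RingHom.id N) =
        (p.map (algebraMap F E)).map (algebraMap E N) := by
      rw [Polynomial.map_id, Polynomial.map_map, ← IsScalarTower.algebraMap_eq]
    rw [lamMap_mk, lamMap_mk, lamMap_mk, lamMap_mk, h3]
  rw [h2] at h1
  obtain ⟨e₁, b₁, h3⟩ := exists_of_galois hfE hirrE hirrN' (by rwa [natDegree_map]) hζ hc₁ h1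
  exact exists_of_norm hd hf hirr hirrE hc₀ h3

/-- A prime with a root in the top of a tower. -/
theorem injP_of_tower {F E N : Type*} [Field F] [Field E] [Field N] [Algebra F E] [Algebra E N]
    [Algebra F N] [IsScalarTower F E N] [FiniteDimensional F E] [FiniteDimensional E N]
    [IsGalois E N] {ℓ : ℕ} [hp : Fact ℓ.Prime] (hd : ¬ ℓ ∣ Module.finrank F E) {f P : F[X]}
    (hf : f.Monic) (hirr : Irreducible f) (hirrN : Irreducible (f.map (algebraMap F N)))
    (hcop : ¬ ℓ ∣ f.natDegree) {ζ : E} (hζ : IsPrimitiveRoot ζ ℓ) {y : N}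
    (hy : aeval y P = 0) : InjP ℓ f P := by
  intro c₀ e b hc₀ h
  obtain ⟨τ, hτ⟩ : ∃ τ : AdjoinRoot P →+* N, τ.comp (AdjoinRoot.of P) = algebraMap F N := by
    refine ⟨AdjoinRoot.lift (algebraMap F N) y (by rwa [← aeval_def]), ?_⟩
    ext x
    rw [RingHom.comp_apply, AdjoinRoot.lift_of]
  have hmap : (f.map (AdjoinRoot.of P)).map τ = f.map (algebraMap F N) := by
    rw [Polynomial.map_map, hτ]
  have h1 := congrArg (lamMap τ hmap) h
  rw [map_mul, map_pow, lamMap_of'] at h1
  have h2 : lamMap τ hmap (lamMap (AdjoinRoot.of P) rfl c₀) = lamMap (algebraMap F N) rfl c₀ := by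
    obtain ⟨p, rfl⟩ := AdjoinRoot.mk_surjective c₀
    rw [lamMap_mk, lamMap_mk, lamMap_mk, Polynomial.map_map, hτ]
  rw [h2] at h1
  exact exists_of_tower hd hf hirr hirrN hcop hζ hc₀ h1

private theorem twr_embedding {F₀ N : Type*} [Field F₀] [Field N] [Algebra F₀ N] {ℓ : ℕ}
    (hℓ0 : 0 < ℓ) {ζ : N} (hζ : IsPrimitiveRoot ζ ℓ) :
    Nonempty (CyclotomicField ℓ F₀ →ₐ[F₀] N) := by
  have h1 : Splits ((cyclotomic ℓ F₀).map (algebraMap F₀ N)) := by
    rw [map_cyclotomic]
    exact (X_pow_sub_one_splits hζ).of_dvd (X_pow_sub_C_ne_zero hℓ0 1)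
      (cyclotomic.dvd_X_pow_sub_one ℓ N)
  have h2 : IsSplittingField F₀ (CyclotomicField ℓ F₀) (cyclotomic ℓ F₀) :=
    inferInstanceAs (IsSplittingField F₀ (cyclotomic ℓ F₀).SplittingField (cyclotomic ℓ F₀))
  exact ⟨IsSplittingField.lift (CyclotomicField ℓ F₀) (cyclotomic ℓ F₀) h1⟩

/-- PROOF. As `injP_cyclotomic` (Inj.lean), with `exists_of_tower` in place of
`exists_of_galois`: `F₁ = CyclotomicField ℓ F₀`, `E₁ = IntermediateField.adjoin E {ζ}` in `N`;
`F₁ → E₁` over `F₀` as `E₁` contains a primitive `ℓ`-th root of unity (`inj_embedding`, private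
there: copy it); `IsScalarTower F₁ E₁ N` by definition (`F₁ → N` through `E₁`); `N/E₁` is Galois;
`ℓ` does not divide `[E₁ : F₁]`, as `[E₁ : F₁] [F₁ : F₀] = [E₁ : E] [E : F₀]` and `[E₁ : E] ≤ ℓ - 1`
(the minimal polynomial of `ζ` divides the cyclotomic polynomial: see `frac_ext` in Fld.lean or
`hilbert_twist_all`). For `InjP`: push the equation over `AdjoinRoot (P.map ..)` to `N` by
`AdjoinRoot.lift` with `y`, see `injP_of_galois`. -/
theorem injP_tower {F₀ E N : Type*} [Field F₀] [Field E] [Field N] [Algebra F₀ E] [Algebra E N]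
    [Algebra F₀ N] [IsScalarTower F₀ E N] [FiniteDimensional F₀ E] [FiniteDimensional E N]
    [IsGalois E N] {ℓ : ℕ} [hp : Fact ℓ.Prime] (hd : ¬ ℓ ∣ Module.finrank F₀ E)
    (hℓ : (ℓ : F₀) ≠ 0) {f P : F₀[X]}
    (hf : f.Monic) (hirr : Irreducible (f.map (algebraMap F₀ (CyclotomicField ℓ F₀))))
    (hirrN : Irreducible (f.map (algebraMap F₀ N)))
    (hcop : ¬ ℓ ∣ f.natDegree) {ζ : N} (hζ : IsPrimitiveRoot ζ ℓ) {y : N}
    (hy : aeval y P = 0) :
    InjP ℓ (f.map (algebraMap F₀ (CyclotomicField ℓ F₀)))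
      (P.map (algebraMap F₀ (CyclotomicField ℓ F₀))) := by
  obtain ⟨E₁, hE₁⟩ : ∃ E₁ : IntermediateField E N, E₁ = IntermediateField.adjoin E {ζ} := ⟨_, rfl⟩
  have hζmem : ζ ∈ E₁ := by
    rw [hE₁]
    exact IntermediateField.mem_adjoin_simple_self E ζ
  have hζE : IsPrimitiveRoot (⟨ζ, hζmem⟩ : E₁) ℓ := by
    apply IsPrimitiveRoot.of_map_of_injective (f := algebraMap E₁ N)
    · exact hζ
    · exact (algebraMap E₁ N).injective
  have hfin : FiniteDimensional E E₁ := inferInstance
  have hst0 : IsScalarTower F₀ E E₁ := inferInstance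
  have hst00 : IsScalarTower F₀ E₁ N := IsScalarTower.of_algebraMap_eq fun x => by
    rw [IsScalarTower.algebraMap_apply F₀ E N, IsScalarTower.algebraMap_apply F₀ E E₁,
      ← IsScalarTower.algebraMap_apply E E₁ N]
  have hfin0 : FiniteDimensional F₀ E₁ := Module.Finite.trans E E₁
  obtain ⟨j⟩ := twr_embedding (F₀ := F₀) (N := E₁) hp.out.pos hζE
  let algE : Algebra (CyclotomicField ℓ F₀) E₁ := j.toRingHom.toAlgebra
  have hst1 : IsScalarTower F₀ (CyclotomicField ℓ F₀) E₁ :=
    IsScalarTower.of_algebraMap_eq fun x => (j.commutes x).symm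
  have hfd : FiniteDimensional (CyclotomicField ℓ F₀) E₁ := Module.Finite.right F₀ _ E₁
  let algN : Algebra (CyclotomicField ℓ F₀) N := ((algebraMap E₁ N).comp j.toRingHom).toAlgebra
  have hst2 : IsScalarTower (CyclotomicField ℓ F₀) E₁ N :=
    IsScalarTower.of_algebraMap_eq fun x => rfl
  have hst3 : IsScalarTower F₀ (CyclotomicField ℓ F₀) N :=
    IsScalarTower.of_algebraMap_eq fun x => by
      rw [IsScalarTower.algebraMap_apply (CyclotomicField ℓ F₀) E₁ N,
        ← IsScalarTower.algebraMap_apply F₀ (CyclotomicField ℓ F₀) E₁,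
        ← IsScalarTower.algebraMap_apply F₀ E₁ N]
  have hgal : IsGalois E₁ N := IsGalois.tower_top_intermediateField E₁
  have hfdN : FiniteDimensional E₁ N := inferInstance
  have hdeg : Module.finrank E E₁ < ℓ := by
    rw [hE₁, IntermediateField.adjoin.finrank (IsIntegral.of_finite E ζ)]
    have h1 : minpoly E ζ ∣ cyclotomic ℓ E := by
      apply minpoly.dvd
      have h2 : (cyclotomic ℓ N).IsRoot ζ := hζ.isRoot_cyclotomic hp.out.pos
      rw [aeval_def, ← eval_map, map_cyclotomic]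
      exact h2
    have h3 := natDegree_le_of_dvd h1 (cyclotomic_ne_zero ℓ E)
    rw [natDegree_cyclotomic, Nat.totient_prime hp.out] at h3
    have := hp.out.pos
    omega
  have hd1 : ¬ ℓ ∣ Module.finrank (CyclotomicField ℓ F₀) E₁ := by
    intro hdvd
    have h1 := Module.finrank_mul_finrank F₀ (CyclotomicField ℓ F₀) E₁
    have h2 := Module.finrank_mul_finrank F₀ E E₁
    have h3 : ℓ ∣ Module.finrank F₀ E * Module.finrank E E₁ := by
      rw [h2, ← h1]
      exact Dvd.dvd.mul_left hdvd _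
    rcases hp.out.dvd_mul.mp h3 with h4 | h4
    · exact hd h4
    · exact absurd (Nat.le_of_dvd Module.finrank_pos h4) (by omega)
  refine injP_of_tower (E := E₁) (N := N) hd1 (hf.map _) hirr ?_ ?_ hζE (y := y) ?_
  · rw [Polynomial.map_map, ← IsScalarTower.algebraMap_eq]
    exact hirrN
  · rw [natDegree_map]
    exact hcop
  · rw [aeval_map_algebraMap]
    exact hy

end Pool.Agent.H28G
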