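import Mathlib
import Pool.Agent.MP1bdb59C.BC
import Pool.Agent.H28G.Sel
import Pool.Agent.H28G.Geo
import Pool.Agent.H28G.Fld
import Pool.Agent.H28G.Trn
import Pool.Agent.H28G.Tor
import Pool.Agent.H28G.Twr

/-!
# The twist by a rational function
-/

open Polynomial

noncomputable section

open scoped Classical

namespace Pool.Agent.H28G

open Pool.Agent.MP1bdb59 (Sep AbsGal emb resGal Place Completion placeOf TateModule)
open Pool.Agent.MP1bdb59C

universe u v w

variable {k₀ F₀ : Type*} {k : Type u} {K : Type v} [Field k₀] [Field F₀] [Algebra k₀ F₀]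
  [Field k] [Field K] [Algebra k₀[X] k] [IsFractionRing k₀[X] k] [Algebra F₀[X] K]
  [IsFractionRing F₀[X] K] [Algebra k K] {ℓ : ℕ} [hp : Fact ℓ.Prime]

/-- The twist by a rational function, given the extensions of the constants. -/
theorem twist_aux
    (hcomp : ∀ q : k₀[X], algebraMap k K (algebraMap k₀[X] k q) =
      algebraMap F₀[X] K (q.map (algebraMap k₀ F₀)))
    (hℓ : (ℓ : k₀) ≠ 0) {f : F₀[X]} (hf : f.Monic) (hirr : Irreducible f)
    (hsep : f.Separable) (hcop : ¬ ℓ ∣ f.natDegree)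
    (hreg : ∀ x : AdjoinRoot f, IsAlgebraic k₀ x → x ∈ Set.range (algebraMap k₀ (AdjoinRoot f)))
    {F₁ K' k' Ω : Type*} [Field F₁] [Algebra F₀ F₁] [Algebra k₀ F₁] [IsScalarTower k₀ F₀ F₁]
    [FiniteDimensional F₀ F₁] {ζ : F₁} (hζs : IsPrimitiveRoot ζ ℓ)
    (htop : IntermediateField.adjoin F₀ {ζ} = ⊤) [Field K'] [Field k'] [Algebra F₁[X] K']
    [IsFractionRing F₁[X] K'] [Algebra (IntermediateField.adjoin k₀ {ζ})[X] k']
    [IsFractionRing (IntermediateField.adjoin k₀ {ζ})[X] k'] [Field Ω]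
    (γ : AdjoinRoot (f.map (algebraMap F₀ F₁)) →+* Ω)
    {D : F₀[X]} (hD0 : D ≠ 0)
    (hD : ∀ Q : F₀[X], Irreducible Q → Q ∣ D →
      Irreducible (Q.map (γ.comp ((AdjoinRoot.of (f.map (algebraMap F₀ F₁))).comp
        (algebraMap F₀ F₁)))))
    {P D' : F₀[X]} {j : ℕ} (hP : Irreducible P)
    (hPk : ∀ q : k₀[X], q ≠ 0 → ¬ P ∣ q.map (algebraMap k₀ F₀)) (hI : InjP ℓ (f.map (algebraMap F₀ F₁)) (P.map (algebraMap F₀ F₁)))
    (hj : ¬ ℓ ∣ j) (hD' : ¬ P ∣ D') (hPD : D = P ^ j * D')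
    {w : k} (hw : w ≠ 0) (g : K[X])
    (hg : g = (f.map ((algebraMap F₀[X] K).comp C)).scaleRoots
      (algebraMap k K w * algebraMap F₀[X] K D)) :
    (∀ ξ ∈ Sha k ℓ g, ℓ • ξ = 0 → ξ = 0) ∧
      (∀ t : Jac ℓ g K, (∀ σ, act ℓ g K σ t = t) →
        ∃ s : Jac ℓ g K, (∀ σ, act ℓ g K σ s = s) ∧ ℓ • s = t) ∧
      (∀ t : Jac ℓ g K, (∀ σ, act ℓ g K σ t = t) → ℓ • t = 0 → t = 0) := by
  have hℓ' := hp.out
  have hℓF : (ℓ : F₀) ≠ 0 := by
    intro h0
    apply hℓ
    apply (algebraMap k₀ F₀).injective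
    rw [map_natCast, h0, map_zero]
  have hζint : IsIntegral k₀ ζ := by
    refine ⟨X ^ ℓ - 1, monic_X_pow_sub_C 1 hℓ'.ne_zero, ?_⟩
    rw [eval₂_sub, eval₂_pow, eval₂_X, eval₂_one, hζs.pow_eq_one, sub_self]
  have hsepζ : IsSeparable k₀ ζ := by
    have h1 : (X ^ ℓ - 1 : k₀[X]).Separable := by
      have h2 := separable_X_pow_sub_C (1 : k₀) hℓ one_ne_zero
      rwa [C_1] at h2
    refine h1.of_dvd (minpoly.dvd k₀ ζ ?_)
    rw [map_sub, map_pow, aeval_X, map_one, hζs.pow_eq_one, sub_self]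
  have i6 : FiniteDimensional k₀ (IntermediateField.adjoin k₀ {ζ}) :=
    IntermediateField.adjoin.finiteDimensional hζint
  have hζ' : IsPrimitiveRoot (IntermediateField.AdjoinSimple.gen k₀ ζ) ℓ := by
    apply IsPrimitiveRoot.of_map_of_injective
      (f := algebraMap (IntermediateField.adjoin k₀ {ζ}) F₁) _ (RingHom.injective _)
    rw [IntermediateField.AdjoinSimple.algebraMap_gen]
    exact hζs
  have hirr' := irreducible_ext' hζint htop hf hirr hreg
  have i8 := Fact.mk hirr'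
  have hcl := closed_ext' hζint htop hf hirr hreg hsepζ
  obtain ⟨φ, hφ⟩ := exists_frac_hom (F₀ := IntermediateField.adjoin k₀ {ζ}) (F₁ := F₁) (K := k')
    (K' := K')
  let j1 : Algebra k' K' := φ.toAlgebra
  obtain ⟨ψ, hψ⟩ := exists_frac_hom (F₀ := F₀) (F₁ := F₁) (K := K) (K' := K')
  let j2 : Algebra K K' := ψ.toAlgebra
  obtain ⟨χ, hχ⟩ := exists_frac_hom (F₀ := k₀) (F₁ := IntermediateField.adjoin k₀ {ζ}) (K := k)
    (K' := k')
  let j3 : Algebra k k' := χ.toAlgebra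
  let j4 : Algebra k K' := (ψ.comp (algebraMap k K)).toAlgebra
  have t1 : IsScalarTower k K K' := IsScalarTower.of_algebraMap_eq (fun x => rfl)
  have hmm : ∀ q : k₀[X], (q.map (algebraMap k₀ F₀)).map (algebraMap F₀ F₁) =
      (q.map (algebraMap k₀ (IntermediateField.adjoin k₀ {ζ}))).map
        (algebraMap (IntermediateField.adjoin k₀ {ζ}) F₁) := by
    intro q
    rw [Polynomial.map_map, Polynomial.map_map, ← IsScalarTower.algebraMap_eq,
      ← IsScalarTower.algebraMap_eq]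
  have t2 : IsScalarTower k k' K' := by
    apply IsScalarTower.of_algebraMap_eq
    intro x
    obtain ⟨a, b, hb, rfl⟩ := IsFractionRing.div_surjective k₀[X] x
    change ψ (algebraMap k K _) = φ (χ _)
    have key : ∀ q : k₀[X], ψ (algebraMap k K (algebraMap k₀[X] k q)) =
        φ (χ (algebraMap k₀[X] k q)) := by
      intro q
      rw [hcomp, hψ, hχ, hφ, hmm]
    rw [map_div₀, map_div₀, map_div₀, map_div₀, key, key]
  obtain ⟨e1, e2, e3⟩ := frac_ext (F₀ := F₀) (F₁ := F₁) (K := K) (K' := K') hψ hℓF hζs htop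
  have hP0 : P ∣ D := by
    rw [hPD]
    refine Dvd.dvd.mul_right (dvd_pow_self P ?_) _
    rintro rfl
    exact hj (dvd_zero _)
  have hirrD := irreducible_of_dvd (algebraMap F₀ F₁) (AdjoinRoot.of (f.map (algebraMap F₀ F₁)))
    γ hD0 hD
  have hP' : Irreducible (P.map (algebraMap F₀ F₁)) := by
    have h1 := hD P hP hP0
    rw [← Polynomial.map_map, ← Polynomial.map_map] at h1
    exact irreducible_of_map_field _ (irreducible_of_map_field _ h1)
  have hgg : g.map (algebraMap K K') =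
      ((f.map (algebraMap F₀ F₁)).map ((algebraMap F₁[X] K').comp C)).scaleRoots
        (algebraMap k' K' (algebraMap k k' w) *
          algebraMap F₁[X] K' (D.map (algebraMap F₀ F₁))) := by
    rw [hg, map_scaleRoots _ _ _ (by
      rw [(hf.map _).leadingCoeff, map_one]; exact one_ne_zero), Polynomial.map_map,
      Polynomial.map_map, map_mul]
    congr 1
    · congr 1
      ext x
      change ψ (algebraMap F₀[X] K (C x)) = algebraMap F₁[X] K' (C (algebraMap F₀ F₁ x))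
      rw [hψ, map_C]
    · rw [← IsScalarTower.algebraMap_apply k k' K', IsScalarTower.algebraMap_apply k K K']
      congr 1
      exact hψ D
  have hw' : algebraMap k k' w ≠ 0 := by rwa [Ne, map_eq_zero]
  have hDm : D.map (algebraMap F₀ F₁) ≠ 0 :=
    (Polynomial.map_ne_zero_iff (algebraMap F₀ F₁).injective).mpr hD0
  have hd0 : algebraMap k' K' (algebraMap k k' w) *
      algebraMap F₁[X] K' (D.map (algebraMap F₀ F₁)) ≠ 0 := by
    refine mul_ne_zero ?_ ?_
    · rwa [Ne, map_eq_zero]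
    · rwa [Ne, IsFractionRing.to_map_eq_zero_iff]
  have hirrf : Irreducible ((f.map (algebraMap F₀ F₁)).map ((algebraMap F₁[X] K').comp C)) := by
    rw [← Polynomial.map_map]
    exact irreducible_const (hf.map _) hirr'
  have hirrg : Irreducible (g.map (algebraMap K K')) := by
    rw [hgg]
    exact irreducible_scaleRoots ((hf.map _).map _) hirrf hd0
  have hgood : Good ℓ (g.map (algebraMap K K')) := by
    refine ⟨?_, ?_, ?_⟩
    · rw [hgg, monic_scaleRoots_iff]
      exact (hf.map _).map _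
    · rw [hgg]
      refine separable_scaleRoots hsep.map.map hd0 hirrf ?_
      rw [← hgg]
      exact hirrg
    · rw [hgg, natDegree_scaleRoots, natDegree_map, natDegree_map]
      exact hcop
  have hζK' : IsPrimitiveRoot (algebraMap F₁[X] K' (C ζ)) ℓ :=
    hζs.map_of_injective (f := (algebraMap F₁[X] K').comp C) (RingHom.injective _)
  have hmain := twist_D (k₀ := IntermediateField.adjoin k₀ {ζ}) (F₀ := F₁) (k := k') (K := K')
    (ℓ := ℓ) hφ hζ' (hf.map (algebraMap F₀ F₁)) hirr' hsep.map (by rwa [hf.natDegree_map]) hcl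
    (D := D.map (algebraMap F₀ F₁))
    hDm hirrD
    (P := P.map (algebraMap F₀ F₁)) (D' := D'.map (algebraMap F₀ F₁)) (j := j) hP'
    (not_dvd_ext hP' hPk) hI hj
    (by rwa [Polynomial.map_dvd_map']) (by rw [hPD, Polynomial.map_mul, Polynomial.map_pow])
    (w := algebraMap k k' w) hw' (g.map (algebraMap K K')) hgg
  obtain ⟨r1, r2⟩ := descend_baseChange (k := k) (k' := k') e3 g hmain.1 hmain.2
  exact ⟨r1, r2, fun t => no_torsion hζK' g hirrg t⟩

/-- **The twist by a rational function.** -/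
theorem twist_all
    (hcomp : ∀ q : k₀[X], algebraMap k K (algebraMap k₀[X] k q) =
      algebraMap F₀[X] K (q.map (algebraMap k₀ F₀)))
    (hℓ : (ℓ : k₀) ≠ 0) {f : F₀[X]} (hf : f.Monic) [hirr : Fact (Irreducible f)]
    (hsep : f.Separable) (hcop : ¬ ℓ ∣ f.natDegree)
    (hreg : ∀ x : AdjoinRoot f, IsAlgebraic k₀ x → x ∈ Set.range (algebraMap k₀ (AdjoinRoot f)))
    {D : F₀[X]} (hD0 : D ≠ 0)
    (hD : ∀ Q : F₀[X], Irreducible Q → Q ∣ D →
      Irreducible (Q.map (algebraMap F₀ (CyclotomicField ℓ (AdjoinRoot f)))))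
    {P D' : F₀[X]} {j : ℕ} (hP : Irreducible P)
    (hPk : ∀ q : k₀[X], q ≠ 0 → ¬ P ∣ q.map (algebraMap k₀ F₀))
    (hPℓ : ¬ ℓ ∣ P.natDegree ∨ ∃ (N : Type w) (_ : Field N) (_ : Algebra F₀ N)
      (E : IntermediateField F₀ N), FiniteDimensional F₀ N ∧ ¬ ℓ ∣ Module.finrank F₀ E ∧
      IsGalois E N ∧ (∃ ζ : N, IsPrimitiveRoot ζ ℓ) ∧ (∃ y : N, aeval y P = 0) ∧
      Irreducible (f.map (algebraMap F₀ N)))
    (hj : ¬ ℓ ∣ j) (hD' : ¬ P ∣ D') (hPD : D = P ^ j * D')
    {w : k} (hw : w ≠ 0) (g : K[X])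
    (hg : g = (f.map ((algebraMap F₀[X] K).comp C)).scaleRoots
      (algebraMap k K w * algebraMap F₀[X] K D)) :
    (∀ ξ ∈ Sha k ℓ g, ℓ • ξ = 0 → ξ = 0) ∧
      (∀ t : Jac ℓ g K, (∀ σ, act ℓ g K σ t = t) →
        ∃ s : Jac ℓ g K, (∀ σ, act ℓ g K σ s = s) ∧ ℓ • s = t) ∧
      (∀ t : Jac ℓ g K, (∀ σ, act ℓ g K σ t = t) → ℓ • t = 0 → t = 0) := by
  have hℓ' := hp.out
  have hn1 : NeZero ℓ := ⟨hℓ'.ne_zero⟩
  have hℓF : (ℓ : F₀) ≠ 0 := by
    intro h0
    apply hℓ
    apply (algebraMap k₀ F₀).injective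
    rw [map_natCast, h0, map_zero]
  have hn2 : NeZero (ℓ : F₀) := ⟨hℓF⟩
  have c1 : IsCyclotomicExtension {ℓ} F₀ (CyclotomicField ℓ F₀) :=
    CyclotomicField.isCyclotomicExtension ℓ F₀
  have i1 : FiniteDimensional F₀ (CyclotomicField ℓ F₀) :=
    IsCyclotomicExtension.finiteDimensional {ℓ} F₀ (CyclotomicField ℓ F₀)
  have hζs := IsCyclotomicExtension.zeta_spec ℓ F₀ (CyclotomicField ℓ F₀)
  have htop : IntermediateField.adjoin F₀
      {IsCyclotomicExtension.zeta ℓ F₀ (CyclotomicField ℓ F₀)} = ⊤ := by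
    apply IntermediateField.adjoin_eq_top_of_algebra
    exact IsCyclotomicExtension.adjoin_primitive_root_eq_top hζs
  have hζint : IsIntegral k₀ (IsCyclotomicExtension.zeta ℓ F₀ (CyclotomicField ℓ F₀)) := by
    refine ⟨X ^ ℓ - 1, monic_X_pow_sub_C 1 hℓ'.ne_zero, ?_⟩
    rw [eval₂_sub, eval₂_pow, eval₂_X, eval₂_one, hζs.pow_eq_one, sub_self]
  obtain ⟨γ, hγ⟩ := exists_embedding (ℓ := ℓ) f
  have hγ' : algebraMap F₀ (CyclotomicField ℓ (AdjoinRoot f)) =
      γ.comp ((AdjoinRoot.of (f.map (algebraMap F₀ (CyclotomicField ℓ F₀)))).comp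
        (algebraMap F₀ (CyclotomicField ℓ F₀))) := by
    ext x
    exact (hγ x).symm
  rw [hγ'] at hD
  have hirr' : Irreducible (f.map (algebraMap F₀ (CyclotomicField ℓ F₀))) :=
    irreducible_ext' hζint htop hf hirr.out hreg
  have i8 := Fact.mk hirr'
  have hI : InjP ℓ (f.map (algebraMap F₀ (CyclotomicField ℓ F₀)))
      (P.map (algebraMap F₀ (CyclotomicField ℓ F₀))) := by
    rcases hPℓ with hPℓ | ⟨N, _, _, E, n1, hE, n2, ⟨ζ, hζ⟩, ⟨y, hy⟩, hN⟩
    · have hP0 : P ∣ D := by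
        rw [hPD]
        refine Dvd.dvd.mul_right (dvd_pow_self P ?_) _
        rintro rfl
        exact hj (dvd_zero _)
      have h1 := hD P hP hP0
      rw [← Polynomial.map_map, ← Polynomial.map_map] at h1
      have h2 := irreducible_of_map_field _ h1
      exact injP_of_norm (hf.map _) hirr' (irreducible_of_map_field _ h2) h2
        (by rwa [natDegree_map])
    · exact injP_tower (E := E) hE hℓF hf hirr' hN hcop hζ hy
  exact twist_aux (K' := FractionRing (CyclotomicField ℓ F₀)[X])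
    (k' := FractionRing (IntermediateField.adjoin k₀
      {IsCyclotomicExtension.zeta ℓ F₀ (CyclotomicField ℓ F₀)})[X])
    hcomp hℓ hf hirr.out hsep hcop hreg hζs htop γ hD0 hD hP hPk hI hj hD' hPD hw g hg

end Pool.Agent.H28G
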