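import Mathlib
import Pool.Agent.MP1bdb59C.Gen

/-!
# The twist by an `ℓ`-th power
-/

open Polynomial

noncomputable section

open scoped Classical

namespace Pool.Agent.H28G

open Pool.Agent.MP1bdb59 (Sep AbsGal emb resGal emb_resGal Place Completion placeOf TateModule)
open Pool.Agent.MP1bdb59C

universe u v

section Sc

variable {A : Type v} [CommRing A] (ℓ : ℕ) {g₀ g : A[X]} {a : A}

lemma comp_eq (hg : g = g₀.scaleRoots (a ^ ℓ)) :
    g.comp (C (a ^ ℓ) * X) = C (a ^ g₀.natDegree) ^ ℓ * g₀ := by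
  have h := scaleRoots_eval₂_mul (p := g₀) (C : A →+* A[X]) X (a ^ ℓ)
  rw [hg, comp, h, eval₂_C_X, ← C_pow, ← C_pow, ← pow_mul, ← pow_mul, mul_comm ℓ]

/-- `x ↦ a^ℓ x`, `y ↦ a^n y`. -/
def sciHom (hg : g = g₀.scaleRoots (a ^ ℓ)) : CoordRing ℓ g →+* CoordRing ℓ g₀ :=
  AdjoinRoot.lift ((of g₀ : A[X] →+* CoordRing ℓ g₀).comp (compRingHom (C (a ^ ℓ) * X)))
    (of g₀ (C (a ^ g₀.natDegree)) * yy) (by
      rw [eval₂_sub, eval₂_pow, eval₂_X, eval₂_C, RingHom.comp_apply, coe_compRingHom_apply,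
        comp_eq ℓ hg, mul_pow, yy_pow, ← map_pow (of g₀), ← map_mul (of g₀), sub_self])

lemma sci_of (hg : g = g₀.scaleRoots (a ^ ℓ)) (p : A[X]) :
    sciHom ℓ hg (of g p) = of g₀ (p.comp (C (a ^ ℓ) * X)) := AdjoinRoot.lift_of _

lemma sci_yy (hg : g = g₀.scaleRoots (a ^ ℓ)) :
    sciHom ℓ hg yy = of g₀ (C (a ^ g₀.natDegree)) * yy := AdjoinRoot.lift_root _

lemma sci_sci (hg : g = g₀.scaleRoots (a ^ ℓ)) {b : A} (hab : a * b = 1)
    (hg' : g₀ = g.scaleRoots (b ^ ℓ)) :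
    (sciHom ℓ hg').comp (sciHom ℓ hg) = RingHom.id _ := by
  have hn : g.natDegree = g₀.natDegree := by rw [hg, natDegree_scaleRoots]
  apply Pool.Agent.MP1bdb59C.ringHom_ext
  · intro p
    rw [RingHom.comp_apply, sci_of, sci_of, comp_assoc, mul_comp, C_comp, X_comp, ← mul_assoc,
      ← C_mul, ← mul_pow, hab, one_pow, C_1, one_mul, comp_X]
    rfl
  · rw [RingHom.comp_apply, sci_yy, map_mul, sci_of, sci_yy, C_comp, hn, ← mul_assoc, ← map_mul,
      ← C_mul, ← mul_pow, hab, one_pow, C_1, map_one, one_mul]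
    rfl

lemma sci_coordMap {A' : Type u} [CommRing A'] (φ : A →+* A') {g₀' g' : A'[X]} {a' : A'}
    (ha : φ a = a') (h₀ : g₀.map φ = g₀') (h : g.map φ = g')
    (hn : g₀'.natDegree = g₀.natDegree) (hg : g = g₀.scaleRoots (a ^ ℓ))
    (hg' : g' = g₀'.scaleRoots (a' ^ ℓ)) :
    (sciHom ℓ hg').comp (coordMap ℓ φ h) = (coordMap ℓ φ h₀).comp (sciHom ℓ hg) := by
  apply Pool.Agent.MP1bdb59C.ringHom_ext
  · intro p
    rw [RingHom.comp_apply, RingHom.comp_apply, coordMap_of, sci_of, sci_of, coordMap_of,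
      Polynomial.map_comp, Polynomial.map_mul, map_C, map_X, map_pow φ, ha]
  · rw [RingHom.comp_apply, RingHom.comp_apply, coordMap_yy, sci_yy, sci_yy, map_mul,
      coordMap_of, coordMap_yy, map_C, map_pow φ, ha, hn]

/-- The map of the Picard groups. -/
def sciPic (hg : g = g₀.scaleRoots (a ^ ℓ)) :
    Additive (CommRing.Pic (CoordRing ℓ g)) →+ Additive (CommRing.Pic (CoordRing ℓ g₀)) :=
  (CommRing.Pic.mapRingHom (sciHom ℓ hg)).toAdditive

lemma sciPic_sciPic (hg : g = g₀.scaleRoots (a ^ ℓ)) {b : A} (hab : a * b = 1)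
    (hg' : g₀ = g.scaleRoots (b ^ ℓ)) (t : Additive (CommRing.Pic (CoordRing ℓ g))) :
    sciPic ℓ hg' (sciPic ℓ hg t) = t := by
  have h1 := CommRing.Pic.mapRingHom_mapRingHom (f := sciHom ℓ hg) (g := sciHom ℓ hg')
    (M := t.toMul)
  rw [sci_sci ℓ hg hab hg', CommRing.Pic.mapRingHom_id] at h1
  exact h1

lemma sciPic_bijective (hg : g = g₀.scaleRoots (a ^ ℓ)) {b : A} (hab : a * b = 1) :
    Function.Bijective (sciPic ℓ hg) := by
  have hg' : g₀ = g.scaleRoots (b ^ ℓ) := by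
    rw [hg, ← scaleRoots_mul, ← mul_pow, hab, one_pow, scaleRoots_one]
  constructor
  · intro x y hxy
    rw [← sciPic_sciPic ℓ hg hab hg' x, hxy, sciPic_sciPic ℓ hg hab hg' y]
  · intro y
    exact ⟨sciPic ℓ hg' y, sciPic_sciPic ℓ hg' (by rw [mul_comm]; exact hab) hg y⟩

lemma sciPic_picMap {A' : Type u} [CommRing A'] (φ : A →+* A') {g₀' g' : A'[X]} {a' : A'}
    (ha : φ a = a') (h₀ : g₀.map φ = g₀') (h : g.map φ = g')
    (hn : g₀'.natDegree = g₀.natDegree) (hg : g = g₀.scaleRoots (a ^ ℓ))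
    (hg' : g' = g₀'.scaleRoots (a' ^ ℓ)) (t : Additive (CommRing.Pic (CoordRing ℓ g))) :
    sciPic ℓ hg' (picMap ℓ φ h t) = picMap ℓ φ h₀ (sciPic ℓ hg t) := by
  have h1 := CommRing.Pic.mapRingHom_mapRingHom (f := coordMap ℓ φ h) (g := sciHom ℓ hg')
    (M := t.toMul)
  have h2 := CommRing.Pic.mapRingHom_mapRingHom (f := sciHom ℓ hg) (g := coordMap ℓ φ h₀)
    (M := t.toMul)
  rw [sci_coordMap ℓ φ ha h₀ h hn hg hg', ← h2] at h1
  exact h1

end Sc

/-- The curves `y^ℓ = g₀(x)` and `y^ℓ = e^(nℓ) g₀(x/e^ℓ)` are isomorphic. -/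
theorem exists_iso {K : Type v} [Field K] (ℓ : ℕ) {g₀ : K[X]} (hg₀ : g₀.Monic) {e : K}
    (he : e ≠ 0) {g : K[X]} (hg : g = g₀.scaleRoots (e ^ ℓ)) :
    ∃ Φ : ∀ (F : Type v) [Field F] [Algebra K F], Jac ℓ g F →+ Jac ℓ g₀ F,
      (∀ (F : Type v) [Field F] [Algebra K F], Function.Bijective (Φ F)) ∧
      (∀ (F : Type v) [Field F] [Algebra K F] (σ : AbsGal F) (t : Jac ℓ g F),
        Φ F (act ℓ g F σ t) = act ℓ g₀ F σ (Φ F t)) ∧
      (∀ (F : Type v) [Field F] [Algebra K F] (t : Jac ℓ g K),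
        Φ F (embJac ℓ g F t) = embJac ℓ g₀ F (Φ K t)) := by
  have hF : ∀ (F : Type v) [Field F] [Algebra K F], g.map (algebraMap K (Sep F)) =
      (g₀.map (algebraMap K (Sep F))).scaleRoots ((algebraMap K (Sep F) e) ^ ℓ) := by
    intro F _ _
    rw [hg, map_scaleRoots _ _ _ (by rw [hg₀.leadingCoeff, map_one]; exact one_ne_zero), map_pow]
  have hn : ∀ (F F' : Type v) [Field F] [Algebra K F] [Field F'] [Algebra K F'],
      (g₀.map (algebraMap K (Sep F'))).natDegree = (g₀.map (algebraMap K (Sep F))).natDegree := by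
    intro F F' _ _ _ _
    rw [natDegree_map, natDegree_map]
  refine ⟨fun F _ _ => sciPic ℓ (hF F), fun F _ _ => ?_, fun F _ _ σ t => ?_, fun F _ _ t => ?_⟩
  · refine sciPic_bijective ℓ (hF F) (b := (algebraMap K (Sep F) e)⁻¹) ?_
    rw [mul_inv_cancel₀]
    rwa [Ne, map_eq_zero]
  · refine sciPic_picMap ℓ _ ?_ _ _ rfl (hF F) (hF F) t
    rw [IsScalarTower.algebraMap_apply K F (Sep F)]
    exact σ.commutes _
  · exact sciPic_picMap ℓ _ ((emb K F).commutes e) _ _ (hn K F) (hF K) (hF F) t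

private lemma iso_nsmul_cls {K : Type u} [Field K] (ℓ : ℕ) (f : K[X]) (F : Type v) [Field F]
    [Algebra K F] (n : ℕ) (c : AbsGal F → Jac ℓ f F) :
    n • cls ℓ f F c = cls ℓ f F (fun σ => n • c σ) := by
  induction n with
  | zero =>
    rw [zero_nsmul]
    have : (fun σ => 0 • c σ) = (0 : AbsGal F → Jac ℓ f F) := by
      funext σ
      rw [zero_nsmul]
      rfl
    rw [this]
    rfl
  | succ n ih =>
    rw [succ_nsmul, ih, ← cls_add]
    congr 1
    funext σ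
    rw [Pi.add_apply, succ_nsmul]

/-- PROOF. Copy `transfer` and `transfer_div` of Pool/Agent/SJac/Transfer.lean, with `Φ` of
`exists_iso` in place of `toOld`. -/
theorem transport {k : Type u} {K : Type v} [Field k] [Field K] [Algebra k K] (ℓ : ℕ) {g₀ : K[X]}
    (hg₀ : g₀.Monic) {e : K} (he : e ≠ 0) {g : K[X]} (hg : g = g₀.scaleRoots (e ^ ℓ))
    (H : (∀ ξ ∈ Sha k ℓ g₀, ℓ • ξ = 0 → ξ = 0) ∧
      (∀ t : Jac ℓ g₀ K, (∀ σ, act ℓ g₀ K σ t = t) →
        ∃ s : Jac ℓ g₀ K, (∀ σ, act ℓ g₀ K σ s = s) ∧ ℓ • s = t) ∧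
      (∀ t : Jac ℓ g₀ K, (∀ σ, act ℓ g₀ K σ t = t) → ℓ • t = 0 → t = 0)) :
    (∀ ξ ∈ Sha k ℓ g, ℓ • ξ = 0 → ξ = 0) ∧
      (∀ t : Jac ℓ g K, (∀ σ, act ℓ g K σ t = t) →
        ∃ s : Jac ℓ g K, (∀ σ, act ℓ g K σ s = s) ∧ ℓ • s = t) ∧
      (∀ t : Jac ℓ g K, (∀ σ, act ℓ g K σ t = t) → ℓ • t = 0 → t = 0) := by
  obtain ⟨Φ, hb, hact, hemb⟩ := exists_iso ℓ hg₀ he hg
  obtain ⟨H1, H2, H3⟩ := H
  -- vanishing of classes
  have hcls : ∀ (F : Type v) [Field F] [Algebra K F] (c : AbsGal F → Jac ℓ g F),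
      cls ℓ g F c = 0 ↔ cls ℓ g₀ F (fun σ => Φ F (c σ)) = 0 := by
    intro F _ _ c
    rw [cls_eq_zero_iff, cls_eq_zero_iff]
    constructor
    · rintro ⟨P, hP⟩
      refine ⟨Φ F P, fun σ => ?_⟩
      rw [hP, map_sub, hact]
    · rintro ⟨P, hP⟩
      obtain ⟨P', rfl⟩ := (hb F).2 P
      refine ⟨P', fun σ => ?_⟩
      apply (hb F).1
      rw [hP, map_sub, hact]
  refine ⟨?_, ?_, ?_⟩
  · rintro ξ ⟨⟨c, hc, rfl⟩, hloc⟩ hn
    rw [hcls]
    apply H1
    · refine ⟨⟨_, ?_, rfl⟩, ?_⟩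
      · refine ⟨hc.1.comp _, fun σ τ => ?_⟩
        change Φ K (c (σ * τ)) = _
        rw [hc.2, map_add, hact]
      · refine AddSubgroup.mem_iInf.mpr fun v => ?_
        have h2 : cls ℓ g (Completion v) (fun σ => embJac ℓ g (Completion v)
            (c (resGal K (Completion v) σ))) = 0 := by
          rw [← res_cls]
          exact AddSubgroup.mem_iInf.mp hloc v
        rw [hcls] at h2
        change res ℓ g₀ (Completion v) _ = 0
        rw [res_cls, ← h2]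
        congr 1
        funext σ
        exact (hemb (Completion v) _).symm
    · rw [iso_nsmul_cls, hcls] at hn
      rw [iso_nsmul_cls, ← hn]
      congr 1
      funext σ
      exact (map_nsmul (Φ K) ℓ (c σ)).symm
  · intro t ht
    obtain ⟨s, hs, hst⟩ := H2 (Φ K t) (fun σ => by rw [← hact, ht])
    obtain ⟨s', rfl⟩ := (hb K).2 s
    refine ⟨s', fun σ => ?_, ?_⟩
    · apply (hb K).1
      rw [hact, hs]
    · apply (hb K).1
      rw [map_nsmul, hst]
  · intro t ht ht0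
    apply (hb K).1
    rw [map_zero]
    refine H3 _ (fun σ => by rw [← hact, ht]) ?_
    rw [← map_nsmul, ht0, map_zero]

end Pool.Agent.H28G
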