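import Mathlib
import Pool.Agent.H28G.Fin
import Pool.Agent.H28G.Iso
import Pool.Agent.H28G.Dec

/-!
# The twist by a rational function: the conditions only at the ramified primes
-/

open Polynomial

noncomputable section

open scoped Classical

namespace Pool.Agent.H28G

open Pool.Agent.MP1bdb59 (Sep AbsGal emb resGal Place Completion placeOf TateModule)
open Pool.Agent.MP1bdb59C

universe u v w

variable {k₀ F₀ : Type*} {k : Type u} {K : Type v} [Field k₀] [Field F₀] [Algebra k₀ F₀]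
  [Field k] [Field K] [Algebra k₀[X] k] [IsFractionRing k₀[X] k] [Algebra F₀[X] K]
  [IsFractionRing F₀[X] K] [Algebra k K] {ℓ : ℕ} [hp : Fact ℓ.Prime]

/-- **The twist by a rational function.** -/
theorem twist_ram
    (hcomp : ∀ q : k₀[X], algebraMap k K (algebraMap k₀[X] k q) =
      algebraMap F₀[X] K (q.map (algebraMap k₀ F₀)))
    (hℓ : (ℓ : k₀) ≠ 0) {f : F₀[X]} (hf : f.Monic) [hirr : Fact (Irreducible f)]
    (hsep : f.Separable) (hcop : ¬ ℓ ∣ f.natDegree)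
    (hreg : ∀ x : AdjoinRoot f, IsAlgebraic k₀ x → x ∈ Set.range (algebraMap k₀ (AdjoinRoot f)))
    {D : F₀[X]} (hD0 : D ≠ 0)
    (hD : ∀ Q : F₀[X], Irreducible Q → (∀ q : k₀[X], q ≠ 0 → ¬ Q ∣ q.map (algebraMap k₀ F₀)) →
      ¬ ℓ ∣ multiplicity Q D →
      Irreducible (Q.map (algebraMap F₀ (CyclotomicField ℓ (AdjoinRoot f)))))
    {P : F₀[X]} (hP : Irreducible P)
    (hPk : ∀ q : k₀[X], q ≠ 0 → ¬ P ∣ q.map (algebraMap k₀ F₀))
    (hPℓ : ¬ ℓ ∣ P.natDegree ∨ ∃ (N : Type w) (_ : Field N) (_ : Algebra F₀ N)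
      (E : IntermediateField F₀ N), FiniteDimensional F₀ N ∧ ¬ ℓ ∣ Module.finrank F₀ E ∧
      IsGalois E N ∧ (∃ ζ : N, IsPrimitiveRoot ζ ℓ) ∧ (∃ y : N, aeval y P = 0) ∧
      Irreducible (f.map (algebraMap F₀ N)))
    (hPD : ¬ ℓ ∣ multiplicity P D)
    {e : K} (he : e ≠ 0) (g : K[X])
    (hg : g = (f.map ((algebraMap F₀[X] K).comp C)).scaleRoots
      (algebraMap F₀[X] K D * e ^ ℓ)) :
    (∀ ξ ∈ Sha k ℓ g, ℓ • ξ = 0 → ξ = 0) ∧
      (∀ t : Jac ℓ g K, (∀ σ, act ℓ g K σ t = t) →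
        ∃ s : Jac ℓ g K, (∀ σ, act ℓ g K σ s = s) ∧ ℓ • s = t) ∧
      (∀ t : Jac ℓ g K, (∀ σ, act ℓ g K σ t = t) → ℓ • t = 0 → t = 0) := by
  have hregF : ∀ x : F₀, IsAlgebraic k₀ x → x ∈ Set.range (algebraMap k₀ F₀) :=
    closed_base' hirr.out hreg
  obtain ⟨c, w₀, D₁, E, hc, hw₀, hD₁, hE, hDD, hQ⟩ := exists_decomp hregF ℓ hD0
  obtain ⟨j, D', hj, hD', hD₁'⟩ := exists_pow_mul hc hw₀ hD₁ hE hDD hP hPk hPD
  have hcD : C c * D₁ ≠ 0 := mul_ne_zero (C_ne_zero.mpr hc) hD₁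
  have hcu : IsUnit (C c : F₀[X]) := isUnit_C.mpr hc.isUnit
  have hw' : algebraMap k₀[X] k w₀ ≠ 0 := by
    rwa [Ne, IsFractionRing.to_map_eq_zero_iff]
  have hEK : algebraMap F₀[X] K E * e ≠ 0 := by
    refine mul_ne_zero ?_ he
    rwa [Ne, IsFractionRing.to_map_eq_zero_iff]
  refine transport (k := k) ℓ (e := algebraMap F₀[X] K E * e) (g₀ :=
    (f.map ((algebraMap F₀[X] K).comp C)).scaleRoots
      (algebraMap k K (algebraMap k₀[X] k w₀) * algebraMap F₀[X] K (C c * D₁))) ?_ hEK ?_ ?_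
  · rw [monic_scaleRoots_iff]
    exact hf.map _
  · rw [hg, ← scaleRoots_mul]
    congr 1
    rw [hDD, hcomp]
    simp only [map_mul, map_pow]
    ring
  · refine twist_all (D := C c * D₁) (P := P) (D' := C c * D') (j := j) hcomp hℓ hf hsep hcop hreg
      hcD (fun Q hQi hQd => ?_) hP hPk hPℓ hj ?_ ?_ hw' _ rfl
    · have hQ1 : Q ∣ D₁ := (hcu.dvd_mul_left).mp hQd
      obtain ⟨h1, h2⟩ := hQ Q hQi hQ1
      exact hD Q hQi h1 h2
    · rwa [hcu.dvd_mul_left]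
    · rw [hD₁']
      ring

end Pool.Agent.H28G
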